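import Mathlib

set_option linter.all false
set_option autoImplicit false

/-! Finite images. -/

namespace Pool.Agent.HO

open Function

/-- G and H have the same finite images -/
def SameFiniteImages (G H : Type) [Group G] [Group H] : Prop :=
  ∀ (Q : Type) [Group Q] [Finite Q],
    (∃ f : G →* Q, Surjective f) ↔ (∃ f : H →* Q, Surjective f)

theorem SameFiniteImages.symm {G H : Type} [Group G] [Group H] (h : SameFiniteImages G H) :
    SameFiniteImages H G := by
  intro Q _ _
  exact (h Q).symm

/-- the finite group through which all homomorphisms to Q factor -/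
def evG (G Q : Type) [Group G] [Group Q] : G →* ((G →* Q) → Q) where
  toFun g := fun f => f g
  map_one' := by funext f; simp
  map_mul' a b := by funext f; simp

theorem factor_aux {G H Q : Type} [Group G] [Group H] [Group Q] (θ : G →* H) (hθ : Surjective θ) :
    Injective (fun f : H →* Q => f.comp θ) := by
  intro f g h
  ext x
  obtain ⟨y, rfl⟩ := hθ x
  exact congrArg (fun u : G →* Q => u y) h

theorem dies {G H : Type} [Group G] [Group H] (θ : G →* H) (hθ : Surjective θ)
    (hs : SameFiniteImages G H) (Q : Type) [Group Q] [Finite Q] [Finite (G →* Q)]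
    [Finite (H →* Q)] (f : G →* Q) (g : G) (hg : θ g = 1) : f g = 1 := by
  let I := (evG G Q).range
  haveI : Finite I := inferInstance
  let e : G →* I := (evG G Q).rangeRestrict
  have he : Surjective e := (evG G Q).rangeRestrict_surjective
  obtain ⟨u, hu⟩ := (hs I).mp ⟨e, he⟩
  -- Hom(G,Q) = Hom(I,Q)
  have h1 : Surjective (fun k : I →* Q => k.comp e) := by
    intro k
    refine ⟨(Pi.evalMonoidHom (fun _ : G →* Q => Q) k).comp (Subgroup.subtype _), ?_⟩
    ext x
    rfl
  have hfin : Finite (I →* Q) := Finite.of_injective _ (factor_aux (Q := Q) e he)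
  have c1 : Nat.card (G →* Q) ≤ Nat.card (I →* Q) := Nat.card_le_card_of_surjective _ h1
  have c2 : Nat.card (I →* Q) ≤ Nat.card (H →* Q) :=
    Nat.card_le_card_of_injective _ (factor_aux (Q := Q) u hu)
  have hinj := factor_aux (Q := Q) θ hθ
  have c3 : Nat.card (H →* Q) ≤ Nat.card (G →* Q) := Nat.card_le_card_of_injective _ hinj
  have hbij : Bijective (fun f : H →* Q => f.comp θ) :=
    (Nat.bijective_iff_injective_and_card _).mpr ⟨hinj, le_antisymm c3 (c1.trans c2)⟩
  obtain ⟨k, hk⟩ := hbij.2 f
  rw [← hk]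
  show k (θ g) = 1
  rw [hg, map_one]

instance finite_hom_free (N : ℕ) (Q : Type) [Group Q] [Finite Q] : Finite (FreeGroup (Fin N) →* Q) :=
  Finite.of_equiv _ (FreeGroup.lift (α := Fin N) (β := Q))

theorem finite_hom_of_surj {G H Q : Type} [Group G] [Group H] [Group Q] [Finite (G →* Q)]
    (θ : G →* H) (hθ : Surjective θ) : Finite (H →* Q) :=
  Finite.of_injective _ (factor_aux (Q := Q) θ hθ)

/-- size of an abelian image -/
theorem card_le_prod {N : ℕ} {Q : Type} [CommGroup Q] [Finite Q] (f : FreeGroup (Fin N) →* Q)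
    (hf : Surjective f) (M : Fin N → ℕ) (hM : ∀ i, 0 < M i)
    (h : ∀ i, (f (FreeGroup.of i)) ^ (M i) = 1) : Nat.card Q ≤ ∏ i, M i := by
  classical
  let S : (∀ i : Fin N, Fin (M i)) → Q := fun k => ∏ i, (f (FreeGroup.of i)) ^ ((k i : ℕ))
  have hS : Surjective S := by
    intro x
    obtain ⟨w, rfl⟩ := hf x
    induction w using FreeGroup.induction_on with
    | C1 =>
      refine ⟨fun i => ⟨0, hM i⟩, ?_⟩
      simp [S]
    | of i =>
      refine ⟨fun l => ⟨(if l = i then 1 else 0) % M l, Nat.mod_lt _ (hM l)⟩, ?_⟩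
      simp only [S]
      have h1 : ∀ l, (f (FreeGroup.of l)) ^ ((if l = i then 1 else 0) % M l) =
          (f (FreeGroup.of l)) ^ (if l = i then 1 else 0) := by
        intro l
        exact (pow_eq_pow_mod _ (h l)).symm
      simp only [h1]
      rw [Finset.prod_eq_single i]
      · simp
      · intro l _ hl; simp [hl]
      · simp
    | inv_of i _ =>
      refine ⟨fun l => ⟨(if l = i then M l - 1 else 0) % M l, Nat.mod_lt _ (hM l)⟩, ?_⟩
      simp only [S]
      have h1 : ∀ l, (f (FreeGroup.of l)) ^ ((if l = i then M l - 1 else 0) % M l) =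
          (f (FreeGroup.of l)) ^ (if l = i then M l - 1 else 0) := by
        intro l
        exact (pow_eq_pow_mod _ (h l)).symm
      simp only [h1]
      rw [Finset.prod_eq_single i]
      · simp only [if_true]
        rw [map_inv, eq_inv_iff_mul_eq_one, ← pow_succ, Nat.sub_add_cancel (hM i), h i]
      · intro l _ hl; simp [hl]
      · simp
    | mul x y hx hy =>
      obtain ⟨a, ha⟩ := hx
      obtain ⟨b, hb⟩ := hy
      refine ⟨fun l => ⟨((a l : ℕ) + (b l : ℕ)) % M l, Nat.mod_lt _ (hM l)⟩, ?_⟩
      simp only [S] at ha hb ⊢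
      have h1 : ∀ l, (f (FreeGroup.of l)) ^ (((a l : ℕ) + (b l : ℕ)) % M l) =
          (f (FreeGroup.of l)) ^ ((a l : ℕ)) * (f (FreeGroup.of l)) ^ ((b l : ℕ)) := by
        intro l
        rw [← pow_eq_pow_mod _ (h l), pow_add]
      simp only [h1]
      rw [Finset.prod_mul_distrib, ha, hb, map_mul]
  have h2 := Nat.card_le_card_of_surjective S hS
  refine h2.trans (le_of_eq ?_)
  rw [Nat.card_pi]
  simp

end Pool.Agent.HO
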