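import Mathlib

set_option linter.all false
set_option autoImplicit false

/-! In a finite q-group in which a word w in x, y is nontrivial, some quotient has w(x,y)
central of order q. -/

namespace Pool.Agent.HO

open Function

/-- evaluation of a word in two letters -/
def lf {H : Type} [Group H] (x y : H) : FreeGroup (Fin 2) →* H :=
  FreeGroup.lift (fun i : Fin 2 => if i = 0 then x else y)

theorem map_lf {H L : Type} [Group H] [Group L] (φ : H →* L) (x y : H) (w : FreeGroup (Fin 2)) :
    φ (lf x y w) = lf (φ x) (φ y) w := by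
  have h : (φ.comp (lf x y)) = lf (φ x) (φ y) := by
    refine FreeGroup.ext_hom _ _ (fun i => ?_)
    simp only [lf, MonoidHom.comp_apply, FreeGroup.lift_apply_of]
    split_ifs <;> rfl
  exact congrArg (fun f : FreeGroup (Fin 2) →* L => f w) h

theorem central_aux (q : ℕ) (hq : q.Prime) (w : FreeGroup (Fin 2)) : ∀ (m : ℕ) (H : Type)
    [Group H] [Finite H], Nat.card H = m → IsPGroup q H → ∀ x y : H, x ^ q = 1 → y ^ q = 1 →
    lf x y w ≠ 1 →
    ∃ (L : Type) (_ : Group L) (_ : Finite L) (x y : L), x ^ q = 1 ∧ y ^ q = 1 ∧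
      lf x y w ∈ Subgroup.center L ∧ (lf x y w) ^ q = 1 ∧ lf x y w ≠ 1 := by
  intro m
  induction m using Nat.strong_induction_on with
  | _ m ih =>
    intro H _ _ hm hH x y hx hy hw
    haveI : Fact q.Prime := ⟨hq⟩
    haveI : Nontrivial H := ⟨⟨_, _, hw⟩⟩
    haveI := hH.center_nontrivial
    obtain ⟨⟨d, hdc⟩, hd1⟩ := exists_ne (1 : Subgroup.center H)
    have hd : d ≠ 1 := fun h => hd1 (Subtype.ext h)
    have hqd : q ∣ orderOf d := hH.dvd_orderOf hd
    have hod : orderOf d ≠ 0 := (orderOf_pos d).ne'
    set c := d ^ (orderOf d / q) with hc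
    have hoc : orderOf c = q := orderOf_pow_orderOf_div hod hqd
    have hcc : c ∈ Subgroup.center H := Subgroup.pow_mem _ hdc _
    by_cases hz : lf x y w ∈ Subgroup.zpowers c
    · refine ⟨H, inferInstance, inferInstance, x, y, hx, hy, ?_, ?_, hw⟩
      · exact (Subgroup.zpowers_le.mpr hcc) hz
      · obtain ⟨k, hk⟩ := Subgroup.mem_zpowers_iff.mp hz
        rw [← hk, ← zpow_natCast, ← zpow_mul, mul_comm, zpow_mul, zpow_natCast, ← hoc,
          pow_orderOf_eq_one, one_zpow]
    · haveI hN : (Subgroup.zpowers c).Normal := by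
        constructor
        intro n hn g
        have hnc : n ∈ Subgroup.center H := (Subgroup.zpowers_le.mpr hcc) hn
        have : g * n * g⁻¹ = n := by
          rw [(Subgroup.mem_center_iff.mp hnc g), mul_assoc, mul_inv_cancel, mul_one]
        rw [this]; exact hn
      have hcard : Nat.card (H ⧸ Subgroup.zpowers c) < m := by
        rw [← hm]
        have h1 := Subgroup.card_eq_card_quotient_mul_card_subgroup (Subgroup.zpowers c)
        have h2 : Nat.card (Subgroup.zpowers c) = q := by rw [Nat.card_zpowers, hoc]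
        rw [h2] at h1
        have h3 : 0 < Nat.card (H ⧸ Subgroup.zpowers c) := Nat.card_pos
        have h4 := hq.two_le
        nlinarith
      let π := QuotientGroup.mk' (Subgroup.zpowers c)
      refine ih _ hcard (H ⧸ Subgroup.zpowers c) rfl (hH.to_quotient _) (π x) (π y) ?_ ?_ ?_
      · rw [← map_pow, hx, map_one]
      · rw [← map_pow, hy, map_one]
      · rw [← map_lf]
        intro h
        exact hz ((QuotientGroup.eq_one_iff _).mp h)

end Pool.Agent.HO
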