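import Mathlib

set_option linter.all false
set_option autoImplicit false

/-! Two embeddings of a finite group into a finite group K become conjugate in the group of
all permutations of K (free actions with the same number of orbits). -/

namespace Pool.Agent.HO

open Function

/-- K acts on itself by right translations -/
def rho (K : Type) [Group K] : K →* Equiv.Perm K where
  toFun k := Equiv.mulRight k⁻¹
  map_one' := by ext x; simp
  map_mul' a b := by ext x; simp [mul_assoc]

theorem rho_apply (K : Type) [Group K] (k x : K) : rho K k x = x * k⁻¹ := rfl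

theorem rho_inj (K : Type) [Group K] : Injective (rho K) := by
  intro a b h
  have h1 := congrArg (fun s : Equiv.Perm K => s 1) h
  simpa [rho_apply] using h1

/-- coordinates of K along the orbits of the image of f -/
noncomputable def cooF {K E : Type} [Group K] [Group E] (f : E →* K) :
    (K ⧸ f.range) × E → K := fun c => c.1.out * (f c.2)⁻¹

theorem cooF_bij {K E : Type} [Group K] [Group E] (f : E →* K) (hf : Injective f) :
    Bijective (cooF f) := by
  constructor
  · rintro ⟨c, v⟩ ⟨d, w⟩ h
    simp only [cooF] at h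
    have hcd : c = d := by
      have h1 : (QuotientGroup.mk (c.out * (f v)⁻¹) : K ⧸ f.range) = QuotientGroup.mk (d.out * (f w)⁻¹) := by rw [h]
      rw [QuotientGroup.mk_mul_of_mem _ (f.range.inv_mem ⟨v, rfl⟩),
        QuotientGroup.mk_mul_of_mem _ (f.range.inv_mem ⟨w, rfl⟩)] at h1
      simpa using h1
    subst hcd
    have h2 : f v = f w := by
      have := mul_left_cancel h
      exact inv_injective this
    rw [hf h2]
  · intro x
    have h1 : (QuotientGroup.mk x : K ⧸ f.range) = QuotientGroup.mk ((QuotientGroup.mk x : K ⧸ f.range).out) := by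
      simp
    have h2 : x⁻¹ * (QuotientGroup.mk x : K ⧸ f.range).out ∈ f.range := by
      exact QuotientGroup.eq.mp h1
    obtain ⟨v, hv⟩ := h2
    refine ⟨(QuotientGroup.mk x, v), ?_⟩
    simp only [cooF]
    rw [hv]
    simp [mul_assoc]

theorem cooF_act {K E : Type} [Group K] [Group E] (f : E →* K) (c : K ⧸ f.range) (u v : E) :
    rho K (f u) (cooF f (c, v)) = cooF f (c, u * v) := by
  simp [rho_apply, cooF, mul_assoc]

theorem conj_perm {K E : Type} [Group K] [Finite K] [Group E] (f g : E →* K)
    (hf : Injective f) (hg : Injective g) :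
    ∃ τ : Equiv.Perm K, ∀ v : E, τ * rho K (f v) * τ⁻¹ = rho K (g v) := by
  have hE : Finite E := Finite.of_injective f hf
  have hc : Nat.card (K ⧸ f.range) = Nat.card (K ⧸ g.range) := by
    have h1 := Nat.card_congr (Equiv.ofBijective _ (cooF_bij f hf))
    have h2 := Nat.card_congr (Equiv.ofBijective _ (cooF_bij g hg))
    rw [Nat.card_prod] at h1 h2
    have h3 : 0 < Nat.card E := Nat.card_pos
    exact Nat.eq_of_mul_eq_mul_right h3 (h1.trans h2.symm)
  obtain ⟨e⟩ : Nonempty ((K ⧸ f.range) ≃ (K ⧸ g.range)) := Finite.card_eq.mp hc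
  let Ff := Equiv.ofBijective _ (cooF_bij f hf)
  let Fg := Equiv.ofBijective _ (cooF_bij g hg)
  let τ : Equiv.Perm K := Ff.symm.trans ((Equiv.prodCongr e (Equiv.refl E)).trans Fg)
  have key : ∀ (c : K ⧸ f.range) (v : E), τ (cooF f (c, v)) = cooF g (e c, v) := by
    intro c v
    have h1 : Ff.symm (cooF f (c, v)) = (c, v) := by
      rw [Equiv.symm_apply_eq]; rfl
    simp only [τ, Equiv.trans_apply, h1]
    rfl
  refine ⟨τ, fun v => ?_⟩
  rw [mul_inv_eq_iff_eq_mul]
  ext x
  obtain ⟨⟨c, w⟩, rfl⟩ := (cooF_bij f hf).2 x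
  simp only [Equiv.Perm.mul_apply, cooF_act, key]

end Pool.Agent.HO
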