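import Mathlib
import Pool.Agent.HO.Conj
import Pool.Agent.HO.Central

set_option linter.all false
set_option autoImplicit false

/-! The main construction: exponent vector a unit vector at an interior place j. -/

namespace Pool.Agent.HO

open Function

/-- exponent sum of the letter i in the word p -/
def expo (n : ℕ) (p : FreeGroup (Fin (n + 1))) (i : Fin (n + 1)) : ℤ :=
  Multiplicative.toAdd (FreeGroup.lift
    (fun k : Fin (n + 1) => Multiplicative.ofAdd (if k = i then (1 : ℤ) else 0)) p)

/-- the word p with all inner letters deleted, as a word in two letters -/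
def ends (n : ℕ) (p : FreeGroup (Fin (n + 1))) : FreeGroup (Fin 2) :=
  FreeGroup.lift (fun k : Fin (n + 1) =>
    if k = 0 then FreeGroup.of 0 else if k = Fin.last n then FreeGroup.of 1 else 1) p

theorem expo_one (n : ℕ) (i : Fin (n + 1)) : expo n 1 i = 0 := by simp [expo]

theorem expo_mul (n : ℕ) (p r : FreeGroup (Fin (n + 1))) (i : Fin (n + 1)) :
    expo n (p * r) i = expo n p i + expo n r i := by simp [expo]

theorem expo_of (n : ℕ) (k i : Fin (n + 1)) :
    expo n (FreeGroup.of k) i = if k = i then 1 else 0 := by simp [expo]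

section pw

variable {L : Type} [Group L] {q : ℕ}

/-- powers of an element of order dividing q -/
def pw (x : L) (hx : x ^ q = 1) [NeZero q] : Multiplicative (ZMod q) →* L where
  toFun k := x ^ (ZMod.val (Multiplicative.toAdd k))
  map_one' := by simp
  map_mul' a b := by
    rw [toAdd_mul, ZMod.val_add, ← pow_eq_pow_mod _ hx, pow_add]

theorem pw_zero (x : L) (hx : x ^ q = 1) [NeZero q] : pw x hx (Multiplicative.ofAdd 0) = 1 := by
  simp [pw]

theorem pw_one (x : L) (hx : x ^ q = 1) [NeZero q] [Fact (1 < q)] :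
    pw x hx (Multiplicative.ofAdd 1) = x := by
  simp [pw, ZMod.val_one]

theorem pw_inj (x : L) (hx : x ^ q = 1) (h1 : x ≠ 1) [NeZero q] [Fact q.Prime] (k : ZMod q)
    (h : pw x hx (Multiplicative.ofAdd k) = 1) : k = 0 := by
  have ho : orderOf x = q := orderOf_eq_prime hx h1
  have h2 := orderOf_dvd_of_pow_eq_one (show x ^ ZMod.val k = 1 from h)
  rw [ho] at h2
  have h3 : ZMod.val k < q := ZMod.val_lt k
  have h4 : ZMod.val k = 0 := Nat.eq_zero_of_dvd_of_lt h2 h3
  exact (ZMod.val_eq_zero k).mp h4

theorem pw_comm (x : L) (hx : x ^ q = 1) [NeZero q] (c : L) (hc : c ∈ Subgroup.center L)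
    (k : Multiplicative (ZMod q)) (g : L) (hcq : c ^ q = 1) :
    pw c hcq k * g = g * pw c hcq k := by
  have : pw c hcq k ∈ Subgroup.center L := Subgroup.pow_mem _ hc _
  exact ((Subgroup.mem_center_iff.mp this) g).symm

end pw

section emb

variable {L : Type} [Group L] {q : ℕ} [NeZero q] {n : ℕ}

/-- an embedding of the elementary abelian group of rank n -/
def emb (s : Fin n → Fin (n + 1)) (j : Fin (n + 1)) (i0 ij : Fin n) (b c : L) (hb : b ^ q = 1)
    (hcq : c ^ q = 1) (hc : c ∈ Subgroup.center L) :
    Multiplicative (Fin n → ZMod q) →* L × Multiplicative (Fin (n + 1) → ZMod q) where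
  toFun v := (pw b hb (Multiplicative.ofAdd (Multiplicative.toAdd v i0)) *
      pw c hcq (Multiplicative.ofAdd (Multiplicative.toAdd v ij)),
    Multiplicative.ofAdd (fun k => if k = j then 0 else ∑ i, if s i = k then Multiplicative.toAdd v i else 0))
  map_one' := by
    ext
    · simp [pw_zero]
    · simp
  map_mul' v w := by
    refine Prod.ext ?_ ?_
    · simp only [toAdd_mul, Pi.add_apply, ofAdd_add, map_mul, Prod.fst_mul]
      rw [mul_assoc, mul_assoc]
      congr 1
      rw [← mul_assoc, ← mul_assoc]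
      congr 1
      exact (pw_comm b hb c hc _ _ hcq).symm ▸ rfl
    · simp only [toAdd_mul, Prod.snd_mul]
      rw [← ofAdd_add]
      congr 1
      funext k
      simp only [Pi.add_apply]
      split_ifs with h
      · simp
      · rw [← Finset.sum_add_distrib]
        refine Finset.sum_congr rfl (fun i _ => ?_)
        split_ifs <;> simp

theorem emb_snd (s : Fin n → Fin (n + 1)) (hs : Injective s) (j : Fin (n + 1)) (i0 ij : Fin n)
    (b c : L) (hb : b ^ q = 1) (hcq : c ^ q = 1) (hc : c ∈ Subgroup.center L)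
    (v : Fin n → ZMod q) (i : Fin n) (hi : s i ≠ j) :
    Multiplicative.toAdd (emb s j i0 ij b c hb hcq hc (Multiplicative.ofAdd v)).2 (s i) = v i := by
  simp only [emb, MonoidHom.coe_mk, OneHom.coe_mk, toAdd_ofAdd, if_neg hi]
  rw [Finset.sum_eq_single i]
  · simp
  · intro k _ hk
    rw [if_neg (fun h => hk (hs h))]
  · simp

theorem emb_inj (s : Fin n → Fin (n + 1)) (hs : Injective s) (j : Fin (n + 1)) (i0 ij : Fin n)
    (b c : L) (hb : b ^ q = 1) (hcq : c ^ q = 1) (hc : c ∈ Subgroup.center L)
    (hij : s ij = j) (hi0 : s i0 ≠ j) (h1 : c ≠ 1) [Fact q.Prime] :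
    Injective (emb s j i0 ij b c hb hcq hc) := by
  rw [injective_iff_map_eq_one]
  intro v hv
  obtain ⟨v, rfl⟩ := Multiplicative.ofAdd.surjective v
  have h2 : ∀ i : Fin n, s i ≠ j → v i = 0 := by
    intro i hi
    rw [← emb_snd s hs j i0 ij b c hb hcq hc v i hi, hv]
    rfl
  have h3 := congrArg Prod.fst hv
  simp only [emb, MonoidHom.coe_mk, OneHom.coe_mk, toAdd_ofAdd, h2 i0 hi0, pw_zero, one_mul,
    Prod.fst_one] at h3
  have h4 := pw_inj c hcq h1 _ h3
  have h5 : v = 0 := by
    funext i
    by_cases hi : s i = j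
    · have : i = ij := hs (hi.trans hij.symm)
      rw [this, h4]; rfl
    · exact h2 i hi
  rw [h5]; rfl

theorem emb_single (s : Fin n → Fin (n + 1)) (hs : Injective s) (j : Fin (n + 1)) (i0 ij : Fin n)
    (b c : L) (hb : b ^ q = 1) (hcq : c ^ q = 1) (hc : c ∈ Subgroup.center L)
    (hij : s ij = j) (hi0 : s i0 ≠ j) [Fact (1 < q)] (i : Fin n) :
    emb s j i0 ij b c hb hcq hc (Multiplicative.ofAdd (Pi.single i 1)) =
      if s i = j then (c, 1) else
        (if i = i0 then b else 1, Multiplicative.ofAdd (Pi.single (s i) (1 : ZMod q))) := by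
  have hne : i0 ≠ ij := fun h => hi0 (h ▸ hij)
  by_cases h : s i = j
  · have hi : i = ij := hs (h.trans hij.symm)
    subst hi
    rw [if_pos hij]
    refine Prod.ext ?_ ?_
    · simp only [emb, MonoidHom.coe_mk, OneHom.coe_mk, toAdd_ofAdd]
      rw [Pi.single_eq_of_ne hne, Pi.single_eq_same, pw_zero, pw_one, one_mul]
    · simp only [emb, MonoidHom.coe_mk, OneHom.coe_mk, toAdd_ofAdd]
      rw [← ofAdd_zero]
      congr 1
      funext k
      by_cases hk : k = j
      · simp [hk]
      · rw [if_neg hk]
        refine Finset.sum_eq_zero (fun a _ => ?_)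
        by_cases ha : s a = k
        · rw [if_pos ha]
          have : a ≠ i := fun h' => hk (by rw [← ha, h', hij])
          exact Pi.single_eq_of_ne this _
        · rw [if_neg ha]
  · rw [if_neg h]
    have hine : i ≠ ij := fun h' => h (h' ▸ hij)
    refine Prod.ext ?_ ?_
    · simp only [emb, MonoidHom.coe_mk, OneHom.coe_mk, toAdd_ofAdd]
      rw [Pi.single_eq_of_ne hine.symm, pw_zero, mul_one]
      by_cases hi : i = i0
      · subst hi
        rw [Pi.single_eq_same, pw_one, if_pos rfl]
      · rw [Pi.single_eq_of_ne (Ne.symm hi), pw_zero, if_neg hi]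
    · simp only [emb, MonoidHom.coe_mk, OneHom.coe_mk, toAdd_ofAdd]
      congr 1
      funext k
      by_cases hk : k = j
      · rw [if_pos hk, Pi.single_eq_of_ne (fun h' => h (h'.symm.trans hk))]
      · rw [if_neg hk, Finset.sum_eq_single i]
        · by_cases hs' : s i = k
          · rw [if_pos hs', hs', Pi.single_eq_same, Pi.single_eq_same]
          · rw [if_neg hs', Pi.single_eq_of_ne (Ne.symm hs')]
        · intro a _ ha
          rw [Pi.single_eq_of_ne ha]
          simp
        · simp

end emb

end Pool.Agent.HO
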