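import Mathlib
import Pool.Agent.HO.Main

set_option linter.all false
set_option autoImplicit false

namespace Pool.Agent.HO

open Function

section letters

variable {L : Type} [Group L] {q : ℕ} [NeZero q] {n : ℕ}

/-- the images of the letters in the local group -/
def lett (n : ℕ) (j : Fin (n + 1)) (x y c : L) (k : Fin (n + 1)) :
    L × Multiplicative (Fin (n + 1) → ZMod q) :=
  if k = j then (c, 1) else
    (if k = 0 then x else if k = Fin.last n then y else 1,
      Multiplicative.ofAdd (Pi.single k (1 : ZMod q)))

theorem fst_lett (j : Fin (n + 1)) (hj0 : j ≠ 0) (hjn : j ≠ Fin.last n) (x y c : L)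
    (hc : c ∈ Subgroup.center L) (p : FreeGroup (Fin (n + 1))) :
    (FreeGroup.lift (lett (q := q) n j x y c) p).1 = c ^ (expo n p j) * lf x y (ends n p) := by
  let R : FreeGroup (Fin (n + 1)) →* L :=
    { toFun := fun p => c ^ (expo n p j) * lf x y (ends n p)
      map_one' := by simp [expo_one, ends]
      map_mul' := by
        intro p r
        have h1 : c ^ (expo n r j) ∈ Subgroup.center L := Subgroup.zpow_mem _ hc _
        have h2 := (Subgroup.mem_center_iff.mp h1) (lf x y (ends n p))
        have h3 : ends n (p * r) = ends n p * ends n r := by simp [ends]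
        rw [expo_mul, zpow_add, h3, map_mul]
        calc c ^ (expo n p j) * c ^ (expo n r j) * (lf x y (ends n p) * lf x y (ends n r))
            = c ^ (expo n p j) * (c ^ (expo n r j) * lf x y (ends n p)) * lf x y (ends n r) := by
              simp only [mul_assoc]
          _ = c ^ (expo n p j) * (lf x y (ends n p) * c ^ (expo n r j)) * lf x y (ends n r) := by
              rw [h2]
          _ = _ := by simp only [mul_assoc] }
  have h : (MonoidHom.fst L (Multiplicative (Fin (n + 1) → ZMod q))).comp
      (FreeGroup.lift (lett (q := q) n j x y c)) = R := by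
    refine FreeGroup.ext_hom _ _ (fun k => ?_)
    show (FreeGroup.lift (lett (q := q) n j x y c) (FreeGroup.of k)).1 =
      c ^ (expo n (FreeGroup.of k) j) * lf x y (ends n (FreeGroup.of k))
    rw [FreeGroup.lift_apply_of, expo_of]
    simp only [ends, FreeGroup.lift_apply_of, lett]
    by_cases hk : k = j
    · subst hk
      simp [hj0, hjn]
    · by_cases h0 : k = 0
      · subst h0
        simp [hk, lf]
      · by_cases hl : k = Fin.last n
        · simp only [if_neg hk, if_neg h0, if_pos hl]
          simp [lf]
        · simp [hk, h0, hl]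
  exact congrArg (fun f : FreeGroup (Fin (n + 1)) →* L => f p) h

theorem snd_lett (j : Fin (n + 1)) (x y c : L) (p : FreeGroup (Fin (n + 1))) :
    (FreeGroup.lift (lett (q := q) n j x y c) p).2 =
      Multiplicative.ofAdd (fun k => if k = j then 0 else ((expo n p k : ℤ) : ZMod q)) := by
  let R : FreeGroup (Fin (n + 1)) →* Multiplicative (Fin (n + 1) → ZMod q) :=
    { toFun := fun p => Multiplicative.ofAdd (fun k => if k = j then 0 else ((expo n p k : ℤ) : ZMod q))
      map_one' := by
        rw [← ofAdd_zero]
        congr 1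
        funext k
        simp [expo_one]
      map_mul' := by
        intro p r
        rw [← ofAdd_add]
        congr 1
        funext k
        simp only [Pi.add_apply, expo_mul]
        split_ifs <;> simp }
  have h : (MonoidHom.snd L (Multiplicative (Fin (n + 1) → ZMod q))).comp
      (FreeGroup.lift (lett (q := q) n j x y c)) = R := by
    refine FreeGroup.ext_hom _ _ (fun k => ?_)
    show (FreeGroup.lift (lett (q := q) n j x y c) (FreeGroup.of k)).2 =
      Multiplicative.ofAdd (fun i => if i = j then 0 else ((expo n (FreeGroup.of k) i : ℤ) : ZMod q))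
    rw [FreeGroup.lift_apply_of]
    simp only [lett, expo_of]
    by_cases hk : k = j
    · rw [if_pos hk]
      show (1 : Multiplicative (Fin (n + 1) → ZMod q)) = _
      rw [← ofAdd_zero]
      congr 1
      funext i
      by_cases hi : i = j
      · simp [hi]
      · have : ¬ k = i := fun h' => hi (h'.symm.trans hk)
        simp [hi, this]
    · rw [if_neg hk]
      show Multiplicative.ofAdd (Pi.single k (1 : ZMod q) : Fin (n + 1) → ZMod q) = _
      congr 1
      funext i
      by_cases hi : i = j
      · subst hi
        rw [Pi.single_eq_of_ne (Ne.symm hk)]; simp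
      · by_cases hik : k = i
        · subst hik
          simp [hk]
        · rw [Pi.single_eq_of_ne (Ne.symm hik)]
          simp [hi, hik]
  exact congrArg (fun f : FreeGroup (Fin (n + 1)) →* Multiplicative (Fin (n + 1) → ZMod q) => f p) h

end letters

/-- conjugates -/
def cjg {Q : Type} [Group Q] (n : ℕ) (a t : Q) (i : Fin (n + 1)) : Q :=
  t ^ (i : ℕ) * a * (t ^ (i : ℕ))⁻¹

theorem interior (n : ℕ) (p : FreeGroup (Fin (n + 1))) (j : Fin (n + 1)) (hj0 : j ≠ 0)
    (hjn : j ≠ Fin.last n) (ε : ℤ) (hε : ε * ε = 1)
    (he : ∀ i, expo n p i = if i = j then ε else 0) (q : ℕ) (hq : q.Prime) (L : Type) [Group L]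
    [Finite L] (x y : L) (hx : x ^ q = 1) (hy : y ^ q = 1)
    (hz : lf x y (ends n p) ∈ Subgroup.center L) (hzq : (lf x y (ends n p)) ^ q = 1)
    (hz1 : lf x y (ends n p) ≠ 1) :
    ∃ (Q : Type) (_ : Group Q) (_ : Finite Q) (a t : Q),
      FreeGroup.lift (cjg n a t) p = 1 ∧ a * t ≠ t * a := by
  haveI : Fact q.Prime := ⟨hq⟩
  haveI : NeZero q := ⟨hq.ne_zero⟩
  haveI : Fact (1 < q) := ⟨hq.one_lt⟩
  set z := lf x y (ends n p) with hzdef
  let c : L := z ^ (-ε)
  have hc : c ∈ Subgroup.center L := Subgroup.zpow_mem _ hz _
  have hcq : c ^ q = 1 := by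
    show (z ^ (-ε)) ^ q = 1
    rw [← zpow_natCast, ← zpow_mul, mul_comm, zpow_mul, zpow_natCast, hzq, one_zpow]
  have hcε : c ^ ε = z⁻¹ := by
    show (z ^ (-ε)) ^ ε = z⁻¹
    rw [← zpow_mul, neg_mul, hε, zpow_neg, zpow_one]
  have hc1 : c ≠ 1 := by
    intro h
    rw [h, one_zpow] at hcε
    exact hz1 (inv_eq_one.mp hcε.symm)
  let K := L × Multiplicative (Fin (n + 1) → ZMod q)
  haveI : Finite K := inferInstance
  have hjv : (j : ℕ) < n := by
    have h1 := j.isLt
    rcases Nat.lt_or_ge (j : ℕ) n with h | h
    · exact h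
    · exfalso; apply hjn; ext; simp; omega
  have hjp : 0 < (j : ℕ) := by
    rcases Nat.eq_zero_or_pos (j : ℕ) with h | h
    · exfalso; apply hj0; ext; simpa using h
    · exact h
  have hn : 0 < n := by omega
  let i0 : Fin n := ⟨0, hn⟩
  let ij : Fin n := ⟨j, hjv⟩
  let k0 : Fin n := ⟨n - 1, by omega⟩
  let kj : Fin n := ⟨(j : ℕ) - 1, by omega⟩
  let f : Multiplicative (Fin n → ZMod q) →* K :=
    emb Fin.castSucc j i0 ij x c hx hcq hc
  let g : Multiplicative (Fin n → ZMod q) →* K :=
    emb Fin.succ j k0 kj y c hy hcq hc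
  have hij : Fin.castSucc ij = j := by ext; simp [ij]
  have hi0 : Fin.castSucc i0 ≠ j := by
    intro h
    have := congrArg Fin.val h
    simp [i0] at this
    omega
  have hkj : Fin.succ kj = j := by
    ext; simp [kj]; omega
  have hk0 : Fin.succ k0 ≠ j := by
    intro h
    have := congrArg Fin.val h
    simp [k0] at this
    omega
  have hf : Injective f := emb_inj _ (Fin.castSucc_injective n) _ _ _ _ _ _ _ _ hij hi0 hc1
  have hg : Injective g := emb_inj _ (Fin.succ_injective n) _ _ _ _ _ _ _ _ hkj hk0 hc1
  let A : Fin (n + 1) → K := lett n j x y c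
  have hfA : ∀ i : Fin n, f (Multiplicative.ofAdd (Pi.single i 1)) = A i.castSucc := by
    intro i
    rw [emb_single _ (Fin.castSucc_injective n) _ _ _ _ _ _ _ _ hij hi0]
    show _ = lett n j x y c i.castSucc
    simp only [lett]
    by_cases h : i.castSucc = j
    · rw [if_pos h, if_pos h]
    · rw [if_neg h, if_neg h]
      have h1 : i.castSucc ≠ Fin.last n := (Fin.castSucc_lt_last i).ne
      have h2 : i.castSucc = 0 ↔ i = i0 := by
        constructor
        · intro h'
          ext
          have := congrArg Fin.val h'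
          simpa [i0] using this
        · intro h'
          ext
          rw [h']; simp [i0]
      by_cases h3 : i = i0
      · rw [if_pos h3, if_pos (h2.mpr h3)]
      · rw [if_neg h3, if_neg (fun h' => h3 (h2.mp h')), if_neg h1]
  have hgA : ∀ i : Fin n, g (Multiplicative.ofAdd (Pi.single i 1)) = A i.succ := by
    intro i
    rw [emb_single _ (Fin.succ_injective n) _ _ _ _ _ _ _ _ hkj hk0]
    show _ = lett n j x y c i.succ
    simp only [lett]
    by_cases h : i.succ = j
    · rw [if_pos h, if_pos h]
    · rw [if_neg h, if_neg h]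
      have h1 : i.succ ≠ 0 := Fin.succ_ne_zero i
      have h2 : i.succ = Fin.last n ↔ i = k0 := by
        constructor
        · intro h'
          ext
          have := congrArg Fin.val h'
          simp at this
          simp [k0]; omega
        · intro h'
          ext
          rw [h']
          show n - 1 + 1 = n
          omega
      rw [if_neg h1]
      by_cases h3 : i = k0
      · rw [if_pos h3, if_pos (h2.mpr h3)]
      · rw [if_neg h3, if_neg (fun h' => h3 (h2.mp h'))]
  obtain ⟨τ, hτ⟩ := conj_perm f g hf hg
  have hpow : ∀ i : ℕ, ∀ hi : i < n + 1, τ ^ i * rho K (A 0) * (τ ^ i)⁻¹ = rho K (A ⟨i, hi⟩) := by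
    intro i
    induction i with
    | zero => intro hi; simp
    | succ i ih =>
      intro hi
      have h1 := ih (by omega)
      have h2 := hτ (Multiplicative.ofAdd (Pi.single ⟨i, by omega⟩ 1))
      rw [hfA, hgA] at h2
      have e1 : (Fin.castSucc (⟨i, by omega⟩ : Fin n)) = (⟨i, by omega⟩ : Fin (n + 1)) := rfl
      have e2 : (Fin.succ (⟨i, by omega⟩ : Fin n)) = (⟨i + 1, hi⟩ : Fin (n + 1)) := rfl
      rw [e1, e2] at h2
      rw [← h2, ← h1, pow_succ']
      simp only [mul_inv_rev, mul_assoc]
  refine ⟨Equiv.Perm K, inferInstance, inferInstance, rho K (A 0), τ, ?_, ?_⟩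
  · have h1 : cjg n (rho K (A 0)) τ = fun i => rho K (A i) := by
      funext i
      exact hpow i i.isLt
    have h2 : FreeGroup.lift (cjg n (rho K (A 0)) τ) = (rho K).comp (FreeGroup.lift A) := by
      refine FreeGroup.ext_hom _ _ (fun i => ?_)
      simp [h1]
    have h3 : FreeGroup.lift A p = 1 := by
      refine Prod.ext ?_ ?_
      · show (FreeGroup.lift (lett (q := q) n j x y c) p).1 = 1
        rw [fst_lett j hj0 hjn x y c hc p, he j, if_pos rfl, hcε]
        exact inv_mul_cancel _
      · show (FreeGroup.lift (lett (q := q) n j x y c) p).2 = 1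
        rw [snd_lett]
        rw [← ofAdd_zero]
        congr 1
        funext k
        by_cases hk : k = j
        · simp [hk]
        · simp [hk, he k]
    rw [h2, MonoidHom.comp_apply, h3, map_one]
  · intro hcomm
    have h1 := hpow 1 (by omega)
    rw [pow_one, ← hcomm, mul_inv_cancel_right] at h1
    have h2 := rho_inj K h1
    have h3 := congrArg (fun u : K => Multiplicative.toAdd u.2 0) h2
    simp only [A, lett] at h3
    rw [if_neg (Ne.symm hj0)] at h3
    have h01 : (⟨1, by omega⟩ : Fin (n + 1)) ≠ 0 := by
      intro h; have := congrArg Fin.val h; simp at this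
    by_cases h4 : (⟨1, by omega⟩ : Fin (n + 1)) = j
    · rw [if_pos h4] at h3
      simp at h3
    · rw [if_neg h4] at h3
      simp only [toAdd_ofAdd] at h3
      rw [Pi.single_eq_same, Pi.single_eq_of_ne (Ne.symm h01)] at h3
      exact one_ne_zero h3

end Pool.Agent.HO
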