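import Mathlib
import Pool.Agent.HO.Img
import Pool.Agent.HO.Int

set_option linter.all false
set_option autoImplicit false

/-! Abelian images of the group, and the rank of a free group with the same finite images. -/

namespace Pool.Agent.HO

open Function

/-- elementary group of exponent N and rank k -/
abbrev El (N k : ℕ) : Type := Multiplicative (Fin k → ZMod N)

theorem card_El (N k : ℕ) : Nat.card (El N k) = N ^ k := by
  have h : Nat.card (El N k) = Nat.card (Fin k → ZMod N) := Nat.card_congr Multiplicative.toAdd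
  rw [h, Nat.card_fun]
  simp

theorem El_pow (N k : ℕ) (x : El N k) : x ^ N = 1 := by
  obtain ⟨v, rfl⟩ := Multiplicative.ofAdd.surjective x
  rw [← ofAdd_nsmul, ← ofAdd_zero]
  congr 1
  funext i
  simp

instance (N k : ℕ) [NeZero N] : Finite (El N k) := by
  unfold El
  infer_instance

theorem El_gen (N k : ℕ) (hN : 0 < N) (S : Subgroup (El N k))
    (h : ∀ i, (Multiplicative.ofAdd (Pi.single i 1) : El N k) ∈ S) : S = ⊤ := by
  haveI : NeZero N := ⟨hN.ne'⟩
  rw [eq_top_iff]
  intro x _
  obtain ⟨v, rfl⟩ := Multiplicative.ofAdd.surjective x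
  have h1 : (Multiplicative.ofAdd v : El N k) =
      ∏ i, (Multiplicative.ofAdd (Pi.single i 1) : El N k) ^ (ZMod.val (v i)) := by
    have h2 : v = ∑ i, (ZMod.val (v i)) • (Pi.single i (1 : ZMod N) : Fin k → ZMod N) := by
      funext j
      rw [Finset.sum_apply, Finset.sum_eq_single j]
      · simp
      · intro b _ hb
        simp [Pi.single_eq_of_ne (Ne.symm hb)]
      · simp
    conv_lhs => rw [h2]
    rw [ofAdd_sum]
    rfl
  rw [h1]
  exact Subgroup.prod_mem _ (fun i _ => Subgroup.pow_mem _ (h i) _)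

theorem onto_El (N k d : ℕ) (hN : 0 < N) (h : k ≤ d) :
    ∃ f : FreeGroup (Fin d) →* El N k, Surjective f := by
  refine ⟨FreeGroup.lift (fun i : Fin d => if hi : (i : ℕ) < k then
    Multiplicative.ofAdd (Pi.single ⟨i, hi⟩ 1) else 1), ?_⟩
  rw [← MonoidHom.range_eq_top]
  refine El_gen N k hN _ (fun i => ?_)
  refine ⟨FreeGroup.of ⟨i, lt_of_lt_of_le i.isLt h⟩, ?_⟩
  rw [FreeGroup.lift_apply_of, dif_pos i.isLt]

theorem free_le (N k d : ℕ) (hN : 2 ≤ N) (f : FreeGroup (Fin d) →* El N k) (hf : Surjective f) :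
    k ≤ d := by
  haveI : NeZero N := ⟨by omega⟩
  have h := card_le_prod f hf (fun _ => N) (fun _ => by omega) (fun i => El_pow N k _)
  rw [card_El, Finset.prod_const, Finset.card_univ, Fintype.card_fin] at h
  exact (Nat.pow_le_pow_iff_right (by omega)).mp h

theorem free_le_of_kill (N k m : ℕ) (hN : 2 ≤ N) (f : FreeGroup (Fin (m + 1)) →* El N k)
    (hf : Surjective f) (h0 : f (FreeGroup.of 0) = 1) : k ≤ m := by
  haveI : NeZero N := ⟨by omega⟩
  have h := card_le_prod f hf (fun i => if i = 0 then 1 else N)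
    (fun i => by split_ifs <;> omega)
    (fun i => by
      split_ifs with hi
      · rw [hi, h0, one_pow]
      · exact El_pow N k _)
  rw [card_El, Fin.prod_univ_succ, if_pos rfl, one_mul] at h
  have h2 : ∏ i : Fin m, (if (i.succ : Fin (m + 1)) = 0 then 1 else N) = N ^ m := by
    rw [Finset.prod_congr rfl (fun i _ => if_neg (Fin.succ_ne_zero i))]
    simp
  rw [h2] at h
  exact (Nat.pow_le_pow_iff_right (by omega)).mp h

theorem pres_onto {α : Type} (r : FreeGroup α) (Q : Type) [Group Q] :
    (∃ f : PresentedGroup ({r} : Set (FreeGroup α)) →* Q, Surjective f) ↔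
      ∃ f : FreeGroup α →* Q, Surjective f ∧ f r = 1 := by
  constructor
  · rintro ⟨f, hf⟩
    refine ⟨f.comp (PresentedGroup.mk {r}), hf.comp (PresentedGroup.mk_surjective _), ?_⟩
    rw [MonoidHom.comp_apply, PresentedGroup.one_of_mem (Set.mem_singleton r), map_one]
  · rintro ⟨f, hf, hr⟩
    have h : ∀ w ∈ ({r} : Set (FreeGroup α)), FreeGroup.lift (fun i => f (FreeGroup.of i)) w = 1 := by
      intro w hw
      rw [Set.mem_singleton_iff.mp hw]
      have : FreeGroup.lift (fun i => f (FreeGroup.of i)) = f :=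
        FreeGroup.ext_hom _ _ (fun i => by simp)
      rw [this, hr]
    refine ⟨PresentedGroup.toGroup h, ?_⟩
    intro q
    obtain ⟨w, rfl⟩ := hf q
    refine ⟨PresentedGroup.mk {r} w, ?_⟩
    have h2 : (PresentedGroup.toGroup h).comp (PresentedGroup.mk {r}) = f := by
      refine FreeGroup.ext_hom _ _ (fun i => ?_)
      exact PresentedGroup.toGroup.of h
    exact congrArg (fun g : FreeGroup α →* Q => g w) h2

/-- the first letter is deleted -/
def killa (m : ℕ) : FreeGroup (Fin (m + 1)) →* FreeGroup (Fin m) :=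
  FreeGroup.lift (Fin.cons (1 : FreeGroup (Fin m)) (fun i : Fin m => FreeGroup.of i))

/-- the first letter stays, the other letters become powers of one letter -/
def sp (m : ℕ) (c : Fin m → ℤ) : FreeGroup (Fin (m + 1)) →* FreeGroup (Fin 2) :=
  FreeGroup.lift (Fin.cons (FreeGroup.of 0 : FreeGroup (Fin 2))
    (fun i : Fin m => (FreeGroup.of 1 : FreeGroup (Fin 2)) ^ (c i)))

theorem killa_surj (m : ℕ) : Surjective (killa m) := by
  intro w
  let f : FreeGroup (Fin m) →* FreeGroup (Fin (m + 1)) := FreeGroup.map Fin.succ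
  refine ⟨f w, ?_⟩
  have h : (killa m).comp f = MonoidHom.id _ := by
    refine FreeGroup.ext_hom _ _ (fun i => ?_)
    simp [killa, f]
  exact congrArg (fun g : FreeGroup (Fin m) →* FreeGroup (Fin m) => g w) h

theorem lift_const (n : ℕ) (Q : Type) [CommGroup Q] (α : Q) (p : FreeGroup (Fin (n + 1))) :
    FreeGroup.lift (fun _ : Fin (n + 1) => α) p = α ^ (∑ i, expo n p i) := by
  let R : FreeGroup (Fin (n + 1)) →* Q :=
    { toFun := fun p => α ^ (∑ i, expo n p i)
      map_one' := by simp [expo_one]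
      map_mul' := by
        intro p r
        rw [← zpow_add, ← Finset.sum_add_distrib]
        simp only [expo_mul] }
  have h : FreeGroup.lift (fun _ : Fin (n + 1) => α) = R := by
    refine FreeGroup.ext_hom _ _ (fun i => ?_)
    rw [FreeGroup.lift_apply_of]
    show α = α ^ (∑ k, expo n (FreeGroup.of i) k)
    simp [expo_of]
  exact congrArg (fun f : FreeGroup (Fin (n + 1)) →* Q => f p) h

theorem expsum (m n : ℕ) (c : Fin m → ℤ) (p : FreeGroup (Fin (n + 1)))
    (r : FreeGroup (Fin (m + 1))) (hr : killa m r = 1)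
    (hc : IsConj (sp m c r) (FreeGroup.lift (cjg n (FreeGroup.of 0) (FreeGroup.of 1)) p))
    (Q : Type) [CommGroup Q] (f : FreeGroup (Fin (m + 1)) →* Q) :
    f r = (f (FreeGroup.of 0)) ^ (∑ i, expo n p i) := by
  let α := f (FreeGroup.of 0)
  let g : FreeGroup (Fin 2) →* Q := FreeGroup.lift (fun i : Fin 2 => if i = 0 then α else 1)
  let f2 : FreeGroup (Fin m) →* Q := FreeGroup.lift (fun i => f (FreeGroup.of i.succ))
  have h1 : f = (g.comp (sp m c)) * (f2.comp (killa m)) := by
    refine FreeGroup.ext_hom _ _ (fun i => ?_)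
    rw [MonoidHom.mul_apply, MonoidHom.comp_apply, MonoidHom.comp_apply]
    refine Fin.cases ?_ (fun i => ?_) i
    · simp [sp, killa, g, α]
    · simp [sp, killa, g, f2]
  have h2 : g (sp m c r) = g (FreeGroup.lift (cjg n (FreeGroup.of 0) (FreeGroup.of 1)) p) := by
    have := MonoidHom.map_isConj g hc
    exact isConj_iff_eq.mp this
  have h3 : g (FreeGroup.lift (cjg n (FreeGroup.of 0) (FreeGroup.of 1)) p) =
      FreeGroup.lift (fun _ : Fin (n + 1) => α) p := by
    have : g.comp (FreeGroup.lift (cjg n (FreeGroup.of 0) (FreeGroup.of 1))) =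
        FreeGroup.lift (fun _ : Fin (n + 1) => α) := by
      refine FreeGroup.ext_hom _ _ (fun i => ?_)
      simp [cjg, g]
    exact congrArg (fun u : FreeGroup (Fin (n + 1)) →* Q => u p) this
  have h4 : f r = g (sp m c r) * f2 (killa m r) :=
    congrArg (fun u : FreeGroup (Fin (m + 1)) →* Q => u r) h1
  rw [h4, hr, map_one, mul_one, h2, h3, lift_const]

end Pool.Agent.HO
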