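import Mathlib

/-!
# HO UNIPG: a free group of any finite rank and finite `q`-groups generated by elements of order `q`

A nontrivial word is a product of syllables `g_1^(e_1) ... g_m^(e_m)`, consecutive letters
different, all `e_k` nonzero. Let `q` be a prime larger than all `|e_k|`. The letter `i` is sent to
the unitriangular matrix `1 + N_i` of size `m + 1` over `ZMod q`, `N_i` the sum of the matrix units
`E_(k, k+1)` over the syllables `k` with letter `i`. `N_i * N_i = 0`, and the entry `(0, m)` of the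
image of the word is the product of the `e_k`.
-/

set_option autoImplicit false

open Matrix

namespace Pool.Agent.HO

private theorem exists_syll {n : ℕ} (w : FreeGroup (Fin n)) : ∃ L : List (Fin n × ℤ),
    (∀ p ∈ L, p.2 ≠ 0) ∧ L.IsChain (fun p p' => p.1 ≠ p'.1) ∧
      w = (L.map (fun p => FreeGroup.of p.1 ^ p.2)).prod := by
  obtain ⟨l, rfl⟩ : ∃ l, FreeGroup.mk l = w := ⟨w.toWord, FreeGroup.mk_toWord⟩
  induction l with
  | nil => exact ⟨[], by simp, by simp, rfl⟩
  | cons a l ih =>
    obtain ⟨L, hne, hch, hL⟩ := ih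
    obtain ⟨i, b⟩ := a
    obtain ⟨s, hs0, hs⟩ : ∃ s : ℤ, s ≠ 0 ∧ FreeGroup.mk [(i, b)] = FreeGroup.of i ^ s := by
      cases b with
      | true => exact ⟨1, by norm_num, by rw [zpow_one]; rfl⟩
      | false => exact ⟨-1, by norm_num, by rw [_root_.zpow_neg, zpow_one]; rfl⟩
    have hmk : FreeGroup.mk ((i, b) :: l) = FreeGroup.of i ^ s *
        (L.map (fun p => FreeGroup.of p.1 ^ p.2)).prod := by
      rw [← hs, ← hL, FreeGroup.mul_mk]
      rfl
    rw [hmk]
    cases L with
    | nil =>
      refine ⟨[(i, s)], by simpa using hs0, by simp, by simp⟩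
    | cons p T =>
      obtain ⟨j, e⟩ := p
      by_cases hij : i = j
      · subst hij
        by_cases hse : s + e = 0
        · refine ⟨T, fun p hp => hne p (List.mem_cons_of_mem _ hp), ?_, ?_⟩
          · exact (List.isChain_cons.1 hch).2
          · rw [List.map_cons, List.prod_cons, ← mul_assoc, ← _root_.zpow_add, hse, zpow_zero, one_mul]
        · refine ⟨(i, s + e) :: T, ?_, ?_, ?_⟩
          · intro p hp
            rcases List.mem_cons.1 hp with rfl | hp
            · exact hse
            · exact hne p (List.mem_cons_of_mem _ hp)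
          · rw [List.isChain_cons] at hch ⊢
            exact ⟨fun y hy => hch.1 y hy, hch.2⟩
          · rw [List.map_cons, List.prod_cons, List.map_cons, List.prod_cons, ← mul_assoc,
              ← _root_.zpow_add]
      · refine ⟨(i, s) :: (j, e) :: T, ?_, ?_, ?_⟩
        · intro p hp
          rcases List.mem_cons.1 hp with rfl | hp
          · exact hs0
          · exact hne p hp
        · rw [List.isChain_cons_cons]
          exact ⟨hij, hch⟩
        · rw [List.map_cons, List.prod_cons, List.map_cons, List.map_cons, List.prod_cons,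
            List.prod_cons]

section mat

variable {n : ℕ} (q m : ℕ) (ell : ℕ → Fin n)

/-- the nilpotent matrix of the letter `i` -/
private def Nm (i : Fin n) : Matrix (Fin (m + 1)) (Fin (m + 1)) (ZMod q) :=
  Matrix.of fun a b => if (a : ℕ) + 1 = b ∧ ell a = i then 1 else 0

private theorem Nm_apply (i : Fin n) (a b : Fin (m + 1)) : Nm q m ell i a b =
    if (a : ℕ) + 1 = b ∧ ell a = i then 1 else 0 := rfl

private theorem Nm_sq (h : ∀ k, k + 1 < m → ell k ≠ ell (k + 1)) (i : Fin n) :
    Nm q m ell i * Nm q m ell i = 0 := by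
  ext a c
  rw [Matrix.mul_apply, Matrix.zero_apply]
  refine Finset.sum_eq_zero fun b _ => ?_
  rw [Nm_apply, Nm_apply]
  by_cases h1 : (a : ℕ) + 1 = b ∧ ell a = i
  · by_cases h2 : (b : ℕ) + 1 = c ∧ ell b = i
    · exfalso
      have hc := c.2
      refine h a (by omega) ?_
      rw [h1.1, h2.2, h1.2]
    · rw [if_neg h2, mul_zero]
  · rw [if_neg h1, zero_mul]

private theorem vecMul_Nm (i : Fin n) (r : Fin (m + 1) → ZMod q) (b : Fin (m + 1)) :
    (∀ a : Fin (m + 1), (a : ℕ) + 1 = b → r a = 0 ∨ ell a ≠ i) → (r ᵥ* Nm q m ell i) b = 0 := by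
  intro h
  show ∑ a, r a * Nm q m ell i a b = 0
  refine Finset.sum_eq_zero fun a _ => ?_
  rw [Nm_apply]
  by_cases h1 : (a : ℕ) + 1 = b ∧ ell a = i
  · rcases h a h1.1 with h2 | h2
    · rw [h2, zero_mul]
    · exact absurd h1.2 h2
  · rw [if_neg h1, mul_zero]

private theorem vecMul_Nm' (i : Fin n) (r : Fin (m + 1) → ZMod q) (a b : Fin (m + 1))
    (hab : (a : ℕ) + 1 = b) (ha : ell a = i) : (r ᵥ* Nm q m ell i) b = r a := by
  show ∑ a, r a * Nm q m ell i a b = r a
  rw [Finset.sum_eq_single a]
  · rw [Nm_apply, if_pos ⟨hab, ha⟩, mul_one]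
  · intro a' _ hne
    rw [Nm_apply, if_neg, mul_zero]
    rintro ⟨h1, _⟩
    exact hne (Fin.ext (by omega))
  · intro h
    exact absurd (Finset.mem_univ a) h

private theorem key : ∀ (L : List (Fin n × ℤ)) (s : ℕ) (hs : s + L.length = m)
    (_ : ∀ k (hk : k < L.length), (L[k]).1 = ell (s + k)) (r : Fin (m + 1) → ZMod q),
    (∀ b : Fin (m + 1), s < b → r b = 0) →
    (r ᵥ* (L.map (fun p => (1 : Matrix (Fin (m + 1)) (Fin (m + 1)) (ZMod q)) +
      (p.2 : ZMod q) • Nm q m ell p.1)).prod) (Fin.last m) =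
      r ⟨s, by omega⟩ * (L.map (fun p => (p.2 : ZMod q))).prod := by
  intro L
  induction L with
  | nil =>
    intro s hs _ r _
    simp only [List.length_nil, add_zero] at hs
    subst hs
    simp only [List.map_nil, List.prod_nil, Matrix.vecMul_one, mul_one]
    rfl
  | cons p T ih =>
    intro s hs hl r hr
    rw [List.length_cons] at hs
    have h0 : p.1 = ell s := by
      have := hl 0 (by simp)
      simpa using this
    rw [List.map_cons, List.prod_cons, ← Matrix.vecMul_vecMul]
    rw [ih (s + 1) (by omega) ?_ _ ?_]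
    · rw [List.map_cons, List.prod_cons, ← mul_assoc]
      congr 1
      rw [Matrix.vecMul_add, Matrix.vecMul_one, Matrix.vecMul_smul, Pi.add_apply, Pi.smul_apply,
        smul_eq_mul, hr ⟨s + 1, by omega⟩ (by simp), zero_add,
        vecMul_Nm' q m ell p.1 r ⟨s, by omega⟩ ⟨s + 1, by omega⟩ rfl h0.symm, mul_comm]
    · intro k hk
      have := hl (k + 1) (by rw [List.length_cons]; omega)
      rw [List.getElem_cons_succ] at this
      rw [this]
      congr 1
      omega
    · intro b hb
      rw [Matrix.vecMul_add, Matrix.vecMul_one, Matrix.vecMul_smul, Pi.add_apply, Pi.smul_apply,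
        hr b (by omega), vecMul_Nm q m ell p.1 r b, smul_zero, add_zero]
      intro a ha
      exact Or.inl (hr a (by omega))

/-- the unit `1 + N_i` -/
private def um (h : ∀ k, k + 1 < m → ell k ≠ ell (k + 1)) (i : Fin n) :
    (Matrix (Fin (m + 1)) (Fin (m + 1)) (ZMod q))ˣ where
  val := 1 + Nm q m ell i
  inv := 1 - Nm q m ell i
  val_inv := by
    have := Nm_sq q m ell h i
    rw [add_mul, mul_sub, mul_sub, this]
    simp
  inv_val := by
    have := Nm_sq q m ell h i
    rw [sub_mul, mul_add, mul_add, this]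
    simp

private theorem um_zpow (h : ∀ k, k + 1 < m → ell k ≠ ell (k + 1)) (i : Fin n) (e : ℤ) :
    (((um q m ell h i) ^ e : (Matrix (Fin (m + 1)) (Fin (m + 1)) (ZMod q))ˣ) :
      Matrix (Fin (m + 1)) (Fin (m + 1)) (ZMod q)) = 1 + (e : ZMod q) • Nm q m ell i := by
  have hN := Nm_sq q m ell h i
  induction e using Int.induction_on with
  | zero => simp
  | succ n ih =>
    rw [_root_.zpow_add_one, Units.val_mul, ih]
    show (1 + ((n : ℤ) : ZMod q) • Nm q m ell i) * (1 + Nm q m ell i) = _
    rw [add_mul, mul_add, mul_add, smul_mul_assoc, smul_mul_assoc, hN]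
    simp only [one_mul, mul_one, smul_zero, add_zero]
    push_cast
    rw [add_smul, one_smul]
    abel
  | pred n ih =>
    rw [_root_.zpow_sub_one, Units.val_mul, ih]
    show (1 + ((-(n : ℤ) : ℤ) : ZMod q) • Nm q m ell i) * (1 - Nm q m ell i) = _
    rw [add_mul, mul_sub, mul_sub, smul_mul_assoc, smul_mul_assoc, hN]
    simp only [one_mul, mul_one, smul_zero, sub_zero]
    push_cast
    rw [sub_smul, one_smul]
    abel

/-- upper unitriangular matrices -/
private def Up (A : Matrix (Fin (m + 1)) (Fin (m + 1)) (ZMod q)) : Prop :=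
  ∀ i j, j ≤ i → (A - 1) i j = 0

private theorem Up_mul {A B : Matrix (Fin (m + 1)) (Fin (m + 1)) (ZMod q)} (hA : Up q m A)
    (hB : Up q m B) : Up q m (A * B) := by
  intro i j hij
  have e : A * B - 1 = (A - 1) * (B - 1) + (A - 1) + (B - 1) := by noncomm_ring
  rw [e, Matrix.add_apply, Matrix.add_apply, hA i j hij, hB i j hij, add_zero, add_zero,
    Matrix.mul_apply]
  refine Finset.sum_eq_zero fun k _ => ?_
  by_cases hk : k ≤ i
  · rw [hA i k hk, zero_mul]
  · rw [hB k j (hij.trans (le_of_not_ge hk)), mul_zero]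

private theorem Up_one : Up q m 1 := by
  intro i j _
  simp

private theorem Up_pow {A : Matrix (Fin (m + 1)) (Fin (m + 1)) (ZMod q)} (hA : Up q m A) :
    ∀ n : ℕ, Up q m (A ^ n) := by
  intro n
  induction n with
  | zero => rw [pow_zero]; exact Up_one q m
  | succ n ih => rw [pow_succ]; exact Up_mul q m ih hA

private theorem nil_pow {A : Matrix (Fin (m + 1)) (Fin (m + 1)) (ZMod q)}
    (hA : ∀ i j, j ≤ i → A i j = 0) : ∀ (k : ℕ) (i j : Fin (m + 1)), (j : ℕ) < i + k →
      (A ^ k) i j = 0 := by
  intro k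
  induction k with
  | zero =>
    intro i j hij
    rw [pow_zero, Matrix.one_apply, if_neg]
    rintro rfl
    omega
  | succ k ih =>
    intro i j hij
    rw [pow_succ, Matrix.mul_apply]
    refine Finset.sum_eq_zero fun l _ => ?_
    by_cases hl : (l : ℕ) < i + k
    · rw [ih i l hl, zero_mul]
    · rw [hA l j (by rw [Fin.le_def]; omega), mul_zero]

private theorem nil_top {A : Matrix (Fin (m + 1)) (Fin (m + 1)) (ZMod q)}
    (hA : ∀ i j, j ≤ i → A i j = 0) : A ^ (m + 1) = 0 := by
  ext i j
  rw [nil_pow q m hA (m + 1) i j (by omega)]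
  rfl

/-- the group of upper unitriangular matrices -/
private def Ug [Fact q.Prime] : Subgroup (Matrix (Fin (m + 1)) (Fin (m + 1)) (ZMod q))ˣ where
  carrier := {u | Up q m (u : Matrix (Fin (m + 1)) (Fin (m + 1)) (ZMod q))}
  one_mem' := Up_one q m
  mul_mem' := by
    intro u v hu hv
    exact Up_mul q m hu hv
  inv_mem' := by
    intro u hu
    have h1 : u * u ^ (Nat.card (Matrix (Fin (m + 1)) (Fin (m + 1)) (ZMod q))ˣ - 1) = 1 := by
      rw [← pow_succ', Nat.sub_add_cancel Nat.card_pos, pow_card_eq_one']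
    rw [← eq_inv_of_mul_eq_one_right h1]
    show Up q m _
    rw [Units.val_pow_eq_pow_val]
    exact Up_pow q m hu _

private theorem Ug_pgroup [hq : Fact q.Prime] : IsPGroup q (Ug q m) := by
  rintro ⟨u, hu⟩
  refine ⟨m + 1, ?_⟩
  apply Subtype.ext
  apply Units.ext
  show ((u ^ q ^ (m + 1) : (Matrix (Fin (m + 1)) (Fin (m + 1)) (ZMod q))ˣ) :
    Matrix (Fin (m + 1)) (Fin (m + 1)) (ZMod q)) = 1
  rw [Units.val_pow_eq_pow_val]
  have hu' : Up q m (u : Matrix (Fin (m + 1)) (Fin (m + 1)) (ZMod q)) := hu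
  have e : (u : Matrix (Fin (m + 1)) (Fin (m + 1)) (ZMod q)) =
      1 + ((u : Matrix (Fin (m + 1)) (Fin (m + 1)) (ZMod q)) - 1) := by abel
  rw [e, add_pow_char_pow_of_commute _ _ (Commute.one_left _), one_pow]
  have h1 : m + 1 ≤ q ^ (m + 1) := (Nat.lt_pow_self hq.out.one_lt).le
  obtain ⟨c, hc⟩ := Nat.exists_eq_add_of_le h1
  rw [hc, pow_add, nil_top q m hu', zero_mul, add_zero]

private theorem um_mem [Fact q.Prime] (h : ∀ k, k + 1 < m → ell k ≠ ell (k + 1)) (i : Fin n) :
    um q m ell h i ∈ Ug q m := by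
  intro a b hab
  show (1 + Nm q m ell i - 1) a b = 0
  rw [add_sub_cancel_left, Nm_apply, if_neg]
  rintro ⟨h1, _⟩
  rw [Fin.le_def] at hab
  omega

end mat

theorem exists_pgroup_gen (n : ℕ) (w : FreeGroup (Fin n)) (hw : w ≠ 1) :
    ∃ (q : ℕ) (_ : q.Prime) (H : Type) (_ : Group H) (_ : Finite H) (h : Fin n → H),
      IsPGroup q H ∧ (∀ i, h i ^ q = 1) ∧ FreeGroup.lift h w ≠ 1 := by
  obtain ⟨L, hne, hch, hL⟩ := exists_syll w
  have hLne : L ≠ [] := by
    rintro rfl
    exact hw (by rw [hL]; simp)
  obtain ⟨d, hd⟩ : ∃ d : Fin n × ℤ, d ∈ L := List.exists_mem_of_ne_nil L hLne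
  obtain ⟨B, hB⟩ : ∃ B : ℕ, ∀ p ∈ L, p.2.natAbs ≤ B := by
    clear hne hch hL hw hLne hd
    induction L with
    | nil => exact ⟨0, by simp⟩
    | cons p T ih =>
      obtain ⟨B, hB⟩ := ih
      refine ⟨max B p.2.natAbs, fun p' hp' => ?_⟩
      rcases List.mem_cons.1 hp' with rfl | hp'
      · exact le_max_right _ _
      · exact (hB p' hp').trans (le_max_left _ _)
  obtain ⟨q, hqB, hq⟩ := Nat.exists_infinite_primes (B + 1)
  have hF : Fact q.Prime := ⟨hq⟩
  set m := L.length with hm
  set ell : ℕ → Fin n := fun k => (L.getD k d).1 with hell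
  have hget : ∀ k (hk : k < L.length), (L[k]).1 = ell k := by
    intro k hk
    rw [hell]
    simp only [List.getD_eq_getElem _ _ hk]
  have h : ∀ k, k + 1 < m → ell k ≠ ell (k + 1) := by
    intro k hk
    rw [← hget k (by omega), ← hget (k + 1) (by omega)]
    exact List.isChain_iff_getElem.1 hch k (by omega)
  have hpow : ∀ i, (um q m ell h i) ^ q = 1 := by
    intro i
    apply Units.ext
    have := um_zpow q m ell h i q
    rw [zpow_natCast] at this
    rw [this]
    simp
  refine ⟨q, hq, Ug q m, inferInstance, inferInstance,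
    fun i => ⟨um q m ell h i, um_mem q m ell h i⟩, Ug_pgroup q m, ?_, ?_⟩
  · intro i
    exact Subtype.ext (hpow i)
  · intro h1
    have h2 : (Ug q m).subtype.comp (FreeGroup.lift
        (fun i : Fin n => (⟨um q m ell h i, um_mem q m ell h i⟩ : Ug q m))) =
        FreeGroup.lift (fun i : Fin n => um q m ell h i) := by
      apply FreeGroup.ext_hom
      intro i
      rw [MonoidHom.comp_apply, FreeGroup.lift_apply_of, FreeGroup.lift_apply_of]
      rfl
    have h3 : FreeGroup.lift (fun i : Fin n => um q m ell h i) w = 1 := by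
      rw [← h2, MonoidHom.comp_apply, h1, map_one]
    have h4 : ((FreeGroup.lift (fun i : Fin n => um q m ell h i) w :
        (Matrix (Fin (m + 1)) (Fin (m + 1)) (ZMod q))ˣ) :
        Matrix (Fin (m + 1)) (Fin (m + 1)) (ZMod q)) =
        (L.map (fun p => (1 : Matrix (Fin (m + 1)) (Fin (m + 1)) (ZMod q)) +
          (p.2 : ZMod q) • Nm q m ell p.1)).prod := by
      rw [hL, map_list_prod, List.map_map]
      have e : ∀ T : List (Fin n × ℤ), ((List.map
          (⇑(FreeGroup.lift (fun i : Fin n => um q m ell h i)) ∘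
            fun p : Fin n × ℤ => FreeGroup.of p.1 ^ p.2) T).prod :
          (Matrix (Fin (m + 1)) (Fin (m + 1)) (ZMod q))ˣ).val =
          (T.map (fun p => (1 : Matrix (Fin (m + 1)) (Fin (m + 1)) (ZMod q)) +
          (p.2 : ZMod q) • Nm q m ell p.1)).prod := by
        intro T
        induction T with
        | nil => simp
        | cons p T ih =>
          rw [List.map_cons, List.prod_cons, List.map_cons, List.prod_cons, Units.val_mul, ih]
          congr 1
          rw [Function.comp_apply, map_zpow, FreeGroup.lift_apply_of]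
          exact um_zpow q m ell h p.1 p.2
      exact e L
    rw [h3] at h4
    -- the row vector `e_0`
    set r : Fin (m + 1) → ZMod q := fun b => if b = 0 then 1 else 0 with hr
    have h5 := key q m ell L 0 (by omega) (fun k hk => by rw [hget k hk, zero_add]) r (by
      intro b hb
      rw [hr]
      simp only
      rw [if_neg]
      rintro rfl
      exact absurd hb (by simp))
    rw [← h4, Units.val_one, Matrix.vecMul_one] at h5
    have hmpos : 0 < m := List.length_pos_of_ne_nil hLne
    have h6 : r (Fin.last m) = 0 := by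
      rw [hr]
      simp only
      rw [if_neg]
      intro h7
      have := congrArg Fin.val h7
      rw [Fin.val_last, Fin.val_zero] at this
      omega
    have h7 : r ⟨0, by omega⟩ = 1 := by
      rw [hr]
      simp
    rw [h6, h7, one_mul] at h5
    have h8 : (0 : ZMod q) ∈ L.map (fun p => (p.2 : ZMod q)) := by
      by_contra h9
      exact (List.prod_ne_zero h9) h5.symm
    rw [List.mem_map] at h8
    obtain ⟨p, hp, hp0⟩ := h8
    rw [ZMod.intCast_zmod_eq_zero_iff_dvd] at hp0
    have h10 := Int.natAbs_dvd_natAbs.2 hp0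
    rw [Int.natAbs_natCast] at h10
    have h11 := Nat.le_of_dvd (Int.natAbs_pos.2 (hne p hp)) h10
    have h12 := hB p hp
    omega

end Pool.Agent.HO
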