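import Pool.Agent.HO.Hopf
import Pool.Agent.HO.UnipG

/-!
# HO HOPFG: the Hopf property of free groups of finite rank, and a consequence

If the image `p` of the first letter under an automorphism of the free group of rank `n + 1` becomes
trivial when the letter `j` is deleted, then the normal closure of `p` contains the letter `j`.
-/

set_option autoImplicit false

namespace Pool.Agent.HO

open Function

/-- delete the letter `j` -/
def delS (n : ℕ) (j : Fin (n + 1)) : FreeGroup (Fin (n + 1)) →* FreeGroup (Fin n) :=
  FreeGroup.lift (Fin.insertNth (α := fun _ => FreeGroup (Fin n)) j 1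
    (fun i : Fin n => FreeGroup.of i))

theorem delS_self (n : ℕ) (j : Fin (n + 1)) : delS n j (FreeGroup.of j) = 1 := by
  unfold delS
  rw [FreeGroup.lift_apply_of, Fin.insertNth_apply_same]

theorem delS_succAbove (n : ℕ) (j : Fin (n + 1)) (i : Fin n) :
    delS n j (FreeGroup.of (j.succAbove i)) = FreeGroup.of i := by
  unfold delS
  rw [FreeGroup.lift_apply_of, Fin.insertNth_apply_succAbove]

theorem delS_surjective (n : ℕ) (j : Fin (n + 1)) : Surjective (delS n j) := by
  intro w
  refine ⟨FreeGroup.map j.succAbove w, ?_⟩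
  have h1 : (delS n j).comp (FreeGroup.map j.succAbove) = MonoidHom.id _ := by
    refine FreeGroup.ext_hom _ _ (fun i => ?_)
    rw [MonoidHom.comp_apply, FreeGroup.map.of, delS_succAbove]
    rfl
  exact congrArg (fun f : FreeGroup (Fin n) →* FreeGroup (Fin n) => f w) h1

/-- the Hopf property of the free groups of finite rank -/
theorem hopf_any (n : ℕ) (e : FreeGroup (Fin n) →* FreeGroup (Fin n)) (he : Function.Surjective e)
    (w : FreeGroup (Fin n)) (hw : e w = 1) : w = 1 := by
  by_contra hne
  obtain ⟨q, hq, H, hG, hF, x, -, -, hxy⟩ := exists_pgroup_gen n w hne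
  have h1 : Surjective (fun f : FreeGroup (Fin n) →* H => f.comp e) :=
    Finite.injective_iff_surjective.1 (factor_aux (Q := H) e he)
  obtain ⟨k, hk⟩ := h1 (FreeGroup.lift x)
  apply hxy
  rw [← hk]
  show k (e w) = 1
  rw [hw, map_one]

theorem hopf_del (n : ℕ) (φ : FreeGroup (Fin (n + 1)) ≃* FreeGroup (Fin (n + 1)))
    (j : Fin (n + 1)) (h : delS n j (φ (FreeGroup.of 0)) = 1) :
    FreeGroup.of j ∈
      Subgroup.normalClosure ({φ (FreeGroup.of 0)} : Set (FreeGroup (Fin (n + 1)))) := by
  let e' : FreeGroup (Fin n) →* FreeGroup (Fin n) :=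
    FreeGroup.lift (fun i : Fin n => delS n j (φ (FreeGroup.of i.succ)))
  have h1 : (delS n j).comp φ.toMonoidHom = e'.comp (killa n) := by
    refine FreeGroup.ext_hom _ _ (fun i => ?_)
    refine Fin.cases ?_ (fun i => ?_) i
    · have h2 : killa n (FreeGroup.of 0) = 1 := by simp [killa]
      rw [MonoidHom.comp_apply, MonoidHom.comp_apply, h2, map_one]
      exact h
    · have h2 : killa n (FreeGroup.of i.succ) = FreeGroup.of i := by simp [killa]
      rw [MonoidHom.comp_apply, MonoidHom.comp_apply, h2]
      simp only [e', FreeGroup.lift_apply_of]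
      rfl
  have h1' : ∀ w, delS n j (φ w) = e' (killa n w) := fun w =>
    congrArg (fun f : FreeGroup (Fin (n + 1)) →* FreeGroup (Fin n) => f w) h1
  have he' : Surjective e' := by
    intro w
    obtain ⟨u, hu⟩ := delS_surjective n j w
    obtain ⟨v, hv⟩ := φ.surjective u
    exact ⟨killa n v, by rw [← h1', hv, hu]⟩
  have h2 : killa n (φ.symm (FreeGroup.of j)) = 1 := by
    apply hopf_any n e' he'
    rw [← h1', MulEquiv.apply_symm_apply, delS_self]
  exact mem_ncl n φ _ h2

end Pool.Agent.HO
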