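import Mathlib
import Pool.Agent.HO.Main
import Pool.Agent.HO.HopfG

set_option linter.all false
set_option autoImplicit false

/-! Central value in any rank; deletion of a letter; letters in the local group. -/

namespace Pool.Agent.HO

open Function

theorem map_lift_apply {α H L : Type} [Group H] [Group L] (φ : H →* L) (h : α → H)
    (w : FreeGroup α) : φ (FreeGroup.lift h w) = FreeGroup.lift (fun i => φ (h i)) w := by
  have e : φ.comp (FreeGroup.lift h) = FreeGroup.lift (fun i => φ (h i)) := by
    refine FreeGroup.ext_hom _ _ (fun i => ?_)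
    simp
  exact congrArg (fun f : FreeGroup α →* L => f w) e

theorem central_gen_aux (q : ℕ) (hq : q.Prime) (n : ℕ) (w : FreeGroup (Fin n)) :
    ∀ (m : ℕ) (H : Type) [Group H] [Finite H], Nat.card H = m → IsPGroup q H →
    ∀ h : Fin n → H, (∀ i, h i ^ q = 1) → FreeGroup.lift h w ≠ 1 →
    ∃ (L : Type) (_ : Group L) (_ : Finite L) (g : Fin n → L), (∀ i, g i ^ q = 1) ∧
      FreeGroup.lift g w ∈ Subgroup.center L ∧ (FreeGroup.lift g w) ^ q = 1 ∧
      FreeGroup.lift g w ≠ 1 := by
  intro m
  induction m using Nat.strong_induction_on with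
  | _ m ih =>
    intro H _ _ hm hH h hx hw
    haveI : Fact q.Prime := ⟨hq⟩
    haveI : Nontrivial H := ⟨⟨_, _, hw⟩⟩
    haveI := hH.center_nontrivial
    obtain ⟨⟨d, hdc⟩, hd1⟩ := exists_ne (1 : Subgroup.center H)
    have hd : d ≠ 1 := fun h => hd1 (Subtype.ext h)
    have hqd : q ∣ orderOf d := hH.dvd_orderOf hd
    have hod : orderOf d ≠ 0 := (orderOf_pos d).ne'
    set c := d ^ (orderOf d / q) with hc
    have hoc : orderOf c = q := orderOf_pow_orderOf_div hod hqd
    have hcc : c ∈ Subgroup.center H := Subgroup.pow_mem _ hdc _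
    by_cases hz : FreeGroup.lift h w ∈ Subgroup.zpowers c
    · refine ⟨H, inferInstance, inferInstance, h, hx, ?_, ?_, hw⟩
      · exact (Subgroup.zpowers_le.mpr hcc) hz
      · obtain ⟨k, hk⟩ := Subgroup.mem_zpowers_iff.mp hz
        rw [← hk, ← zpow_natCast, ← zpow_mul, mul_comm, zpow_mul, zpow_natCast, ← hoc,
          pow_orderOf_eq_one, one_zpow]
    · haveI hN : (Subgroup.zpowers c).Normal := by
        constructor
        intro n hn g
        have hnc : n ∈ Subgroup.center H := (Subgroup.zpowers_le.mpr hcc) hn
        have : g * n * g⁻¹ = n := by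
          rw [(Subgroup.mem_center_iff.mp hnc g), mul_assoc, mul_inv_cancel, mul_one]
        rw [this]; exact hn
      have hcard : Nat.card (H ⧸ Subgroup.zpowers c) < m := by
        rw [← hm]
        have h1 := Subgroup.card_eq_card_quotient_mul_card_subgroup (Subgroup.zpowers c)
        have h2 : Nat.card (Subgroup.zpowers c) = q := by rw [Nat.card_zpowers, hoc]
        rw [h2] at h1
        have h3 : 0 < Nat.card (H ⧸ Subgroup.zpowers c) := Nat.card_pos
        have h4 := hq.two_le
        nlinarith
      let π := QuotientGroup.mk' (Subgroup.zpowers c)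
      refine ih _ hcard (H ⧸ Subgroup.zpowers c) rfl (hH.to_quotient _) (fun i => π (h i)) ?_ ?_
      · intro i
        rw [← map_pow, hx, map_one]
      · rw [← map_lift_apply]
        intro h
        exact hz ((QuotientGroup.eq_one_iff _).mp h)

section letters

variable {L : Type} [Group L] {q : ℕ} [NeZero q] {n : ℕ}

/-- the images of the letters: first coordinate -/
def fsl (j : Fin (n + 1)) (c : L) (h : Fin n → L) : Fin (n + 1) → L :=
  Fin.insertNth (α := fun _ => L) j c h

theorem lift_fsl (j : Fin (n + 1)) (c : L) (h : Fin n → L) (hc : c ∈ Subgroup.center L)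
    (p : FreeGroup (Fin (n + 1))) :
    FreeGroup.lift (fsl j c h) p = c ^ (expo n p j) * FreeGroup.lift h (delS n j p) := by
  let R : FreeGroup (Fin (n + 1)) →* L :=
    { toFun := fun p => c ^ (expo n p j) * FreeGroup.lift h (delS n j p)
      map_one' := by simp [expo_one]
      map_mul' := by
        intro p r
        have h1 : c ^ (expo n r j) ∈ Subgroup.center L := Subgroup.zpow_mem _ hc _
        have h2 := (Subgroup.mem_center_iff.mp h1) (FreeGroup.lift h (delS n j p))
        rw [expo_mul, zpow_add, map_mul, map_mul]
        calc c ^ (expo n p j) * c ^ (expo n r j) *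
              (FreeGroup.lift h (delS n j p) * FreeGroup.lift h (delS n j r))
            = c ^ (expo n p j) * (c ^ (expo n r j) * FreeGroup.lift h (delS n j p)) *
                FreeGroup.lift h (delS n j r) := by
              simp only [mul_assoc]
          _ = c ^ (expo n p j) * (FreeGroup.lift h (delS n j p) * c ^ (expo n r j)) *
                FreeGroup.lift h (delS n j r) := by
              rw [h2]
          _ = _ := by simp only [mul_assoc] }
  have e : FreeGroup.lift (fsl j c h) = R := by
    refine FreeGroup.ext_hom _ _ (fun k => ?_)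
    show FreeGroup.lift (fsl j c h) (FreeGroup.of k) =
      c ^ (expo n (FreeGroup.of k) j) * FreeGroup.lift h (delS n j (FreeGroup.of k))
    rw [FreeGroup.lift_apply_of, expo_of, delS, FreeGroup.lift_apply_of, fsl]
    rcases Fin.eq_self_or_eq_succAbove j k with hk | ⟨i, hk⟩
    · subst hk
      rw [Fin.insertNth_apply_same, Fin.insertNth_apply_same, if_pos rfl, zpow_one, map_one, mul_one]
    · subst hk
      rw [Fin.insertNth_apply_succAbove, Fin.insertNth_apply_succAbove,
        if_neg (Fin.succAbove_ne j i), zpow_zero, one_mul, FreeGroup.lift_apply_of]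
  exact congrArg (fun f : FreeGroup (Fin (n + 1)) →* L => f p) e

/-- second coordinate -/
def sndl (q : ℕ) (j : Fin (n + 1)) (k : Fin (n + 1)) : Multiplicative (Fin (n + 1) → ZMod q) :=
  if k = j then 1 else Multiplicative.ofAdd (Pi.single k (1 : ZMod q))

theorem lift_sndl (j : Fin (n + 1)) (p : FreeGroup (Fin (n + 1))) :
    FreeGroup.lift (sndl q j) p =
      Multiplicative.ofAdd (fun k => if k = j then 0 else ((expo n p k : ℤ) : ZMod q)) := by
  let R : FreeGroup (Fin (n + 1)) →* Multiplicative (Fin (n + 1) → ZMod q) :=
    { toFun := fun p => Multiplicative.ofAdd (fun k => if k = j then 0 else ((expo n p k : ℤ) : ZMod q))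
      map_one' := by
        rw [← ofAdd_zero]
        congr 1
        funext k
        simp [expo_one]
      map_mul' := by
        intro p r
        rw [← ofAdd_add]
        congr 1
        funext k
        simp only [Pi.add_apply, expo_mul]
        split_ifs <;> simp }
  have h : FreeGroup.lift (sndl q j) = R := by
    refine FreeGroup.ext_hom _ _ (fun k => ?_)
    show FreeGroup.lift (sndl q j) (FreeGroup.of k) =
      Multiplicative.ofAdd (fun i => if i = j then 0 else ((expo n (FreeGroup.of k) i : ℤ) : ZMod q))
    rw [FreeGroup.lift_apply_of]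
    simp only [sndl, expo_of]
    by_cases hk : k = j
    · rw [if_pos hk]
      rw [← ofAdd_zero]
      congr 1
      funext i
      by_cases hi : i = j
      · simp [hi]
      · have : ¬ k = i := fun h' => hi (h'.symm.trans hk)
        simp [hi, this]
    · rw [if_neg hk]
      congr 1
      funext i
      by_cases hi : i = j
      · subst hi
        rw [Pi.single_eq_of_ne (Ne.symm hk)]; simp
      · by_cases hik : k = i
        · subst hik
          simp [hk]
        · rw [Pi.single_eq_of_ne (Ne.symm hik)]
          simp [hi, hik]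
  exact congrArg (fun f : FreeGroup (Fin (n + 1)) →* Multiplicative (Fin (n + 1) → ZMod q) => f p) h

/-- the images of the letters -/
def ltr (q : ℕ) (j : Fin (n + 1)) (c : L) (h : Fin n → L) (k : Fin (n + 1)) :
    L × Multiplicative (Fin (n + 1) → ZMod q) := (fsl j c h k, sndl q j k)

theorem lift_ltr (j : Fin (n + 1)) (c : L) (h : Fin n → L) (p : FreeGroup (Fin (n + 1))) :
    FreeGroup.lift (ltr q j c h) p = (FreeGroup.lift (fsl j c h) p, FreeGroup.lift (sndl q j) p) := by
  have e : FreeGroup.lift (ltr q j c h) =
      (FreeGroup.lift (fsl j c h)).prod (FreeGroup.lift (sndl q j)) := by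
    refine FreeGroup.ext_hom _ _ (fun k => ?_)
    simp [ltr]
  exact congrArg (fun f : FreeGroup (Fin (n + 1)) →* _ => f p) e

end letters

end Pool.Agent.HO
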