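import Mathlib
import Pool.Agent.HO.Central

set_option linter.all false
set_option autoImplicit false

/-! A nontrivial word in two letters is nontrivial in some finite q-group generated by
two elements of order dividing q (unitriangular matrices). -/

namespace Pool.Agent.HO

open Function

/-- alternating products of powers of the letters -/
def palt (b : Fin 2) : List ℤ → FreeGroup (Fin 2)
  | [] => 1
  | e :: l => (FreeGroup.of b) ^ e * palt (b + 1) l

theorem fin2_or (b c : Fin 2) : c = b ∨ c = b + 1 := by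
  fin_cases b <;> fin_cases c <;> simp

theorem fin2_add (b : Fin 2) : b + 1 + 1 = b := by
  fin_cases b <;> rfl

theorem palt_cons (c : Fin 2) (s : ℤ) (hs : s ≠ 0) (b : Fin 2) (l : List ℤ) (hl : ∀ e ∈ l, e ≠ 0) :
    ∃ (b' : Fin 2) (l' : List ℤ), (∀ e ∈ l', e ≠ 0) ∧
      (FreeGroup.of c) ^ s * palt b l = palt b' l' := by
  cases l with
  | nil =>
    refine ⟨c, [s], ?_, ?_⟩
    · intro e he; simp at he; rw [he]; exact hs
    · simp [palt]
  | cons e l =>
    have he : e ≠ 0 := hl e (by simp)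
    have hl' : ∀ e ∈ l, e ≠ 0 := fun a ha => hl a (by simp [ha])
    rcases fin2_or b c with h | h
    · subst h
      by_cases h0 : s + e = 0
      · refine ⟨c + 1, l, hl', ?_⟩
        simp only [palt]
        rw [← mul_assoc, ← zpow_add, h0, zpow_zero, one_mul]
      · refine ⟨c, (s + e) :: l, ?_, ?_⟩
        · intro a ha
          rcases List.mem_cons.mp ha with h | h
          · rw [h]; exact h0
          · exact hl' a h
        · simp only [palt]
          rw [← mul_assoc, ← zpow_add]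
    · refine ⟨c, s :: e :: l, ?_, ?_⟩
      · intro a ha
        rcases List.mem_cons.mp ha with h | h
        · rw [h]; exact hs
        · exact hl a h
      · simp only [palt]
        rw [h, fin2_add]

theorem exists_palt (w : FreeGroup (Fin 2)) :
    ∃ (b : Fin 2) (l : List ℤ), (∀ e ∈ l, e ≠ 0) ∧ w = palt b l := by
  obtain ⟨L, rfl⟩ : ∃ L, FreeGroup.mk L = w := ⟨w.toWord, FreeGroup.mk_toWord⟩
  induction L with
  | nil => exact ⟨0, [], by simp, rfl⟩
  | cons a L ih =>
    obtain ⟨b, l, hl, h⟩ := ih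
    obtain ⟨c, s⟩ := a
    have h1 : FreeGroup.mk ((c, s) :: L) = (FreeGroup.of c) ^ (if s then (1 : ℤ) else -1) * FreeGroup.mk L := by
      cases s
      · simp [FreeGroup.of, FreeGroup.inv_mk, FreeGroup.invRev, FreeGroup.mul_mk]
      · simp [FreeGroup.of, FreeGroup.mul_mk]
    rw [h1, h]
    obtain ⟨b', l', h2, h3⟩ := palt_cons c (if s then (1 : ℤ) else -1) (by cases s <;> simp) b l hl
    exact ⟨b', l', h2, h3⟩

section mat

variable {F : Type} [CommRing F] {N : ℕ}

/-- strictly upper triangular -/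
def SU (A : Matrix (Fin N) (Fin N) F) : Prop := ∀ r c : Fin N, c ≤ r → A r c = 0

theorem SU.add {A B : Matrix (Fin N) (Fin N) F} (hA : SU A) (hB : SU B) : SU (A + B) := by
  intro r c h; simp [hA r c h, hB r c h]

theorem SU.mul {A B : Matrix (Fin N) (Fin N) F} (hA : SU A) (hB : SU B) : SU (A * B) := by
  intro r c h
  rw [Matrix.mul_apply]
  refine Finset.sum_eq_zero (fun k _ => ?_)
  by_cases hk : k ≤ r
  · rw [hA r k hk, zero_mul]
  · rw [hB k c (by omega), mul_zero]

theorem SU.pow_aux {A : Matrix (Fin N) (Fin N) F} (hA : SU A) (k : ℕ) :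
    ∀ r c : Fin N, (c : ℕ) < (r : ℕ) + k → (A ^ k) r c = 0 := by
  induction k with
  | zero =>
    intro r c h
    rw [pow_zero, Matrix.one_apply_ne]
    intro h'; rw [h'] at h; omega
  | succ k ih =>
    intro r c h
    rw [pow_succ, Matrix.mul_apply]
    refine Finset.sum_eq_zero (fun m _ => ?_)
    by_cases hm : (m : ℕ) < r + k
    · rw [ih r m hm, zero_mul]
    · rw [hA m c (by rw [Fin.le_def]; omega), mul_zero]

theorem SU.nilp {A : Matrix (Fin N) (Fin N) F} (hA : SU A) (k : ℕ) (hk : N ≤ k) : A ^ k = 0 := by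
  ext r c
  rw [hA.pow_aux k r c (by have := c.isLt; omega)]
  rfl

end mat

section grp

variable {q N : ℕ}

theorem unip_pow [Fact q.Prime] (g : Matrix (Fin N) (Fin N) (ZMod q)) (h : SU (g - 1)) (hN : 0 < N) :
    g ^ (q ^ N) = 1 := by
  haveI : CharP (Matrix (Fin N) (Fin N) (ZMod q)) q := by
    haveI : Nonempty (Fin N) := ⟨⟨0, hN⟩⟩
    infer_instance
  have hq : q.Prime := Fact.out
  have h1 : (g - 1) ^ (q ^ N) = 0 := h.nilp _ (Nat.lt_pow_self hq.one_lt).le
  have h2 : (g - 1) ^ (q ^ N) = g ^ (q ^ N) - 1 ^ (q ^ N) :=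
    sub_pow_char_pow_of_commute (p := q) N (Commute.one_right g)
  rw [h1, one_pow] at h2
  exact (sub_eq_zero.mp h2.symm)

/-- the group of upper unitriangular matrices -/
def UT (q N : ℕ) [Fact q.Prime] (hN : 0 < N) : Subgroup (Matrix (Fin N) (Fin N) (ZMod q))ˣ where
  carrier := {g | SU ((g : Matrix (Fin N) (Fin N) (ZMod q)) - 1)}
  one_mem' := by
    show SU _
    intro r c _; simp
  mul_mem' := by
    intro g h hg hh
    show SU _
    have e : ((g * h : (Matrix (Fin N) (Fin N) (ZMod q))ˣ) : Matrix (Fin N) (Fin N) (ZMod q)) - 1 =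
      ((g : Matrix (Fin N) (Fin N) (ZMod q)) - 1) * ((h : Matrix (Fin N) (Fin N) (ZMod q)) - 1) +
      (((g : Matrix (Fin N) (Fin N) (ZMod q)) - 1) + ((h : Matrix (Fin N) (Fin N) (ZMod q)) - 1)) := by
      rw [Units.val_mul]; noncomm_ring
    rw [e]
    exact (SU.mul hg hh).add (SU.add hg hh)
  inv_mem' := by
    intro g hg
    have hq : q.Prime := Fact.out
    have hpow : ∀ k : ℕ, SU (((g ^ k : (Matrix (Fin N) (Fin N) (ZMod q))ˣ) : Matrix (Fin N) (Fin N) (ZMod q)) - 1) := by
      intro k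
      induction k with
      | zero => intro r c _; simp
      | succ k ih =>
        have e : ((g ^ (k + 1) : (Matrix (Fin N) (Fin N) (ZMod q))ˣ) : Matrix (Fin N) (Fin N) (ZMod q)) - 1 =
          (((g ^ k : (Matrix (Fin N) (Fin N) (ZMod q))ˣ) : Matrix (Fin N) (Fin N) (ZMod q)) - 1) * ((g : Matrix (Fin N) (Fin N) (ZMod q)) - 1) +
          ((((g ^ k : (Matrix (Fin N) (Fin N) (ZMod q))ˣ) : Matrix (Fin N) (Fin N) (ZMod q)) - 1) + ((g : Matrix (Fin N) (Fin N) (ZMod q)) - 1)) := by
          rw [pow_succ, Units.val_mul]; noncomm_ring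
        rw [e]
        exact (SU.mul ih hg).add (SU.add ih hg)
    have h1 : g ^ (q ^ N) = 1 := by
      ext1
      rw [Units.val_pow_eq_pow_val, Units.val_one]
      exact unip_pow _ hg hN
    have h2 : g⁻¹ = g ^ (q ^ N - 1) := by
      rw [inv_eq_iff_mul_eq_one, ← pow_succ', Nat.sub_add_cancel (Nat.one_le_pow _ _ hq.pos), h1]
    rw [h2]
    exact hpow _

theorem UT_pgroup (q N : ℕ) [Fact q.Prime] (hN : 0 < N) : IsPGroup q (UT q N hN) := by
  rw [isPGroup_iff_pow_pow_eq_one]
  rintro ⟨g, hg⟩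
  refine ⟨N, ?_⟩
  ext1
  ext1
  rw [SubmonoidClass.coe_pow, Units.val_pow_eq_pow_val]
  exact unip_pow _ hg hN

/-- superdiagonal units at the places of given parity -/
def Nb (q N : ℕ) (b : ℕ) : Matrix (Fin N) (Fin N) (ZMod q) :=
  fun r c => if (c : ℕ) = r + 1 ∧ (r : ℕ) % 2 = b % 2 then 1 else 0

theorem Nb_sq (q N b : ℕ) : Nb q N b * Nb q N b = 0 := by
  ext r c
  rw [Matrix.mul_apply]
  refine Finset.sum_eq_zero (fun k _ => ?_)
  simp only [Nb]
  by_cases h1 : (k : ℕ) = r + 1 ∧ (r : ℕ) % 2 = b % 2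
  · rw [if_neg (show ¬ ((c : ℕ) = k + 1 ∧ (k : ℕ) % 2 = b % 2) by omega), mul_zero]
  · rw [if_neg h1, zero_mul]

/-- the one-parameter group of Nb -/
def ug (q N b : ℕ) : Multiplicative ℤ →* (Matrix (Fin N) (Fin N) (ZMod q))ˣ where
  toFun e :=
    { val := 1 + (Multiplicative.toAdd e) • Nb q N b
      inv := 1 - (Multiplicative.toAdd e) • Nb q N b
      val_inv := by
        have := Nb_sq q N b
        rw [add_mul, mul_sub, mul_sub, smul_mul_smul_comm, this]; simp
      inv_val := by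
        have := Nb_sq q N b
        rw [sub_mul, mul_add, mul_add, smul_mul_smul_comm, this]; simp }
  map_one' := by ext1; simp
  map_mul' a b' := by
    ext1
    have := Nb_sq q N b
    simp only [toAdd_mul, Units.val_mul]
    rw [add_mul, mul_add, mul_add, smul_mul_smul_comm, this]
    simp [add_smul]
    abel

theorem ug_val (q N b : ℕ) (e : ℤ) :
    ((ug q N b (Multiplicative.ofAdd e) : (Matrix (Fin N) (Fin N) (ZMod q))ˣ) :
      Matrix (Fin N) (Fin N) (ZMod q)) = 1 + e • Nb q N b := rfl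

theorem ug_mem [Fact q.Prime] (hN : 0 < N) (b : ℕ) (e : Multiplicative ℤ) : ug q N b e ∈ UT q N hN := by
  show SU _
  obtain ⟨e, rfl⟩ := Multiplicative.ofAdd.surjective e
  rw [ug_val]
  intro r c h
  have h1 : (c : ℕ) ≤ r := h
  simp only [add_sub_cancel_left, Matrix.smul_apply, Nb]
  rw [if_neg (by omega), smul_zero]

/-- the path product -/
def qp (q N : ℕ) : ℕ → List ℤ → Matrix (Fin N) (Fin N) (ZMod q)
  | _, [] => 1
  | s, e :: l => (1 + e • Nb q N s) * qp q N (s + 1) l

theorem qp_entry (q N : ℕ) (hN : 0 < N) : ∀ (l : List ℤ) (s : ℕ)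
    (P : Matrix (Fin N) (Fin N) (ZMod q)) (r0 : Fin N) (hs : s + l.length < N)
    (hP : ∀ c : Fin N, s < (c : ℕ) → P r0 c = 0),
    (P * qp q N s l) r0 ⟨s + l.length, hs⟩ =
      P r0 ⟨s, by omega⟩ * ((l.prod : ℤ) : ZMod q) := by
  intro l
  induction l with
  | nil =>
    intro s P r0 hs hP
    simp [qp]
  | cons e l ih =>
    intro s P r0 hs hP
    simp only [qp]
    rw [← mul_assoc]
    have hlen : s + (e :: l).length = (s + 1) + l.length := by simp; omega
    have hs' : (s + 1) + l.length < N := by omega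
    have hval : ∀ c : Fin N, (P * (1 + e • Nb q N s)) r0 c =
        P r0 c + (e : ZMod q) * ∑ k, P r0 k * Nb q N s k c := by
      intro c
      rw [mul_add, mul_one, Matrix.add_apply, mul_smul_comm, Matrix.smul_apply, Matrix.mul_apply,
        zsmul_eq_mul]
    have h1 : ∀ c : Fin N, s + 1 < (c : ℕ) → (P * (1 + e • Nb q N s)) r0 c = 0 := by
      intro c hc
      rw [hval, hP c (by omega), zero_add, Finset.sum_eq_zero, mul_zero]
      intro k _
      simp only [Nb]
      by_cases h : (c : ℕ) = k + 1 ∧ (k : ℕ) % 2 = s % 2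
      · rw [hP k (by omega), zero_mul]
      · rw [if_neg h, mul_zero]
    have h2 := ih (s + 1) (P * (1 + e • Nb q N s)) r0 hs' h1
    have e1 : (⟨s + (e :: l).length, hs⟩ : Fin N) = ⟨(s + 1) + l.length, hs'⟩ := by
      ext; exact hlen
    rw [e1, h2, hval, hP ⟨s + 1, by omega⟩ (by simp), zero_add,
      Finset.sum_eq_single (⟨s, by omega⟩ : Fin N)]
    · simp only [Nb]
      rw [if_pos (by simp), mul_one, List.prod_cons]
      push_cast
      ring
    · intro k _ hk
      simp only [Nb]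
      rw [if_neg, mul_zero]
      intro h
      apply hk
      ext
      simp
      have := h.1
      simp at this
      omega
    · simp

theorem exists_pgroup (w : FreeGroup (Fin 2)) (hw : w ≠ 1) : ∃ q : ℕ, q.Prime ∧
    ∃ (H : Type) (_ : Group H) (_ : Finite H) (x y : H), IsPGroup q H ∧ x ^ q = 1 ∧ y ^ q = 1 ∧
      lf x y w ≠ 1 := by
  obtain ⟨b, l, hl, rfl⟩ := exists_palt w
  have hprod : l.prod ≠ 0 := by
    intro h
    rw [List.prod_eq_zero_iff] at h
    exact hl 0 h rfl
  obtain ⟨q, hq1, hq⟩ := Nat.exists_infinite_primes (l.prod.natAbs + 1)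
  haveI : Fact q.Prime := ⟨hq⟩
  have hne : ((l.prod : ℤ) : ZMod q) ≠ 0 := by
    intro h
    rw [ZMod.intCast_zmod_eq_zero_iff_dvd] at h
    have h2 : q ∣ l.prod.natAbs := Int.natCast_dvd.mp h
    have h3 := Nat.le_of_dvd (Int.natAbs_pos.mpr hprod) h2
    omega
  have hlen : 0 < l.length := by
    rcases Nat.eq_zero_or_pos l.length with h | h
    · rw [List.length_eq_zero_iff] at h
      subst h
      exact absurd rfl hw
    · exact h
  set N := l.length + 1 with hN
  have hN0 : 0 < N := by omega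
  let u : ℕ → Multiplicative ℤ →* UT q N hN0 := fun k => (ug q N k).codRestrict _ (ug_mem hN0 k)
  let g : Fin 2 → UT q N hN0 := fun i => u ((i - b : Fin 2) : ℕ) (Multiplicative.ofAdd 1)
  have hgq : ∀ i, g i ^ q = 1 := by
    intro i
    show (u ((i - b : Fin 2) : ℕ) (Multiplicative.ofAdd 1)) ^ q = 1
    rw [← map_pow]
    ext1
    ext1
    show ((ug q N ((i - b : Fin 2) : ℕ) (Multiplicative.ofAdd ((1 : ℤ)) ^ q) : (Matrix (Fin N) (Fin N) (ZMod q))ˣ) : Matrix (Fin N) (Fin N) (ZMod q)) = 1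
    rw [← ofAdd_nsmul, ug_val]
    ext r c
    simp
  refine ⟨q, hq, UT q N hN0, inferInstance, inferInstance, g 0, g 1, UT_pgroup q N hN0, hgq 0, hgq 1, ?_⟩
  have hlf : ∀ w, lf (g 0) (g 1) w = FreeGroup.lift g w := by
    intro w
    have : lf (g 0) (g 1) = FreeGroup.lift g := by
      refine FreeGroup.ext_hom _ _ (fun i => ?_)
      simp only [lf, FreeGroup.lift_apply_of]
      fin_cases i <;> simp
    rw [this]
  rw [hlf]
  have key : ∀ (l : List ℤ) (s : ℕ) (c : Fin 2), ((c - b : Fin 2) : ℕ) = s % 2 →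
      (((FreeGroup.lift g (palt c l) : UT q N hN0) : (Matrix (Fin N) (Fin N) (ZMod q))ˣ) :
        Matrix (Fin N) (Fin N) (ZMod q)) = qp q N s l := by
    intro l
    induction l with
    | nil => intro s c _; simp [palt, qp]
    | cons e l ih =>
      intro s c hc
      have h1 : ((c + 1 - b : Fin 2) : ℕ) = (s + 1) % 2 := by
        have : ∀ (b c : Fin 2) (s : ℕ), ((c - b : Fin 2) : ℕ) = s % 2 → ((c + 1 - b : Fin 2) : ℕ) = (s + 1) % 2 := by
          intro b c s h
          fin_cases b <;> fin_cases c <;> simp at h ⊢ <;> omega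
        exact this b c s hc
      have h2 := ih (s + 1) (c + 1) h1
      simp only [palt, qp, map_mul, map_zpow, FreeGroup.lift_apply_of]
      rw [Subgroup.coe_mul, Units.val_mul, h2]
      congr 1
      show (((u ((c - b : Fin 2) : ℕ) (Multiplicative.ofAdd 1)) ^ e : UT q N hN0) : (Matrix (Fin N) (Fin N) (ZMod q))ˣ).val = _
      rw [← map_zpow]
      show ((ug q N ((c - b : Fin 2) : ℕ) (Multiplicative.ofAdd (1 : ℤ) ^ e) : (Matrix (Fin N) (Fin N) (ZMod q))ˣ) : Matrix (Fin N) (Fin N) (ZMod q)) = _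
      rw [← ofAdd_zsmul, ug_val, hc]
      have h3 : Nb q N (s % 2) = Nb q N s := by
        ext r c; simp [Nb]
      rw [h3]; simp
  intro h1
  have h2 := key l 0 b (by simp)
  rw [h1] at h2
  have h3 := qp_entry q N hN0 l 0 1 ⟨0, hN0⟩ (by omega) (by
    intro c hc
    rw [Matrix.one_apply_ne]
    intro h'; rw [← h'] at hc; simp at hc)
  rw [one_mul, ← h2] at h3
  have h4 : ((1 : Matrix (Fin N) (Fin N) (ZMod q))) ⟨0, hN0⟩ ⟨0 + l.length, by omega⟩ = 0 := by
    rw [Matrix.one_apply_ne]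
    intro h'
    have := congrArg Fin.val h'
    simp at this
    omega
  have h5 : ((1 : Matrix (Fin N) (Fin N) (ZMod q))) ⟨0, hN0⟩ ⟨0, by omega⟩ = 1 := Matrix.one_apply_eq _
  rw [h5, one_mul] at h3
  apply hne
  rw [← h3]
  exact h4

end grp

end Pool.Agent.HO
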