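import Mathlib
import Pool.Agent.HO.Int
import Pool.Agent.HO.Unip

set_option linter.all false
set_option autoImplicit false

/-! A word with nontrivial ends survives in a finite group. -/

namespace Pool.Agent.HO

open Function

theorem lf_ends {H : Type} [Group H] (n : ℕ) (x y : H) (p : FreeGroup (Fin (n + 1))) :
    lf x y (ends n p) = FreeGroup.lift (fun k : Fin (n + 1) =>
      if k = 0 then x else if k = Fin.last n then y else 1) p := by
  have h : (lf x y).comp (FreeGroup.lift (fun k : Fin (n + 1) =>
    if k = 0 then FreeGroup.of 0 else if k = Fin.last n then FreeGroup.of 1 else 1)) =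
      FreeGroup.lift (fun k : Fin (n + 1) =>
      if k = 0 then x else if k = Fin.last n then y else 1) := by
    refine FreeGroup.ext_hom _ _ (fun k => ?_)
    rw [MonoidHom.comp_apply, FreeGroup.lift_apply_of, FreeGroup.lift_apply_of]
    split_ifs <;> simp [lf]
  exact congrArg (fun f : FreeGroup (Fin (n + 1)) →* H => f p) h

/-- the shift -/
def shf (N : ℕ) (H : Type) : Equiv.Perm (ZMod N × H) where
  toFun u := (u.1 + 1, u.2)
  invFun u := (u.1 - 1, u.2)
  left_inv u := by simp
  right_inv u := by simp

theorem shf_pow (N : ℕ) (H : Type) (i : ℕ) (u : ZMod N × H) :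
    ((shf N H) ^ i) u = (u.1 + i, u.2) := by
  induction i with
  | zero => simp
  | succ i ih =>
    rw [pow_succ', Equiv.Perm.mul_apply, ih]
    simp [shf, add_assoc]

theorem shf_pow_inv (N : ℕ) (H : Type) (i : ℕ) (u : ZMod N × H) :
    (((shf N H) ^ i)⁻¹) u = (u.1 - i, u.2) := by
  rw [Equiv.Perm.inv_eq_iff_eq, shf_pow]
  simp

/-- multiplication by a letter which depends on the first coordinate -/
def act (N : ℕ) (H : Type) [Group H] (A : ZMod N → H) : Equiv.Perm (ZMod N × H) where
  toFun u := (u.1, A (-u.1) * u.2)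
  invFun u := (u.1, (A (-u.1))⁻¹ * u.2)
  left_inv u := by simp
  right_inv u := by simp

theorem survives (n : ℕ) (hn : 0 < n) (p : FreeGroup (Fin (n + 1))) (hp : ends n p ≠ 1) :
    ∃ (Q : Type) (_ : Group Q) (_ : Finite Q) (a t : Q),
      FreeGroup.lift (cjg n a t) p ≠ 1 := by
  obtain ⟨q, hq, H, hG, hF, x, y, -, -, -, hw⟩ := exists_pgroup (ends n p) hp
  let A : ZMod (n + 1) → H := fun k => if k = 0 then x else if k = (n : ZMod (n + 1)) then y else 1
  let a := act (n + 1) H A
  let t := shf (n + 1) H
  refine ⟨Equiv.Perm (ZMod (n + 1) × H), inferInstance, inferInstance, a, t, ?_⟩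
  have h1 : ∀ i : Fin (n + 1), ∀ h : H, cjg n a t i (0, h) = (0, A ((i : ℕ) : ZMod (n + 1)) * h) := by
    intro i h
    simp only [cjg, Equiv.Perm.mul_apply]
    rw [shf_pow_inv]
    show (t ^ (i : ℕ)) (act (n + 1) H A _) = _
    simp only [act, Equiv.coe_fn_mk]
    rw [shf_pow]
    simp
  have h2 : ∀ r : FreeGroup (Fin (n + 1)), ∀ h : H, (FreeGroup.lift (cjg n a t) r) (0, h) =
      (0, FreeGroup.lift (fun i : Fin (n + 1) => A ((i : ℕ) : ZMod (n + 1))) r * h) := by
    intro r
    induction r using FreeGroup.induction_on with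
    | C1 => intro h; simp
    | of i => intro h; simpa using h1 i h
    | inv_of i ih =>
      intro h
      rw [map_inv, map_inv, Equiv.Perm.inv_eq_iff_eq, ih]
      simp
    | mul r s hr hs =>
      intro h
      rw [map_mul, map_mul, Equiv.Perm.mul_apply, hs, hr, mul_assoc]
  have h3 : (fun i : Fin (n + 1) => A ((i : ℕ) : ZMod (n + 1))) = (fun k : Fin (n + 1) =>
      if k = 0 then x else if k = Fin.last n then y else 1) := by
    funext i
    have e1 : (((i : ℕ) : ZMod (n + 1)) = 0) ↔ i = 0 := by
      rw [ZMod.natCast_eq_zero_iff]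
      constructor
      · intro h
        ext
        exact Nat.eq_zero_of_dvd_of_lt h i.isLt
      · intro h; simp [h]
    have e2 : (((i : ℕ) : ZMod (n + 1)) = (n : ZMod (n + 1))) ↔ i = Fin.last n := by
      rw [ZMod.natCast_eq_natCast_iff]
      constructor
      · intro h
        ext
        have h' : (i : ℕ) % (n + 1) = n % (n + 1) := h
        rw [Nat.mod_eq_of_lt i.isLt, Nat.mod_eq_of_lt (by omega)] at h'
        simpa using h'
      · intro h; rw [h, Fin.val_last]
    simp only [A, e1, e2]
  intro h4
  have h5 := h2 p 1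
  rw [h4, h3, ← lf_ends] at h5
  have h6 := congrArg Prod.snd h5
  simp at h6
  exact hw h6.symm

end Pool.Agent.HO
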