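import Pool.Agent.HO.HopfG

/-!
# HO HOPFH: the Hopf argument for arbitrary finite alphabets
-/

set_option autoImplicit false

namespace Pool.Agent.HO

open Function

theorem hopf_surj (n : ℕ) (φ : FreeGroup (Fin (n + 1)) ≃* FreeGroup (Fin (n + 1)))
    (e : FreeGroup (Fin (n + 1)) →* FreeGroup (Fin n)) (he : Surjective e)
    (h : e (φ (FreeGroup.of 0)) = 1) (w : FreeGroup (Fin (n + 1))) (hw : e w = 1) :
    w ∈ Subgroup.normalClosure ({φ (FreeGroup.of 0)} : Set (FreeGroup (Fin (n + 1)))) := by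
  let e' : FreeGroup (Fin n) →* FreeGroup (Fin n) :=
    FreeGroup.lift (fun i : Fin n => e (φ (FreeGroup.of i.succ)))
  have h1 : e.comp φ.toMonoidHom = e'.comp (killa n) := by
    refine FreeGroup.ext_hom _ _ (fun i => ?_)
    refine Fin.cases ?_ (fun i => ?_) i
    · have h2 : killa n (FreeGroup.of 0) = 1 := by simp [killa]
      rw [MonoidHom.comp_apply, MonoidHom.comp_apply, h2, map_one]
      exact h
    · have h2 : killa n (FreeGroup.of i.succ) = FreeGroup.of i := by simp [killa]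
      rw [MonoidHom.comp_apply, MonoidHom.comp_apply, h2]
      simp only [e', FreeGroup.lift_apply_of]
      rfl
  have h1' : ∀ w, e (φ w) = e' (killa n w) := fun w =>
    congrArg (fun f : FreeGroup (Fin (n + 1)) →* FreeGroup (Fin n) => f w) h1
  have he' : Surjective e' := by
    intro w
    obtain ⟨u, hu⟩ := he w
    obtain ⟨v, hv⟩ := φ.surjective u
    exact ⟨killa n v, by rw [← h1', hv, hu]⟩
  have h2 : killa n (φ.symm w) = 1 := by
    apply hopf_any n e' he'
    rw [← h1', MulEquiv.apply_symm_apply, hw]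
  exact mem_ncl n φ _ h2

theorem hopf_fin {X Y : Type} [Finite X] [Finite Y] (hcard : Nat.card X = Nat.card Y + 1)
    (φ : FreeGroup X ≃* FreeGroup X) (x0 : X) (e : FreeGroup X →* FreeGroup Y)
    (he : Function.Surjective e) (h : e (φ (FreeGroup.of x0)) = 1) (w : FreeGroup X)
    (hw : e w = 1) :
    w ∈ Subgroup.normalClosure ({φ (FreeGroup.of x0)} : Set (FreeGroup X)) := by
  classical
  obtain ⟨α, hα⟩ : ∃ α : X ≃ Fin (Nat.card Y + 1), α x0 = 0 := by
    let α0 : X ≃ Fin (Nat.card Y + 1) := Finite.equivFinOfCardEq hcard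
    refine ⟨α0.trans (Equiv.swap (α0 x0) 0), ?_⟩
    rw [Equiv.trans_apply, Equiv.swap_apply_left]
  obtain ⟨A, hA⟩ : ∃ A : FreeGroup X ≃* FreeGroup (Fin (Nat.card Y + 1)),
      ∀ z, A z = FreeGroup.map α z := ⟨FreeGroup.freeGroupCongr α, fun _ => rfl⟩
  obtain ⟨B⟩ : Nonempty (FreeGroup Y ≃* FreeGroup (Fin (Nat.card Y))) :=
    ⟨FreeGroup.freeGroupCongr (Finite.equivFin Y)⟩
  have hA0 : A.symm (FreeGroup.of 0) = FreeGroup.of x0 := by
    rw [MulEquiv.symm_apply_eq, hA, FreeGroup.map.of, hα]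
  let φ' : FreeGroup (Fin (Nat.card Y + 1)) ≃* FreeGroup (Fin (Nat.card Y + 1)) :=
    (A.symm.trans φ).trans A
  have hφ' : φ' (FreeGroup.of 0) = A (φ (FreeGroup.of x0)) := by
    show A (φ (A.symm (FreeGroup.of 0))) = _
    rw [hA0]
  let e1 : FreeGroup (Fin (Nat.card Y + 1)) →* FreeGroup (Fin (Nat.card Y)) :=
    (B.toMonoidHom.comp e).comp A.symm.toMonoidHom
  have he1 : ∀ z, e1 (A z) = B (e z) := by
    intro z
    show B (e (A.symm (A z))) = _
    rw [MulEquiv.symm_apply_apply]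
  have hs : Surjective e1 := by
    intro y
    obtain ⟨y', rfl⟩ := B.surjective y
    obtain ⟨z, rfl⟩ := he y'
    exact ⟨A z, he1 z⟩
  have h1 : e1 (φ' (FreeGroup.of 0)) = 1 := by
    rw [hφ', he1, h, map_one]
  have h2 : e1 (A w) = 1 := by rw [he1, hw, map_one]
  have h3 := hopf_surj (Nat.card Y) φ' e1 hs h1 (A w) h2
  rw [hφ'] at h3
  have h4 : A.symm (A w) ∈ (Subgroup.normalClosure ({A (φ (FreeGroup.of x0))} :
      Set (FreeGroup (Fin (Nat.card Y + 1))))).map A.symm.toMonoidHom :=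
    Subgroup.mem_map_of_mem A.symm.toMonoidHom h3
  rw [MulEquiv.symm_apply_apply, Subgroup.map_normalClosure _ _ A.symm.surjective,
    Set.image_singleton] at h4
  have h5 : A.symm.toMonoidHom (A (φ (FreeGroup.of x0))) = φ (FreeGroup.of x0) :=
    A.symm_apply_apply _
  rw [h5] at h4
  exact h4

theorem exists_pgroup_any {X : Type} [Finite X] (w : FreeGroup X) (hw : w ≠ 1) :
    ∃ (q : ℕ) (_ : q.Prime) (H : Type) (_ : Group H) (_ : Finite H) (h : X → H),
      IsPGroup q H ∧ (∀ i, h i ^ q = 1) ∧ FreeGroup.lift h w ≠ 1 := by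
  let γ : X ≃ Fin (Nat.card X) := Finite.equivFin X
  have hne : FreeGroup.map γ w ≠ 1 := by
    intro h0
    apply hw
    have h1 : FreeGroup.freeGroupCongr γ w = 1 := h0
    exact (MulEquiv.map_eq_one_iff _).1 h1
  obtain ⟨q, hq, H, hG, hF, x, hp, hx, hxw⟩ := exists_pgroup_gen _ _ hne
  refine ⟨q, hq, H, hG, hF, fun i => x (γ i), hp, fun i => hx _, ?_⟩
  have h2 : FreeGroup.lift (fun i => x (γ i)) = (FreeGroup.lift x).comp (FreeGroup.map γ) := by
    refine FreeGroup.ext_hom _ _ (fun i => ?_)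
    rw [MonoidHom.comp_apply, FreeGroup.map.of, FreeGroup.lift_apply_of, FreeGroup.lift_apply_of]
  rw [h2]
  exact hxw

end Pool.Agent.HO
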