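import Mathlib
import Pool.Agent.HO.HopfH
import Pool.Agent.HO.Int

set_option linter.all false
set_option autoImplicit false

/-! Extra letters: central values, letters in the local group. -/

namespace Pool.Agent.HO

open Function

theorem map_lift_any {α H L : Type} [Group H] [Group L] (φ : H →* L) (h : α → H)
    (w : FreeGroup α) : φ (FreeGroup.lift h w) = FreeGroup.lift (fun i => φ (h i)) w := by
  have e : φ.comp (FreeGroup.lift h) = FreeGroup.lift (fun i => φ (h i)) := by
    refine FreeGroup.ext_hom _ _ (fun i => ?_)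
    simp
  exact congrArg (fun f : FreeGroup α →* L => f w) e

theorem central_any_aux (q : ℕ) (hq : q.Prime) {α : Type} (w : FreeGroup α) :
    ∀ (m : ℕ) (H : Type) [Group H] [Finite H], Nat.card H = m → IsPGroup q H →
    ∀ h : α → H, (∀ i, h i ^ q = 1) → FreeGroup.lift h w ≠ 1 →
    ∃ (L : Type) (_ : Group L) (_ : Finite L) (g : α → L), (∀ i, g i ^ q = 1) ∧
      FreeGroup.lift g w ∈ Subgroup.center L ∧ (FreeGroup.lift g w) ^ q = 1 ∧
      FreeGroup.lift g w ≠ 1 := by
  intro m
  induction m using Nat.strong_induction_on with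
  | _ m ih =>
    intro H _ _ hm hH h hx hw
    haveI : Fact q.Prime := ⟨hq⟩
    haveI : Nontrivial H := ⟨⟨_, _, hw⟩⟩
    haveI := hH.center_nontrivial
    obtain ⟨⟨d, hdc⟩, hd1⟩ := exists_ne (1 : Subgroup.center H)
    have hd : d ≠ 1 := fun h => hd1 (Subtype.ext h)
    have hqd : q ∣ orderOf d := hH.dvd_orderOf hd
    have hod : orderOf d ≠ 0 := (orderOf_pos d).ne'
    set c := d ^ (orderOf d / q) with hc
    have hoc : orderOf c = q := orderOf_pow_orderOf_div hod hqd
    have hcc : c ∈ Subgroup.center H := Subgroup.pow_mem _ hdc _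
    by_cases hz : FreeGroup.lift h w ∈ Subgroup.zpowers c
    · refine ⟨H, inferInstance, inferInstance, h, hx, ?_, ?_, hw⟩
      · exact (Subgroup.zpowers_le.mpr hcc) hz
      · obtain ⟨k, hk⟩ := Subgroup.mem_zpowers_iff.mp hz
        rw [← hk, ← zpow_natCast, ← zpow_mul, mul_comm, zpow_mul, zpow_natCast, ← hoc,
          pow_orderOf_eq_one, one_zpow]
    · haveI hN : (Subgroup.zpowers c).Normal := by
        constructor
        intro n hn g
        have hnc : n ∈ Subgroup.center H := (Subgroup.zpowers_le.mpr hcc) hn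
        have : g * n * g⁻¹ = n := by
          rw [(Subgroup.mem_center_iff.mp hnc g), mul_assoc, mul_inv_cancel, mul_one]
        rw [this]; exact hn
      have hcard : Nat.card (H ⧸ Subgroup.zpowers c) < m := by
        rw [← hm]
        have h1 := Subgroup.card_eq_card_quotient_mul_card_subgroup (Subgroup.zpowers c)
        have h2 : Nat.card (Subgroup.zpowers c) = q := by rw [Nat.card_zpowers, hoc]
        rw [h2] at h1
        have h3 : 0 < Nat.card (H ⧸ Subgroup.zpowers c) := Nat.card_pos
        have h4 := hq.two_le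
        nlinarith
      let π := QuotientGroup.mk' (Subgroup.zpowers c)
      refine ih _ hcard (H ⧸ Subgroup.zpowers c) rfl (hH.to_quotient _) (fun i => π (h i)) ?_ ?_
      · intro i
        rw [← map_pow, hx, map_one]
      · rw [← map_lift_any]
        intro h
        exact hz ((QuotientGroup.eq_one_iff _).mp h)

theorem central_any {α : Type} [Finite α] (w : FreeGroup α) (hw : w ≠ 1) :
    ∃ (q : ℕ) (_ : q.Prime) (L : Type) (_ : Group L) (_ : Finite L) (g : α → L),
      (∀ i, g i ^ q = 1) ∧ FreeGroup.lift g w ∈ Subgroup.center L ∧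
      (FreeGroup.lift g w) ^ q = 1 ∧ FreeGroup.lift g w ≠ 1 := by
  obtain ⟨q, hq, H, _, _, h, hH, hh, hw'⟩ := exists_pgroup_any w hw
  obtain ⟨L, i1, i2, g, h1, h2, h3, h4⟩ := central_any_aux q hq w (Nat.card H) H rfl hH h hh hw'
  exact ⟨q, hq, L, i1, i2, g, h1, h2, h3, h4⟩

/-- p with the extra letters deleted -/
def base (n k : ℕ) : FreeGroup (Fin (n + 1) ⊕ Fin k) →* FreeGroup (Fin (n + 1)) :=
  FreeGroup.lift (Sum.elim FreeGroup.of (fun _ => 1))

/-- p with the letters a_i deleted -/
def kill (n k : ℕ) : FreeGroup (Fin (n + 1) ⊕ Fin k) →* FreeGroup (Fin k) :=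
  FreeGroup.lift (Sum.elim (fun _ => 1) FreeGroup.of)

/-- p with the inner letters a_1, .., a_(n-1) deleted -/
def outer (n k : ℕ) : FreeGroup (Fin (n + 1) ⊕ Fin k) →* FreeGroup (Fin 2 ⊕ Fin k) :=
  FreeGroup.lift (Sum.elim (fun i : Fin (n + 1) => if i = 0 then FreeGroup.of (Sum.inl 0) else
    if i = Fin.last n then FreeGroup.of (Sum.inl 1) else 1) (fun l => FreeGroup.of (Sum.inr l)))

/-- exponent of the letter a_i -/
def ex (n k : ℕ) (p : FreeGroup (Fin (n + 1) ⊕ Fin k)) (i : Fin (n + 1)) : ℤ := expo n (base n k p) i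

theorem ex_one (n k : ℕ) (i : Fin (n + 1)) : ex n k 1 i = 0 := by simp [ex, expo_one]

theorem ex_mul (n k : ℕ) (p r : FreeGroup (Fin (n + 1) ⊕ Fin k)) (i : Fin (n + 1)) :
    ex n k (p * r) i = ex n k p i + ex n k r i := by simp [ex, expo_mul]

section letters

variable {L : Type} [Group L] {q : ℕ} [NeZero q] {n k : ℕ}

/-- a general evaluation in L: letter a_j goes to the central element c, the others to h -/
theorem lift_central (j : Fin (n + 1)) (c : L) (hc : c ∈ Subgroup.center L)
    (h : Fin (n + 1) ⊕ Fin k → L) (hj : h (Sum.inl j) = 1)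
    (p : FreeGroup (Fin (n + 1) ⊕ Fin k)) :
    FreeGroup.lift (fun x => if x = Sum.inl j then c else h x) p =
      c ^ (ex n k p j) * FreeGroup.lift h p := by
  let R : FreeGroup (Fin (n + 1) ⊕ Fin k) →* L :=
    { toFun := fun p => c ^ (ex n k p j) * FreeGroup.lift h p
      map_one' := by simp [ex_one]
      map_mul' := by
        intro p r
        have h1 : c ^ (ex n k r j) ∈ Subgroup.center L := Subgroup.zpow_mem _ hc _
        have h2 := (Subgroup.mem_center_iff.mp h1) (FreeGroup.lift h p)
        rw [ex_mul, zpow_add, map_mul]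
        calc c ^ (ex n k p j) * c ^ (ex n k r j) * (FreeGroup.lift h p * FreeGroup.lift h r)
            = c ^ (ex n k p j) * (c ^ (ex n k r j) * FreeGroup.lift h p) * FreeGroup.lift h r := by
              simp only [mul_assoc]
          _ = c ^ (ex n k p j) * (FreeGroup.lift h p * c ^ (ex n k r j)) * FreeGroup.lift h r := by
              rw [h2]
          _ = _ := by simp only [mul_assoc] }
  have e : FreeGroup.lift (fun x => if x = Sum.inl j then c else h x) = R := by
    refine FreeGroup.ext_hom _ _ (fun x => ?_)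
    show FreeGroup.lift (fun x => if x = Sum.inl j then c else h x) (FreeGroup.of x) =
      c ^ (ex n k (FreeGroup.of x) j) * FreeGroup.lift h (FreeGroup.of x)
    rw [FreeGroup.lift_apply_of, FreeGroup.lift_apply_of, ex, base, FreeGroup.lift_apply_of]
    rcases x with i | l
    · rw [Sum.elim_inl, expo_of]
      by_cases hi : i = j
      · subst hi; rw [if_pos rfl, if_pos rfl, hj, zpow_one, mul_one]
      · rw [if_neg (fun h' => hi (Sum.inl_injective h')), if_neg hi, zpow_zero, one_mul]
    · rw [Sum.elim_inr, expo_one, if_neg (by simp), zpow_zero, one_mul]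
  exact congrArg (fun f : FreeGroup (Fin (n + 1) ⊕ Fin k) →* L => f p) e

/-- the abelian coordinates -/
def abl (q : ℕ) {n k : ℕ} (j : Fin (n + 1)) : Fin (n + 1) ⊕ Fin k →
    Multiplicative (Fin (n + 1) → ZMod q) :=
  Sum.elim (fun i => if i = j then 1 else Multiplicative.ofAdd (Pi.single i (1 : ZMod q)))
    (fun _ => 1)

theorem lift_abl (j : Fin (n + 1)) (p : FreeGroup (Fin (n + 1) ⊕ Fin k)) (ε : ℤ)
    (he : ∀ i, ex n k p i = if i = j then ε else 0) : FreeGroup.lift (abl q j) p = 1 := by
  let R : FreeGroup (Fin (n + 1) ⊕ Fin k) →* Multiplicative (Fin (n + 1) → ZMod q) :=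
    { toFun := fun p => Multiplicative.ofAdd (fun i => if i = j then 0 else ((ex n k p i : ℤ) : ZMod q))
      map_one' := by
        rw [← ofAdd_zero]
        congr 1
        funext k
        simp [ex_one]
      map_mul' := by
        intro p r
        rw [← ofAdd_add]
        congr 1
        funext k
        simp only [Pi.add_apply, ex_mul]
        split_ifs <;> simp }
  have h : FreeGroup.lift (abl q j) = R := by
    refine FreeGroup.ext_hom _ _ (fun x => ?_)
    show FreeGroup.lift (abl q j) (FreeGroup.of x) =
      Multiplicative.ofAdd (fun i => if i = j then 0 else ((ex n k (FreeGroup.of x) i : ℤ) : ZMod q))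
    rw [FreeGroup.lift_apply_of]
    rcases x with l | l
    · simp only [abl, Sum.elim_inl, ex, base, FreeGroup.lift_apply_of, expo_of]
      by_cases hk : l = j
      · rw [if_pos hk, ← ofAdd_zero]
        congr 1
        funext i
        by_cases hi : i = j
        · simp [hi]
        · have : ¬ l = i := fun h' => hi (h'.symm.trans hk)
          simp [hi, this]
      · rw [if_neg hk]
        congr 1
        funext i
        by_cases hi : i = j
        · subst hi
          rw [Pi.single_eq_of_ne (Ne.symm hk)]; simp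
        · by_cases hik : l = i
          · subst hik
            simp [hk]
          · rw [Pi.single_eq_of_ne (Ne.symm hik)]
            simp [hi, hik]
    · simp only [abl, Sum.elim_inr, ex, base, FreeGroup.lift_apply_of, expo_one]
      rw [← ofAdd_zero]
      congr 1
      funext i
      simp
  have h2 : FreeGroup.lift (abl q j) p = R p :=
    congrArg (fun f : FreeGroup (Fin (n + 1) ⊕ Fin k) →* Multiplicative (Fin (n + 1) → ZMod q) => f p) h
  rw [h2]
  show Multiplicative.ofAdd (fun i => if i = j then 0 else ((ex n k p i : ℤ) : ZMod q)) = 1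
  have e0 : (fun i => if i = j then 0 else ((ex n k p i : ℤ) : ZMod q)) =
      (0 : Fin (n + 1) → ZMod q) := by
    funext i
    by_cases hk : i = j
    · simp [hk]
    · simp [hk, he i]
  rw [e0, ofAdd_zero]

end letters

/-- the images of the letters of p for given a, t and extra elements s -/
def cjs {Q : Type} [Group Q] (n k : ℕ) (a t : Q) (s : Fin k → Q) : Fin (n + 1) ⊕ Fin k → Q :=
  Sum.elim (cjg n a t) s

end Pool.Agent.HO
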