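import Mathlib
import Pool.Agent.HO.CentG
import Pool.Agent.HO.Conj

set_option linter.all false
set_option autoImplicit false

/-! The construction for a word in a letter and its conjugates by the stable letters and their
inverses. -/

namespace Pool.Agent.HO

open Function

/-- two elements of order q become conjugate -/
theorem conj1 {K : Type} [Group K] [Finite K] (q : ℕ) (hq : q.Prime) (u v : K) (hu : u ^ q = 1)
    (hu1 : u ≠ 1) (hv : v ^ q = 1) (hv1 : v ≠ 1) :
    ∃ τ : Equiv.Perm K, τ * rho K u * τ⁻¹ = rho K v := by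
  haveI : Fact q.Prime := ⟨hq⟩
  haveI : NeZero q := ⟨hq.ne_zero⟩
  haveI : Fact (1 < q) := ⟨hq.one_lt⟩
  have hf : Injective (pw u hu) := by
    rw [injective_iff_map_eq_one]
    intro k hk
    obtain ⟨k, rfl⟩ := Multiplicative.ofAdd.surjective k
    rw [pw_inj u hu hu1 k hk]; rfl
  have hg : Injective (pw v hv) := by
    rw [injective_iff_map_eq_one]
    intro k hk
    obtain ⟨k, rfl⟩ := Multiplicative.ofAdd.surjective k
    rw [pw_inj v hv hv1 k hk]; rfl
  obtain ⟨τ, hτ⟩ := conj_perm (pw u hu) (pw v hv) hf hg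
  refine ⟨τ, ?_⟩
  have := hτ (Multiplicative.ofAdd 1)
  rwa [pw_one, pw_one] at this

/-- u, c independent and c, v independent, c central -/
theorem conj2 {K : Type} [Group K] [Finite K] (q : ℕ) (hq : q.Prime) [NeZero q] (u c v : K)
    (hu : u ^ q = 1) (hc : c ^ q = 1) (hv : v ^ q = 1) (hcc : c ∈ Subgroup.center K)
    (h1 : ∀ α β : ZMod q, pw u hu (Multiplicative.ofAdd α) * pw c hc (Multiplicative.ofAdd β) = 1 →
      α = 0 ∧ β = 0)
    (h2 : ∀ α β : ZMod q, pw v hv (Multiplicative.ofAdd α) * pw c hc (Multiplicative.ofAdd β) = 1 →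
      α = 0 ∧ β = 0) :
    ∃ τ : Equiv.Perm K, τ * rho K u * τ⁻¹ = rho K c ∧ τ * rho K c * τ⁻¹ = rho K v := by
  haveI : Fact q.Prime := ⟨hq⟩
  haveI : Fact (1 < q) := ⟨hq.one_lt⟩
  have hcu : ∀ m n, Commute (pw u hu m) (pw c hc n) := fun m n =>
    (pw_comm u hu c hcc n (pw u hu m) hc).symm
  have hcv : ∀ m n, Commute (pw c hc m) (pw v hv n) := fun m n =>
    pw_comm u hu c hcc m (pw v hv n) hc
  let f := MonoidHom.noncommCoprod (pw u hu) (pw c hc) hcu
  let g := MonoidHom.noncommCoprod (pw c hc) (pw v hv) hcv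
  have hf : Injective f := by
    rw [injective_iff_map_eq_one]
    rintro ⟨α, β⟩ h
    obtain ⟨α, rfl⟩ := Multiplicative.ofAdd.surjective α
    obtain ⟨β, rfl⟩ := Multiplicative.ofAdd.surjective β
    obtain ⟨e1, e2⟩ := h1 α β h
    rw [e1, e2]; rfl
  have hg : Injective g := by
    rw [injective_iff_map_eq_one]
    rintro ⟨β, α⟩ h
    obtain ⟨α, rfl⟩ := Multiplicative.ofAdd.surjective α
    obtain ⟨β, rfl⟩ := Multiplicative.ofAdd.surjective β
    have h' : pw c hc (Multiplicative.ofAdd β) * pw v hv (Multiplicative.ofAdd α) = 1 := h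
    rw [(hcv _ _).eq] at h'
    obtain ⟨e1, e2⟩ := h2 α β h'
    rw [e1, e2]; rfl
  obtain ⟨τ, hτ⟩ := conj_perm f g hf hg
  refine ⟨τ, ?_, ?_⟩
  · have := hτ (Multiplicative.ofAdd 1, 1)
    have e1 : f (Multiplicative.ofAdd 1, 1) = u := by
      show pw u hu (Multiplicative.ofAdd 1) * pw c hc 1 = u
      rw [pw_one, map_one, mul_one]
    have e2 : g (Multiplicative.ofAdd 1, 1) = c := by
      show pw c hc (Multiplicative.ofAdd 1) * pw v hv 1 = c
      rw [pw_one, map_one, mul_one]
    rwa [e1, e2] at this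
  · have := hτ (1, Multiplicative.ofAdd 1)
    have e1 : f (1, Multiplicative.ofAdd 1) = c := by
      show pw u hu 1 * pw c hc (Multiplicative.ofAdd 1) = c
      rw [pw_one, map_one, one_mul]
    have e2 : g (1, Multiplicative.ofAdd 1) = v := by
      show pw c hc 1 * pw v hv (Multiplicative.ofAdd 1) = v
      rw [pw_one, map_one, one_mul]
    rwa [e1, e2] at this

/-- the letter 0 is sent to a, the letter i + 1 to the conjugate of a by t or its inverse, where
t is the stable letter number g i -/
def cst {Q : Type} [Group Q] (m n : ℕ) (g : Fin n → Fin m) (b : Fin n → Bool) (a : Q)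
    (t : Fin m → Q) : Fin (n + 1) → Q :=
  Fin.cons a (fun i => if b i then t (g i) * a * (t (g i))⁻¹ else (t (g i))⁻¹ * a * t (g i))

theorem star_quot (m n : ℕ) (g : Fin n → Fin m) (b : Fin n → Bool)
    (hinj : Injective (fun i => (g i, b i))) (p : FreeGroup (Fin (n + 1))) (j : Fin (n + 1))
    (hj : j = 0 ∨ Injective g) (ε : ℤ) (hε : ε * ε = 1)
    (he : ∀ i, expo n p i = if i = j then ε else 0) (hp : delS n j p ≠ 1) :
    ∃ (Q : Type) (_ : Group Q) (_ : Finite Q) (a : Q) (t : Fin m → Q),
      FreeGroup.lift (cst m n g b a t) p = 1 ∧ a ≠ 1 := by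
  obtain ⟨q, hq, H, _, _, h0, hH, hh0, hw0⟩ := exists_pgroup_gen n (delS n j p) hp
  obtain ⟨L, _, _, h, hh, hz, hzq, hz1⟩ :=
    central_gen_aux q hq n (delS n j p) (Nat.card H) H rfl hH h0 hh0 hw0
  haveI : Fact q.Prime := ⟨hq⟩
  haveI : NeZero q := ⟨hq.ne_zero⟩
  haveI : Fact (1 < q) := ⟨hq.one_lt⟩
  set z := FreeGroup.lift h (delS n j p) with hzdef
  let c : L := z ^ (-ε)
  have hc : c ∈ Subgroup.center L := Subgroup.zpow_mem _ hz _
  have hcq : c ^ q = 1 := by
    show (z ^ (-ε)) ^ q = 1
    rw [← zpow_natCast, ← zpow_mul, mul_comm, zpow_mul, zpow_natCast, hzq, one_zpow]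
  have hcε : c ^ ε = z⁻¹ := by
    show (z ^ (-ε)) ^ ε = z⁻¹
    rw [← zpow_mul, neg_mul, hε, zpow_neg, zpow_one]
  have hc1 : c ≠ 1 := by
    intro h
    rw [h, one_zpow] at hcε
    exact hz1 (inv_eq_one.mp hcε.symm)
  let K := L × Multiplicative (Fin (n + 1) → ZMod q)
  haveI : Finite K := inferInstance
  let A : Fin (n + 1) → K := ltr q j c h
  have hAj : A j = (c, 1) := by
    show (fsl j c h j, sndl q j j) = (c, 1)
    rw [fsl, Fin.insertNth_apply_same, sndl, if_pos rfl]
  have hA2 : ∀ k, k ≠ j → (A k).2 = Multiplicative.ofAdd (Pi.single k (1 : ZMod q)) := by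
    intro k hk
    show sndl q j k = _
    rw [sndl, if_neg hk]
  have hAne : ∀ k, A k ≠ 1 := by
    intro k hk
    by_cases h1 : k = j
    · subst h1
      rw [hAj] at hk
      exact hc1 (congrArg Prod.fst hk)
    · have h2 := hA2 k h1
      rw [hk] at h2
      have h3 := congrArg (fun w : Multiplicative (Fin (n + 1) → ZMod q) =>
        Multiplicative.toAdd w k) h2
      simp only [toAdd_ofAdd, Pi.single_eq_same] at h3
      exact zero_ne_one h3
  have hAq : ∀ k, A k ^ q = 1 := by
    intro k
    refine Prod.ext ?_ ?_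
    · show (fsl j c h k) ^ q = 1
      rw [fsl]
      rcases Fin.eq_self_or_eq_succAbove j k with hk | ⟨i, hk⟩
      · subst hk; rw [Fin.insertNth_apply_same]; exact hcq
      · subst hk; rw [Fin.insertNth_apply_succAbove]; exact hh i
    · show (A k).2 ^ q = 1
      obtain ⟨v, hv⟩ := Multiplicative.ofAdd.surjective (A k).2
      rw [← hv, ← ofAdd_nsmul, ← ofAdd_zero]
      congr 1
      funext i
      simp
  have hpA : FreeGroup.lift A p = 1 := by
    show FreeGroup.lift (ltr q j c h) p = 1
    rw [lift_ltr, lift_fsl j c h hc, lift_sndl, he j, if_pos rfl, hcε]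
    refine Prod.ext ?_ ?_
    · exact inv_mul_cancel _
    · show Multiplicative.ofAdd (fun k => if k = j then 0 else ((expo n p k : ℤ) : ZMod q)) =
        (1 : Multiplicative (Fin (n + 1) → ZMod q))
      have e0 : (fun k => if k = j then 0 else ((expo n p k : ℤ) : ZMod q)) =
          (0 : Fin (n + 1) → ZMod q) := by
        funext k
        by_cases hk : k = j
        · simp [hk]
        · simp [hk, he k]
      rw [e0, ofAdd_zero]
  -- the stable letters
  have hst : ∀ l : Fin m, ∃ τ : Equiv.Perm K, ∀ i, g i = l →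
      ((b i = true → τ * rho K (A 0) * τ⁻¹ = rho K (A i.succ)) ∧
       (b i = false → τ * rho K (A i.succ) * τ⁻¹ = rho K (A 0))) := by
    intro l
    by_cases hT : ∃ i, g i = l ∧ b i = true
    · obtain ⟨i, hi, hbi⟩ := hT
      by_cases hF : ∃ i', g i' = l ∧ b i' = false
      · obtain ⟨i', hi', hbi'⟩ := hF
        have hne : i ≠ i' := by
          intro h; rw [h, hbi'] at hbi; exact Bool.noConfusion hbi
        have hj0 : j = 0 := by
          rcases hj with h | h
          · exact h
          · exact absurd (h (hi.trans hi'.symm)) hne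
        have hA0 : A 0 = (c, 1) := by rw [← hj0]; exact hAj
        have hcen : A 0 ∈ Subgroup.center K := by
          rw [Subgroup.mem_center_iff]
          intro x
          rw [hA0]
          refine Prod.ext ?_ ?_
          · exact (Subgroup.mem_center_iff.mp hc) x.1
          · exact mul_comm _ _
        have hind : ∀ k : Fin (n + 1), k ≠ j → ∀ α β : ZMod q,
            pw (A k) (hAq k) (Multiplicative.ofAdd α) * pw (A 0) (hAq 0) (Multiplicative.ofAdd β) = 1 →
            α = 0 ∧ β = 0 := by
          intro k hk α β hab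
          have h2 := congrArg (fun w : K => Multiplicative.toAdd w.2 k) hab
          have e1 : (pw (A k) (hAq k) (Multiplicative.ofAdd α)) = (A k) ^ (ZMod.val α) := rfl
          have e2 : (pw (A 0) (hAq 0) (Multiplicative.ofAdd β)) = (A 0) ^ (ZMod.val β) := rfl
          have h3 : (Multiplicative.toAdd ((A k) ^ (ZMod.val α) * (A 0) ^ (ZMod.val β)).2 k : ZMod q) = α := by
            rw [Prod.snd_mul, Prod.pow_snd, Prod.pow_snd, hA2 k hk, hA0]
            simp
          have hα : α = 0 := by
            rw [← h3, ← e1, ← e2, hab]; rfl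
          refine ⟨hα, ?_⟩
          rw [hα, ofAdd_zero, map_one, one_mul] at hab
          exact pw_inj (A 0) (hAq 0) (hAne 0) β hab
        have hs : ∀ i : Fin n, i.succ ≠ j := by
          intro i; rw [hj0]; exact Fin.succ_ne_zero i
        obtain ⟨τ, h1, h2⟩ := conj2 q hq (A i'.succ) (A 0) (A i.succ) (hAq _) (hAq _) (hAq _) hcen
          (hind _ (hs _)) (hind _ (hs _))
        refine ⟨τ, ?_⟩
        intro k hk
        constructor
        · intro hb
          have : k = i := hinj (by simp [hk, hi, hb, hbi])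
          rw [this]; exact h2
        · intro hb
          have : k = i' := hinj (by simp [hk, hi', hb, hbi'])
          rw [this]; exact h1
      · obtain ⟨τ, h1⟩ := conj1 q hq (A 0) (A i.succ) (hAq _) (hAne _) (hAq _) (hAne _)
        refine ⟨τ, ?_⟩
        intro k hk
        constructor
        · intro hb
          have : k = i := hinj (by simp [hk, hi, hb, hbi])
          rw [this]; exact h1
        · intro hb
          exact absurd ⟨k, hk, hb⟩ hF
    · by_cases hF : ∃ i', g i' = l ∧ b i' = false
      · obtain ⟨i', hi', hbi'⟩ := hF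
        obtain ⟨τ, h1⟩ := conj1 q hq (A i'.succ) (A 0) (hAq _) (hAne _) (hAq _) (hAne _)
        refine ⟨τ, ?_⟩
        intro k hk
        constructor
        · intro hb
          exact absurd ⟨k, hk, hb⟩ hT
        · intro hb
          have : k = i' := hinj (by simp [hk, hi', hb, hbi'])
          rw [this]; exact h1
      · refine ⟨1, ?_⟩
        intro k hk
        exact ⟨fun hb => absurd ⟨k, hk, hb⟩ hT, fun hb => absurd ⟨k, hk, hb⟩ hF⟩
  choose τ hτ using hst
  refine ⟨Equiv.Perm K, inferInstance, inferInstance, rho K (A 0), τ, ?_, ?_⟩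
  · have h1 : FreeGroup.lift (cst m n g b (rho K (A 0)) τ) = (rho K).comp (FreeGroup.lift A) := by
      refine FreeGroup.ext_hom _ _ (fun k => ?_)
      rw [FreeGroup.lift_apply_of, MonoidHom.comp_apply, FreeGroup.lift_apply_of]
      refine Fin.cases ?_ (fun i => ?_) k
      · simp [cst]
      · simp only [cst, Fin.cons_succ]
        obtain ⟨e1, e2⟩ := hτ (g i) i rfl
        cases hb : b i with
        | true =>
          rw [if_pos rfl]
          exact e1 hb
        | false =>
          rw [if_neg (by decide), ← e2 hb]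
          group
    rw [h1, MonoidHom.comp_apply, hpA, map_one]
  · intro h
    apply hAne 0
    apply rho_inj K
    rw [h, map_one]

end Pool.Agent.HO
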