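import Mathlib
import Pool.Agent.HO.ExtA
import Pool.Agent.HO.StarA

set_option linter.all false
set_option autoImplicit false

/-! Extra letters: the finite quotients. -/

namespace Pool.Agent.HO

open Function

/-- the shift becomes conjugation by a permutation -/
theorem shift_perm (n : ℕ) (j : Fin (n + 1)) (hj0 : j ≠ 0) (hjn : j ≠ Fin.last n) (q : ℕ)
    (hq : q.Prime) (L : Type) [Group L] [Finite L] [NeZero q] (x y c : L) (hx : x ^ q = 1)
    (hy : y ^ q = 1) (hc : c ∈ Subgroup.center L) (hcq : c ^ q = 1) (hc1 : c ≠ 1) :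
    ∃ τ : Equiv.Perm (L × Multiplicative (Fin (n + 1) → ZMod q)), ∀ i : ℕ, ∀ hi : i < n + 1,
      τ ^ i * rho _ (lett (q := q) n j x y c 0) * (τ ^ i)⁻¹ =
        rho _ (lett (q := q) n j x y c ⟨i, hi⟩) := by
  haveI : Fact q.Prime := ⟨hq⟩
  haveI : Fact (1 < q) := ⟨hq.one_lt⟩
  let K := L × Multiplicative (Fin (n + 1) → ZMod q)
  haveI : Finite K := inferInstance
  have hjv : (j : ℕ) < n := by
    have h1 := j.isLt
    rcases Nat.lt_or_ge (j : ℕ) n with h | h
    · exact h
    · exfalso; apply hjn; ext; simp; omega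
  have hjp : 0 < (j : ℕ) := by
    rcases Nat.eq_zero_or_pos (j : ℕ) with h | h
    · exfalso; apply hj0; ext; simpa using h
    · exact h
  have hn : 0 < n := by omega
  let i0 : Fin n := ⟨0, hn⟩
  let ij : Fin n := ⟨j, hjv⟩
  let k0 : Fin n := ⟨n - 1, by omega⟩
  let kj : Fin n := ⟨(j : ℕ) - 1, by omega⟩
  let f : Multiplicative (Fin n → ZMod q) →* K :=
    emb Fin.castSucc j i0 ij x c hx hcq hc
  let g : Multiplicative (Fin n → ZMod q) →* K :=
    emb Fin.succ j k0 kj y c hy hcq hc
  have hij : Fin.castSucc ij = j := by ext; simp [ij]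
  have hi0 : Fin.castSucc i0 ≠ j := by
    intro h
    have := congrArg Fin.val h
    simp [i0] at this
    omega
  have hkj : Fin.succ kj = j := by
    ext; simp [kj]; omega
  have hk0 : Fin.succ k0 ≠ j := by
    intro h
    have := congrArg Fin.val h
    simp [k0] at this
    omega
  have hf : Injective f := emb_inj _ (Fin.castSucc_injective n) _ _ _ _ _ _ _ _ hij hi0 hc1
  have hg : Injective g := emb_inj _ (Fin.succ_injective n) _ _ _ _ _ _ _ _ hkj hk0 hc1
  let A : Fin (n + 1) → K := lett n j x y c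
  have hfA : ∀ i : Fin n, f (Multiplicative.ofAdd (Pi.single i 1)) = A i.castSucc := by
    intro i
    rw [emb_single _ (Fin.castSucc_injective n) _ _ _ _ _ _ _ _ hij hi0]
    show _ = lett n j x y c i.castSucc
    simp only [lett]
    by_cases h : i.castSucc = j
    · rw [if_pos h, if_pos h]
    · rw [if_neg h, if_neg h]
      have h1 : i.castSucc ≠ Fin.last n := (Fin.castSucc_lt_last i).ne
      have h2 : i.castSucc = 0 ↔ i = i0 := by
        constructor
        · intro h'
          ext
          have := congrArg Fin.val h'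
          simpa [i0] using this
        · intro h'
          ext
          rw [h']; simp [i0]
      by_cases h3 : i = i0
      · rw [if_pos h3, if_pos (h2.mpr h3)]
      · rw [if_neg h3, if_neg (fun h' => h3 (h2.mp h')), if_neg h1]
  have hgA : ∀ i : Fin n, g (Multiplicative.ofAdd (Pi.single i 1)) = A i.succ := by
    intro i
    rw [emb_single _ (Fin.succ_injective n) _ _ _ _ _ _ _ _ hkj hk0]
    show _ = lett n j x y c i.succ
    simp only [lett]
    by_cases h : i.succ = j
    · rw [if_pos h, if_pos h]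
    · rw [if_neg h, if_neg h]
      have h1 : i.succ ≠ 0 := Fin.succ_ne_zero i
      have h2 : i.succ = Fin.last n ↔ i = k0 := by
        constructor
        · intro h'
          ext
          have := congrArg Fin.val h'
          simp at this
          simp [k0]; omega
        · intro h'
          ext
          rw [h']
          show n - 1 + 1 = n
          omega
      rw [if_neg h1]
      by_cases h3 : i = k0
      · rw [if_pos h3, if_pos (h2.mpr h3)]
      · rw [if_neg h3, if_neg (fun h' => h3 (h2.mp h'))]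
  obtain ⟨τ, hτ⟩ := conj_perm f g hf hg
  refine ⟨τ, ?_⟩
  intro i
  induction i with
  | zero => intro hi; simp
  | succ i ih =>
    intro hi
    have h1 := ih (by omega)
    have h2 := hτ (Multiplicative.ofAdd (Pi.single ⟨i, by omega⟩ 1))
    rw [hfA, hgA] at h2
    have e1 : (Fin.castSucc (⟨i, by omega⟩ : Fin n)) = (⟨i, by omega⟩ : Fin (n + 1)) := rfl
    have e2 : (Fin.succ (⟨i, by omega⟩ : Fin n)) = (⟨i + 1, hi⟩ : Fin (n + 1)) := rfl
    rw [e1, e2] at h2
    rw [← h2]
    show τ ^ (i + 1) * rho K (A 0) * (τ ^ (i + 1))⁻¹ = τ * rho K (A ⟨i, _⟩) * τ⁻¹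
    rw [← h1, pow_succ']
    simp only [mul_inv_rev, mul_assoc]
    rfl

theorem inner_quot (n k : ℕ) (p : FreeGroup (Fin (n + 1) ⊕ Fin k)) (j : Fin (n + 1))
    (hj0 : j ≠ 0) (hjn : j ≠ Fin.last n) (ε : ℤ) (hε : ε * ε = 1)
    (he : ∀ i, ex n k p i = if i = j then ε else 0) (hp : outer n k p ≠ 1) :
    ∃ (Q : Type) (_ : Group Q) (_ : Finite Q) (a t : Q) (s : Fin k → Q),
      FreeGroup.lift (cjs n k a t s) p = 1 ∧ a ≠ 1 := by
  obtain ⟨q, hq, L, _, _, g, hg, hz, hzq, hz1⟩ := central_any (outer n k p) hp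
  haveI : Fact q.Prime := ⟨hq⟩
  haveI : NeZero q := ⟨hq.ne_zero⟩
  haveI : Fact (1 < q) := ⟨hq.one_lt⟩
  set z := FreeGroup.lift g (outer n k p) with hzdef
  let c : L := z ^ (-ε)
  have hc : c ∈ Subgroup.center L := Subgroup.zpow_mem _ hz _
  have hcq : c ^ q = 1 := by
    show (z ^ (-ε)) ^ q = 1
    rw [← zpow_natCast, ← zpow_mul, mul_comm, zpow_mul, zpow_natCast, hzq, one_zpow]
  have hcε : c ^ ε = z⁻¹ := by
    show (z ^ (-ε)) ^ ε = z⁻¹
    rw [← zpow_mul, neg_mul, hε, zpow_neg, zpow_one]
  have hc1 : c ≠ 1 := by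
    intro h
    rw [h, one_zpow] at hcε
    exact hz1 (inv_eq_one.mp hcε.symm)
  let x := g (Sum.inl 0)
  let y := g (Sum.inl 1)
  obtain ⟨τ, hτ⟩ := shift_perm n j hj0 hjn q hq L x y c (hg _) (hg _) hc hcq hc1
  let K := L × Multiplicative (Fin (n + 1) → ZMod q)
  haveI : Finite K := inferInstance
  let h : Fin (n + 1) ⊕ Fin k → L := Sum.elim (fun i => if i = 0 then x else
    if i = Fin.last n then y else 1) (fun l => g (Sum.inr l))
  have hhj : h (Sum.inl j) = 1 := by
    show (if j = 0 then x else if j = Fin.last n then y else 1) = 1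
    rw [if_neg hj0, if_neg hjn]
  have hhz : FreeGroup.lift h p = z := by
    have e : (FreeGroup.lift g).comp (outer n k) = FreeGroup.lift h := by
      refine FreeGroup.ext_hom _ _ (fun w => ?_)
      rw [MonoidHom.comp_apply, outer, FreeGroup.lift_apply_of, FreeGroup.lift_apply_of]
      rcases w with i | l
      · simp only [Sum.elim_inl, h]
        split_ifs <;> simp [x, y]
      · simp only [Sum.elim_inr, h, FreeGroup.lift_apply_of]
    exact (congrArg (fun f : FreeGroup (Fin (n + 1) ⊕ Fin k) →* L => f p) e).symm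
  let B : Fin (n + 1) ⊕ Fin k → K := fun w => (if w = Sum.inl j then c else h w, abl q j w)
  have hB : ∀ i, B (Sum.inl i) = lett (q := q) n j x y c i := by
    intro i
    by_cases hi : i = j
    · subst hi
      simp [B, lett, abl]
    · have : ¬ (Sum.inl i : Fin (n + 1) ⊕ Fin k) = Sum.inl j := fun h' => hi (Sum.inl_injective h')
      simp only [B, lett, abl, if_neg hi, if_neg this, h, Sum.elim_inl]
  have hBp : FreeGroup.lift B p = 1 := by
    have e : FreeGroup.lift B = (FreeGroup.lift (fun w => if w = Sum.inl j then c else h w)).prod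
        (FreeGroup.lift (abl q j)) := by
      refine FreeGroup.ext_hom _ _ (fun w => ?_)
      rw [MonoidHom.prod_apply, FreeGroup.lift_apply_of, FreeGroup.lift_apply_of,
        FreeGroup.lift_apply_of]
    rw [e, MonoidHom.prod_apply, lift_central j c hc h hhj, lift_abl j p ε he, he j, if_pos rfl,
      hcε, hhz, inv_mul_cancel]
    rfl
  refine ⟨Equiv.Perm K, inferInstance, inferInstance, rho K (B (Sum.inl 0)), τ,
    fun l => rho K (B (Sum.inr l)), ?_, ?_⟩
  · have h1 : FreeGroup.lift (cjs n k (rho K (B (Sum.inl 0))) τ (fun l => rho K (B (Sum.inr l)))) =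
        (rho K).comp (FreeGroup.lift B) := by
      refine FreeGroup.ext_hom _ _ (fun w => ?_)
      rw [FreeGroup.lift_apply_of, MonoidHom.comp_apply, FreeGroup.lift_apply_of]
      rcases w with i | l
      · show τ ^ (i : ℕ) * rho K (B (Sum.inl 0)) * (τ ^ (i : ℕ))⁻¹ = rho K (B (Sum.inl i))
        rw [hB, hB]
        exact hτ i i.isLt
      · rfl
    rw [h1, MonoidHom.comp_apply, hBp, map_one]
  · intro h2
    have h3 : B (Sum.inl 0) = 1 := rho_inj K (by rw [h2, map_one])
    have h4 := congrArg (fun w : K => Multiplicative.toAdd w.2 0) h3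
    simp only [B, abl, Sum.elim_inl] at h4
    rw [if_neg (Ne.symm hj0), toAdd_ofAdd, Pi.single_eq_same] at h4
    exact one_ne_zero h4

/-- n = 1 : the letter a_j deleted -/
def del1 (k : ℕ) (j : Fin 2) : FreeGroup (Fin 2 ⊕ Fin k) →* FreeGroup (Fin 1 ⊕ Fin k) :=
  FreeGroup.lift (Sum.elim (fun i : Fin 2 => if i = j then 1 else FreeGroup.of (Sum.inl 0))
    (fun l => FreeGroup.of (Sum.inr l)))

theorem one_quot (k : ℕ) (p : FreeGroup (Fin 2 ⊕ Fin k)) (j : Fin 2) (ε : ℤ) (hε : ε * ε = 1)
    (he : ∀ i, ex 1 k p i = if i = j then ε else 0) (hp : del1 k j p ≠ 1) :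
    ∃ (Q : Type) (_ : Group Q) (_ : Finite Q) (a t : Q) (s : Fin k → Q),
      FreeGroup.lift (cjs 1 k a t s) p = 1 ∧ a ≠ 1 := by
  obtain ⟨q, hq, L, _, _, g, hg, hz, hzq, hz1⟩ := central_any (del1 k j p) hp
  haveI : Fact q.Prime := ⟨hq⟩
  haveI : NeZero q := ⟨hq.ne_zero⟩
  haveI : Fact (1 < q) := ⟨hq.one_lt⟩
  set z := FreeGroup.lift g (del1 k j p) with hzdef
  let c : L := z ^ (-ε)
  have hc : c ∈ Subgroup.center L := Subgroup.zpow_mem _ hz _
  have hcq : c ^ q = 1 := by
    show (z ^ (-ε)) ^ q = 1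
    rw [← zpow_natCast, ← zpow_mul, mul_comm, zpow_mul, zpow_natCast, hzq, one_zpow]
  have hcε : c ^ ε = z⁻¹ := by
    show (z ^ (-ε)) ^ ε = z⁻¹
    rw [← zpow_mul, neg_mul, hε, zpow_neg, zpow_one]
  have hc1 : c ≠ 1 := by
    intro h
    rw [h, one_zpow] at hcε
    exact hz1 (inv_eq_one.mp hcε.symm)
  let K := L × Multiplicative (Fin 2 → ZMod q)
  haveI : Finite K := inferInstance
  let h : Fin 2 ⊕ Fin k → L := Sum.elim (fun i => if i = j then 1 else g (Sum.inl 0))
    (fun l => g (Sum.inr l))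
  have hhj : h (Sum.inl j) = 1 := by simp [h]
  have hhz : FreeGroup.lift h p = z := by
    have e : (FreeGroup.lift g).comp (del1 k j) = FreeGroup.lift h := by
      refine FreeGroup.ext_hom _ _ (fun w => ?_)
      rw [MonoidHom.comp_apply, del1, FreeGroup.lift_apply_of, FreeGroup.lift_apply_of]
      rcases w with i | l
      · simp only [Sum.elim_inl, h]
        split_ifs <;> simp
      · simp only [Sum.elim_inr, h, FreeGroup.lift_apply_of]
    exact (congrArg (fun f : FreeGroup (Fin 2 ⊕ Fin k) →* L => f p) e).symm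
  let B : Fin 2 ⊕ Fin k → K := fun w => (if w = Sum.inl j then c else h w, abl q j w)
  have hBp : FreeGroup.lift B p = 1 := by
    have e : FreeGroup.lift B = (FreeGroup.lift (fun w => if w = Sum.inl j then c else h w)).prod
        (FreeGroup.lift (abl q j)) := by
      refine FreeGroup.ext_hom _ _ (fun w => ?_)
      rw [MonoidHom.prod_apply, FreeGroup.lift_apply_of, FreeGroup.lift_apply_of,
        FreeGroup.lift_apply_of]
    rw [e, MonoidHom.prod_apply, lift_central (n := 1) j c hc h hhj,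
      lift_abl (n := 1) j p ε he, he j, if_pos rfl, hcε, hhz, inv_mul_cancel]
    rfl
  have hBne : ∀ i : Fin 2, B (Sum.inl i) ≠ 1 := by
    intro i hi
    by_cases h1 : i = j
    · subst h1
      have h2 := congrArg Prod.fst hi
      simp only [B, if_true, Prod.fst_one] at h2
      exact hc1 h2
    · have h2 := congrArg (fun w : K => Multiplicative.toAdd w.2 i) hi
      simp only [B, abl, Sum.elim_inl] at h2
      rw [if_neg h1, toAdd_ofAdd, Pi.single_eq_same] at h2
      exact one_ne_zero h2
  have hBq : ∀ i : Fin 2, B (Sum.inl i) ^ q = 1 := by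
    intro i
    refine Prod.ext ?_ ?_
    · show (if (Sum.inl i : Fin 2 ⊕ Fin k) = Sum.inl j then c else h (Sum.inl i)) ^ q = 1
      split_ifs with h1
      · exact hcq
      · simp only [h, Sum.elim_inl]
        split_ifs
        · exact one_pow q
        · exact hg _
    · show (B (Sum.inl i)).2 ^ q = 1
      obtain ⟨v, hv⟩ := Multiplicative.ofAdd.surjective (B (Sum.inl i)).2
      rw [← hv, ← ofAdd_nsmul, ← ofAdd_zero]
      congr 1
      funext i
      simp
  obtain ⟨τ, hτ⟩ := conj1 q hq (B (Sum.inl 0)) (B (Sum.inl 1)) (hBq 0) (hBne 0) (hBq 1) (hBne 1)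
  refine ⟨Equiv.Perm K, inferInstance, inferInstance, rho K (B (Sum.inl 0)), τ,
    fun l => rho K (B (Sum.inr l)), ?_, ?_⟩
  · have h1 : FreeGroup.lift (cjs 1 k (rho K (B (Sum.inl 0))) τ (fun l => rho K (B (Sum.inr l)))) =
        (rho K).comp (FreeGroup.lift B) := by
      refine FreeGroup.ext_hom _ _ (fun w => ?_)
      rw [FreeGroup.lift_apply_of, MonoidHom.comp_apply, FreeGroup.lift_apply_of]
      rcases w with i | l
      · show τ ^ (i : ℕ) * rho K (B (Sum.inl 0)) * (τ ^ (i : ℕ))⁻¹ = rho K (B (Sum.inl i))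
        fin_cases i
        · simp
        · simpa using hτ
      · rfl
    rw [h1, MonoidHom.comp_apply, hBp, map_one]
  · intro h2
    exact hBne 0 (rho_inj K (by rw [h2, map_one]))

end Pool.Agent.HO
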