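import Mathlib
import Pool.Agent.HO.Abel
import Pool.Agent.HO.Ends
import Pool.Agent.HO.Metab

set_option linter.all false
set_option autoImplicit false

/-! The general statement. -/

namespace Pool.Agent.HO

open Function

/-- evaluation of the relator at a and powers of t -/
def ev {Q : Type} [Group Q] (m : ℕ) (c : Fin m → ℤ) (a t : Q) : FreeGroup (Fin (m + 1)) →* Q :=
  FreeGroup.lift (Fin.cons (a : Q) (fun i : Fin m => t ^ (c i)))

theorem lf_cjg {Q : Type} [Group Q] (n : ℕ) (a t : Q) (p : FreeGroup (Fin (n + 1))) :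
    lf a t (FreeGroup.lift (cjg n (FreeGroup.of 0) (FreeGroup.of 1)) p) =
      FreeGroup.lift (cjg n a t) p := by
  have h : (lf a t).comp (FreeGroup.lift (cjg n (FreeGroup.of 0) (FreeGroup.of 1))) =
      FreeGroup.lift (cjg n a t) := by
    refine FreeGroup.ext_hom _ _ (fun i => ?_)
    simp [cjg, lf]
  exact congrArg (fun u : FreeGroup (Fin (n + 1)) →* Q => u p) h

theorem lf_sp {Q : Type} [Group Q] (m : ℕ) (c : Fin m → ℤ) (a t : Q)
    (r : FreeGroup (Fin (m + 1))) : lf a t (sp m c r) = ev m c a t r := by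
  have h : (lf a t).comp (sp m c) = ev m c a t := by
    refine FreeGroup.ext_hom _ _ (fun i => ?_)
    refine Fin.cases ?_ (fun i => ?_) i
    · simp [sp, ev, lf]
    · simp [sp, ev, lf]
  exact congrArg (fun u : FreeGroup (Fin (m + 1)) →* Q => u r) h

theorem ev_conj {Q : Type} [Group Q] (m n : ℕ) (c : Fin m → ℤ) (p : FreeGroup (Fin (n + 1)))
    (r : FreeGroup (Fin (m + 1)))
    (hc : IsConj (sp m c r) (FreeGroup.lift (cjg n (FreeGroup.of 0) (FreeGroup.of 1)) p))
    (a t : Q) : IsConj (ev m c a t r) (FreeGroup.lift (cjg n a t) p) := by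
  have h := MonoidHom.map_isConj (lf a t) hc
  rwa [lf_sp, lf_cjg] at h

theorem ev_eq_one_iff {Q : Type} [Group Q] (m n : ℕ) (c : Fin m → ℤ) (p : FreeGroup (Fin (n + 1)))
    (r : FreeGroup (Fin (m + 1)))
    (hc : IsConj (sp m c r) (FreeGroup.lift (cjg n (FreeGroup.of 0) (FreeGroup.of 1)) p))
    (a t : Q) : ev m c a t r = 1 ↔ FreeGroup.lift (cjg n a t) p = 1 := by
  have h := ev_conj m n c p r hc a t
  constructor
  · intro h1
    rw [h1] at h
    exact (isConj_one_right.mp h).symm ▸ rfl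
  · intro h1
    rw [h1] at h
    exact isConj_one_left.mp h

theorem finite_hom_pres {N : ℕ} (r : FreeGroup (Fin N)) (Q : Type) [Group Q] [Finite Q] :
    Finite (PresentedGroup ({r} : Set (FreeGroup (Fin N))) →* Q) :=
  finite_hom_of_surj (PresentedGroup.mk _) (PresentedGroup.mk_surjective _)

/-- if the group has the finite images of the free group of rank m then the first generator dies
in all finite images -/
theorem a_dies (m : ℕ) (r : FreeGroup (Fin (m + 1))) (hr : killa m r = 1)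
    (hs : SameFiniteImages (PresentedGroup ({r} : Set (FreeGroup (Fin (m + 1)))))
      (FreeGroup (Fin m))) (Q : Type) [Group Q] [Finite Q] (f : FreeGroup (Fin (m + 1)) →* Q)
    (hf : f r = 1) : f (FreeGroup.of 0) = 1 := by
  have h : ∀ w ∈ ({r} : Set (FreeGroup (Fin (m + 1)))),
      FreeGroup.lift (Fin.cons (1 : FreeGroup (Fin m)) (fun i : Fin m => FreeGroup.of i)) w = 1 := by
    intro w hw
    rw [Set.mem_singleton_iff.mp hw]
    exact hr
  let θ := PresentedGroup.toGroup h
  have hθ' : θ.comp (PresentedGroup.mk {r}) = killa m := by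
    refine FreeGroup.ext_hom _ _ (fun i => ?_)
    have := PresentedGroup.toGroup.of h (x := i)
    rw [MonoidHom.comp_apply]
    refine Eq.trans this ?_
    simp [killa]
  have hθ : Surjective θ := by
    intro x
    obtain ⟨w, rfl⟩ := killa_surj m x
    refine ⟨PresentedGroup.mk {r} w, ?_⟩
    exact congrArg (fun u : FreeGroup (Fin (m + 1)) →* FreeGroup (Fin m) => u w) hθ'
  have hg : ∀ w ∈ ({r} : Set (FreeGroup (Fin (m + 1)))),
      FreeGroup.lift (fun i => f (FreeGroup.of i)) w = 1 := by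
    intro w hw
    rw [Set.mem_singleton_iff.mp hw]
    have : FreeGroup.lift (fun i => f (FreeGroup.of i)) = f :=
      FreeGroup.ext_hom _ _ (fun i => by simp)
    rw [this, hf]
  let g := PresentedGroup.toGroup hg
  haveI := finite_hom_pres r Q
  have h1 := dies θ hθ hs Q g (PresentedGroup.of 0) (by
    have h2 : θ (PresentedGroup.of 0) = killa m (FreeGroup.of 0) :=
      congrArg (fun u : FreeGroup (Fin (m + 1)) →* FreeGroup (Fin m) => u (FreeGroup.of 0)) hθ'
    rw [h2]
    simp [killa])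
  rw [← h1]
  exact (PresentedGroup.toGroup.of hg).symm

/-- if the group has the finite images of the free group of rank m + 1 then the relator dies in
all finite groups -/
theorem r_dies (m : ℕ) (r : FreeGroup (Fin (m + 1)))
    (hs : SameFiniteImages (PresentedGroup ({r} : Set (FreeGroup (Fin (m + 1)))))
      (FreeGroup (Fin (m + 1)))) (Q : Type) [Group Q] [Finite Q] (f : FreeGroup (Fin (m + 1)) →* Q) :
    f r = 1 := by
  haveI := finite_hom_pres r Q
  exact dies (PresentedGroup.mk {r}) (PresentedGroup.mk_surjective _) hs.symm Q f r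
    (PresentedGroup.one_of_mem (Set.mem_singleton r))

/-- the rank is m and the exponent sum is plus or minus one, unless the relator dies -/
theorem rank_lem (m n : ℕ) (c : Fin m → ℤ) (p : FreeGroup (Fin (n + 1)))
    (r : FreeGroup (Fin (m + 1))) (hr : killa m r = 1)
    (hc : IsConj (sp m c r) (FreeGroup.lift (cjg n (FreeGroup.of 0) (FreeGroup.of 1)) p))
    (hsurv : ∃ (Q : Type) (_ : Group Q) (_ : Finite Q) (f : FreeGroup (Fin (m + 1)) →* Q), f r ≠ 1)
    (d : ℕ) (hs : SameFiniteImages (PresentedGroup ({r} : Set (FreeGroup (Fin (m + 1)))))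
      (FreeGroup (Fin d))) :
    d = m ∧ (∑ i, expo n p i = 1 ∨ ∑ i, expo n p i = -1) := by
  set s := ∑ i, expo n p i with hsdef
  have key : ∀ (Q : Type) [CommGroup Q] (f : FreeGroup (Fin (m + 1)) →* Q),
      f r = (f (FreeGroup.of 0)) ^ s := fun Q _ f => expsum m n c p r hr hc Q f
  -- images of the group
  have G1 : ∀ N k, (∃ f : FreeGroup (Fin (m + 1)) →* El N k, Surjective f ∧ f r = 1) → 2 ≤ N →
      k ≤ d := by
    intro N k h hN
    haveI : NeZero N := ⟨by omega⟩
    obtain ⟨g, hg⟩ := (hs (El N k)).mp ((pres_onto r (El N k)).mpr h)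
    exact free_le N k d hN g hg
  have G2 : ∀ N k, 2 ≤ N → k ≤ d →
      ∃ f : FreeGroup (Fin (m + 1)) →* El N k, Surjective f ∧ f r = 1 := by
    intro N k hN hk
    haveI : NeZero N := ⟨by omega⟩
    exact (pres_onto r (El N k)).mp ((hs (El N k)).mpr (onto_El N k d (by omega) hk))
  -- m ≤ d
  have hmd : m ≤ d := by
    obtain ⟨f, hf⟩ := onto_El 2 m m (by norm_num) le_rfl
    refine G1 2 m ⟨f.comp (killa m), hf.comp (killa_surj m), ?_⟩ le_rfl
    rw [MonoidHom.comp_apply, hr, map_one]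
  have hdvd : ∀ N : ℕ, 2 ≤ N → (N : ℤ) ∣ s → m + 1 ≤ d := by
    intro N hN hNs
    obtain ⟨f, hf⟩ := onto_El N (m + 1) (m + 1) (by omega) le_rfl
    refine G1 N (m + 1) ⟨f, hf, ?_⟩ hN
    obtain ⟨k, hk⟩ := hNs
    rw [key, hk, zpow_mul, zpow_natCast, El_pow, one_zpow]
  have hcop : ∀ N : ℕ, 2 ≤ N → IsCoprime (N : ℤ) s → d ≤ m := by
    intro N hN hNs
    obtain ⟨f, hf, hfr⟩ := G2 N d hN le_rfl
    refine free_le_of_kill N d m hN f hf ?_
    obtain ⟨u, v, huv⟩ := hNs
    rw [key] at hfr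
    have h1 : f (FreeGroup.of 0) ^ (u * (N : ℤ) + v * s) = 1 := by
      rw [zpow_add, mul_comm u, mul_comm v, zpow_mul, zpow_mul, zpow_natCast, El_pow, hfr, one_zpow,
        one_zpow, one_mul]
    rwa [huv, zpow_one] at h1
  rcases Nat.lt_trichotomy s.natAbs 1 with h | h | h
  · -- s = 0
    exfalso
    have h0 : s = 0 := by omega
    have hd1 : m + 1 ≤ d := hdvd 2 le_rfl (by rw [h0]; exact dvd_zero _)
    have hd2 : d ≤ m + 1 := by
      obtain ⟨f, hf, -⟩ := G2 2 d le_rfl le_rfl
      exact free_le 2 d (m + 1) le_rfl f hf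
    have hd : d = m + 1 := le_antisymm hd2 hd1
    subst hd
    obtain ⟨Q, _, _, f, hf⟩ := hsurv
    exact hf (r_dies m r hs Q f)
  · have h1 : s = 1 ∨ s = -1 := by omega
    refine ⟨?_, h1⟩
    refine le_antisymm (hcop 2 le_rfl ?_) hmd
    rcases h1 with h1 | h1
    · rw [h1]; exact isCoprime_one_right
    · rw [h1]; exact isCoprime_one_right.neg_right
  · exfalso
    have hd1 : m + 1 ≤ d := hdvd s.natAbs (by omega) (Int.natAbs_dvd.mpr dvd_rfl)
    have hd2 : d ≤ m := by
      refine hcop (s.natAbs + 1) (by omega) ?_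
      have h3 : ((s.natAbs + 1 : ℕ) : ℤ) = (s.natAbs : ℤ) + 1 := Nat.cast_succ _
      rcases Int.natAbs_eq s with h2 | h2
      · exact ⟨1, -1, by rw [h3]; omega⟩
      · exact ⟨1, 1, by rw [h3]; omega⟩
    omega

/-- exactly one exponent is nonzero, and it is plus or minus one -/
theorem one_exp (m n : ℕ) (c : Fin m → ℤ) (p : FreeGroup (Fin (n + 1)))
    (r : FreeGroup (Fin (m + 1))) (hr : killa m r = 1)
    (hc : IsConj (sp m c r) (FreeGroup.lift (cjg n (FreeGroup.of 0) (FreeGroup.of 1)) p))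
    (hsurv : ∃ (Q : Type) (_ : Group Q) (_ : Finite Q) (f : FreeGroup (Fin (m + 1)) →* Q), f r ≠ 1)
    (d : ℕ) (hs : SameFiniteImages (PresentedGroup ({r} : Set (FreeGroup (Fin (m + 1)))))
      (FreeGroup (Fin d))) :
    (∀ (Q : Type) [Group Q] [Finite Q] (a t : Q), FreeGroup.lift (cjg n a t) p = 1 →
      a * t = t * a) ∧
    ∃ j, (expo n p j = 1 ∨ expo n p j = -1) ∧ ∀ i, expo n p i = if i = j then expo n p j else 0 := by
  obtain ⟨hd, hsum⟩ := rank_lem m n c p r hr hc hsurv d hs
  subst hd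
  -- every finite image kills a
  have hk : ∀ (Q : Type) [Group Q] [Finite Q] (a t : Q), FreeGroup.lift (cjg n a t) p = 1 →
      a * t = t * a := by
    intro Q _ _ a t h
    have h1 := a_dies d r hr hs Q (ev d c a t) ((ev_eq_one_iff d n c p r hc a t).mpr h)
    have h2 : a = 1 := by
      have : ev d c a t (FreeGroup.of 0) = a := by simp [ev]
      rw [← this, h1]
    rw [h2, one_mul, mul_one]
  refine ⟨hk, ?_⟩
  -- two nonzero exponents
  have htwo : ∀ i k, i ≠ k → expo n p i ≠ 0 → expo n p k ≠ 0 → False := by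
    intro i k hik hi hk'
    obtain ⟨Q, _, _, a, t, h1, h2⟩ := metab n p (expo n p) (fun i => rfl)
      (by rcases hsum with h | h <;> rw [h] <;> norm_num) i k hik hi hk'
    exact h2 (hk Q a t h1)
  obtain ⟨j, hj⟩ : ∃ j, expo n p j ≠ 0 := by
    by_contra hcon
    have hcon' : ∀ i, expo n p i = 0 := fun i => by
      by_contra h; exact hcon ⟨i, h⟩
    rw [Finset.sum_eq_zero (fun i _ => hcon' i)] at hsum
    omega
  have hz : ∀ i, i ≠ j → expo n p i = 0 := by
    intro i hi
    by_contra h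
    exact htwo i j hi h hj
  have hsj : ∑ i, expo n p i = expo n p j := Finset.sum_eq_single j (fun i _ hi => hz i hi) (by simp)
  rw [hsj] at hsum
  refine ⟨j, hsum, ?_⟩
  intro i
  by_cases h : i = j
  · rw [if_pos h]
    rw [h]
  · rw [if_neg h, hz i h]

theorem general (m n : ℕ) (hn : 0 < n) (c : Fin m → ℤ) (p : FreeGroup (Fin (n + 1)))
    (r : FreeGroup (Fin (m + 1))) (hr : killa m r = 1)
    (hc : IsConj (sp m c r) (FreeGroup.lift (cjg n (FreeGroup.of 0) (FreeGroup.of 1)) p))
    (hp : ends n p ≠ 1) (d : ℕ)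
    (hs : SameFiniteImages (PresentedGroup ({r} : Set (FreeGroup (Fin (m + 1)))))
      (FreeGroup (Fin d))) :
    ∃ ε : ℤ, (ε = 1 ∨ ε = -1) ∧ ((∀ i, expo n p i = if i = 0 then ε else 0) ∨
      (∀ i, expo n p i = if i = Fin.last n then ε else 0)) := by
  obtain ⟨Q0, _, _, a0, t0, h0⟩ := survives n hn p hp
  obtain ⟨hk, j, hsum, he⟩ := one_exp m n c p r hr hc ⟨Q0, inferInstance, inferInstance,
    ev m c a0 t0, fun h => h0 ((ev_eq_one_iff m n c p r hc a0 t0).mp h)⟩ d hs
  refine ⟨expo n p j, hsum, ?_⟩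
  by_cases hj0 : j = 0
  · left; subst hj0; exact he
  by_cases hjn : j = Fin.last n
  · right; subst hjn; exact he
  exfalso
  obtain ⟨q, hq, H, _, _, x, y, hH, hx, hy, hw⟩ := exists_pgroup (ends n p) hp
  obtain ⟨L, _, _, x', y', hx', hy', hz1, hz2, hz3⟩ :=
    central_aux q hq (ends n p) (Nat.card H) H rfl hH x y hx hy hw
  obtain ⟨Q, _, _, a, t, h1, h2⟩ := interior n p j hj0 hjn (expo n p j)
    (by rcases hsum with h | h <;> rw [h] <;> norm_num) he q hq L x' y' hx' hy' hz1 hz2 hz3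
  exact h2 (hk Q a t h1)

end Pool.Agent.HO
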