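import Pool.Agent.HO.Unip
import Pool.Agent.HO.Abel
import Pool.Agent.HO.Ends

/-!
# HO HOPF: the Hopf property of the free group of rank two, and a consequence

If the image `p` of the first letter under an automorphism of the free group of rank three becomes
trivial when the inner letter is deleted, then the normal closure of `p` contains the inner letter.
-/

set_option autoImplicit false

namespace Pool.Agent.HO

open Function

theorem ker_killa (m : ℕ) (w : FreeGroup (Fin (m + 1))) (h : killa m w = 1) :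
    w ∈ Subgroup.normalClosure ({FreeGroup.of 0} : Set (FreeGroup (Fin (m + 1)))) := by
  set N := Subgroup.normalClosure ({FreeGroup.of 0} : Set (FreeGroup (Fin (m + 1)))) with hN
  let s : FreeGroup (Fin m) →* FreeGroup (Fin (m + 1)) := FreeGroup.map Fin.succ
  have h0 : (FreeGroup.of 0 : FreeGroup (Fin (m + 1))) ∈ N :=
    Subgroup.subset_normalClosure rfl
  have h1 : (QuotientGroup.mk' N).comp (s.comp (killa m)) = QuotientGroup.mk' N := by
    refine FreeGroup.ext_hom _ _ (fun i => ?_)
    refine Fin.cases ?_ (fun i => ?_) i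
    · have h2 : killa m (FreeGroup.of 0) = 1 := by simp [killa]
      rw [MonoidHom.comp_apply, MonoidHom.comp_apply, h2, map_one, map_one]
      exact ((QuotientGroup.eq_one_iff _).2 h0).symm
    · have h2 : killa m (FreeGroup.of i.succ) = FreeGroup.of i := by simp [killa]
      rw [MonoidHom.comp_apply, MonoidHom.comp_apply, h2]
      have h3 : s (FreeGroup.of i) = FreeGroup.of i.succ := by simp [s]
      rw [h3]
  have h2 := congrArg (fun f : FreeGroup (Fin (m + 1)) →* _ => f w) h1
  simp only [MonoidHom.comp_apply, h, map_one] at h2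
  exact (QuotientGroup.eq_one_iff w).1 h2.symm

theorem mem_ncl (m : ℕ) (φ : FreeGroup (Fin (m + 1)) ≃* FreeGroup (Fin (m + 1)))
    (w : FreeGroup (Fin (m + 1))) (h : killa m (φ.symm w) = 1) :
    w ∈ Subgroup.normalClosure ({φ (FreeGroup.of 0)} : Set (FreeGroup (Fin (m + 1)))) := by
  have h4 : φ (φ.symm w) ∈ (Subgroup.normalClosure
      ({FreeGroup.of 0} : Set (FreeGroup (Fin (m + 1))))).map φ.toMonoidHom :=
    Subgroup.mem_map_of_mem φ.toMonoidHom (ker_killa m _ h)
  rw [MulEquiv.apply_symm_apply, Subgroup.map_normalClosure _ _ φ.surjective,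
    Set.image_singleton] at h4
  exact h4

/-- the Hopf property of the free group of rank two -/
theorem hopf_two (e : FreeGroup (Fin 2) →* FreeGroup (Fin 2)) (he : Surjective e)
    (w : FreeGroup (Fin 2)) (hw : e w = 1) : w = 1 := by
  by_contra hne
  obtain ⟨q, hq, H, hG, hF, x, y, -, -, -, hxy⟩ := exists_pgroup w hne
  have h1 : Surjective (fun f : FreeGroup (Fin 2) →* H => f.comp e) :=
    Finite.injective_iff_surjective.1 (factor_aux (Q := H) e he)
  obtain ⟨k, hk⟩ := h1 (lf x y)
  apply hxy
  rw [← hk]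
  show k (e w) = 1
  rw [hw, map_one]

theorem hopf (φ : FreeGroup (Fin 3) ≃* FreeGroup (Fin 3))
    (h : ends 2 (φ (FreeGroup.of 0)) = 1) :
    FreeGroup.of 1 ∈ Subgroup.normalClosure ({φ (FreeGroup.of 0)} : Set (FreeGroup (Fin 3))) := by
  let e : FreeGroup (Fin 3) →* FreeGroup (Fin 2) := FreeGroup.lift (fun k : Fin 3 =>
    if k = 0 then FreeGroup.of 0 else if k = Fin.last 2 then FreeGroup.of 1 else 1)
  have hends : ∀ p, ends 2 p = e p := fun p => rfl
  have he : Surjective e := by
    intro w
    refine ⟨FreeGroup.lift (fun i : Fin 2 => if i = 0 then FreeGroup.of 0 else FreeGroup.of 2) w, ?_⟩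
    have h1 : e.comp (FreeGroup.lift (fun i : Fin 2 =>
        if i = 0 then FreeGroup.of 0 else FreeGroup.of 2)) = MonoidHom.id _ := by
      refine FreeGroup.ext_hom _ _ (fun i => ?_)
      fin_cases i
      · simp [e]
      · simp [e]
    exact congrArg (fun f : FreeGroup (Fin 2) →* FreeGroup (Fin 2) => f w) h1
  let e' : FreeGroup (Fin 2) →* FreeGroup (Fin 2) :=
    FreeGroup.lift (fun i : Fin 2 => e (φ (FreeGroup.of i.succ)))
  have h1 : e.comp φ.toMonoidHom = e'.comp (killa 2) := by
    refine FreeGroup.ext_hom _ _ (fun i => ?_)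
    refine Fin.cases ?_ (fun i => ?_) i
    · have h2 : killa 2 (FreeGroup.of 0) = 1 := by simp [killa]
      rw [MonoidHom.comp_apply, MonoidHom.comp_apply, h2, map_one]
      exact h
    · have h2 : killa 2 (FreeGroup.of i.succ) = FreeGroup.of i := by simp [killa]
      rw [MonoidHom.comp_apply, MonoidHom.comp_apply, h2]
      simp only [e', FreeGroup.lift_apply_of]
      rfl
  have h1' : ∀ w, e (φ w) = e' (killa 2 w) := fun w =>
    congrArg (fun f : FreeGroup (Fin 3) →* FreeGroup (Fin 2) => f w) h1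
  have he' : Surjective e' := by
    intro w
    obtain ⟨u, hu⟩ := he w
    obtain ⟨v, hv⟩ := φ.surjective u
    exact ⟨killa 2 v, by rw [← h1', hv, hu]⟩
  have h2 : killa 2 (φ.symm (FreeGroup.of 1)) = 1 := by
    apply hopf_two e' he'
    rw [← h1', MulEquiv.apply_symm_apply]
    simp only [e, FreeGroup.lift_apply_of]
    rw [if_neg (by decide), if_neg (by decide)]
  exact mem_ncl 2 φ _ h2

theorem pres_free (n : ℕ) (p : FreeGroup (Fin (n + 1))) (j : Fin (n + 1))
    (h : FreeGroup.of j ∈ Subgroup.normalClosure ({p} : Set (FreeGroup (Fin (n + 1))))) :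
    Nonempty (PresentedGroup ({FreeGroup.lift (cjg n (FreeGroup.of 0) (FreeGroup.of 1)) p} :
      Set (FreeGroup (Fin 2))) ≃* FreeGroup (Fin 1)) := by
  set r : FreeGroup (Fin 2) := FreeGroup.lift (cjg n (FreeGroup.of 0) (FreeGroup.of 1)) p with hr
  let mk : FreeGroup (Fin 2) →* PresentedGroup ({r} : Set (FreeGroup (Fin 2))) :=
    PresentedGroup.mk {r}
  let ψ : FreeGroup (Fin (n + 1)) →* PresentedGroup ({r} : Set (FreeGroup (Fin 2))) :=
    mk.comp (FreeGroup.lift (cjg n (FreeGroup.of 0) (FreeGroup.of 1)))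
  have h1 : ψ p = 1 := by
    show mk (FreeGroup.lift (cjg n (FreeGroup.of 0) (FreeGroup.of 1)) p) = 1
    rw [← hr]
    exact PresentedGroup.one_of_mem (Set.mem_singleton r)
  have h2 : Subgroup.normalClosure ({p} : Set (FreeGroup (Fin (n + 1)))) ≤ ψ.ker := by
    apply Subgroup.normalClosure_le_normal
    intro x hx
    rw [Set.mem_singleton_iff] at hx
    rw [hx]
    exact h1
  have h3 : ψ (FreeGroup.of j) = 1 := h2 h
  have h4 : mk (FreeGroup.of 0) = 1 := by
    have h5 : ψ (FreeGroup.of j) = mk (FreeGroup.of 1) ^ (j : ℕ) * mk (FreeGroup.of 0) *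
        (mk (FreeGroup.of 1) ^ (j : ℕ))⁻¹ := by
      show mk (FreeGroup.lift (cjg n (FreeGroup.of 0) (FreeGroup.of 1)) (FreeGroup.of j)) = _
      rw [FreeGroup.lift_apply_of]
      unfold cjg
      rw [map_mul, map_mul, map_inv, map_pow]
    rw [h5, mul_inv_eq_one] at h3
    exact mul_eq_left.1 h3
  let f : Fin 2 → FreeGroup (Fin 1) := fun i => if i = 0 then 1 else FreeGroup.of 0
  have hf : ∀ w ∈ ({r} : Set (FreeGroup (Fin 2))), FreeGroup.lift f w = 1 := by
    intro w hw
    rw [Set.mem_singleton_iff.1 hw, hr]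
    have h5 : (FreeGroup.lift f).comp (FreeGroup.lift (cjg n (FreeGroup.of 0) (FreeGroup.of 1))) =
        1 := by
      refine FreeGroup.ext_hom _ _ (fun i => ?_)
      rw [MonoidHom.comp_apply, FreeGroup.lift_apply_of]
      unfold cjg
      rw [map_mul, map_mul, map_inv, FreeGroup.lift_apply_of]
      simp [f]
    exact congrArg (fun g : FreeGroup (Fin (n + 1)) →* FreeGroup (Fin 1) => g p) h5
  let F : PresentedGroup ({r} : Set (FreeGroup (Fin 2))) →* FreeGroup (Fin 1) :=
    PresentedGroup.toGroup hf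
  let B : FreeGroup (Fin 1) →* PresentedGroup ({r} : Set (FreeGroup (Fin 2))) :=
    FreeGroup.lift (fun _ => mk (FreeGroup.of 1))
  have hF : ∀ i, F (mk (FreeGroup.of i)) = f i := fun i => PresentedGroup.toGroup.of hf
  refine ⟨MonoidHom.toMulEquiv F B ?_ ?_⟩
  · refine PresentedGroup.ext (fun i => ?_)
    show B (F (mk (FreeGroup.of i))) = mk (FreeGroup.of i)
    rw [hF]
    fin_cases i
    · show B 1 = mk (FreeGroup.of 0)
      rw [map_one, h4]
    · show B (FreeGroup.of 0) = mk (FreeGroup.of 1)
      simp only [B, FreeGroup.lift_apply_of]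
  · refine FreeGroup.ext_hom _ _ (fun i => ?_)
    show F (B (FreeGroup.of i)) = FreeGroup.of i
    simp only [B, FreeGroup.lift_apply_of]
    rw [hF]
    have : i = 0 := Subsingleton.elim _ _
    rw [this]
    rfl

end Pool.Agent.HO
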