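import Mathlib
import Pool.Agent.HO.Gen
import Pool.Agent.HO.Hopf

set_option linter.all false
set_option autoImplicit false

/-! Two generators, span one and two, power of a primitive element. -/

namespace Pool.Agent.HO

open Function

/-- the relator in the letters a, t -/
def rel (n : ℕ) (p : FreeGroup (Fin (n + 1))) : FreeGroup (Fin 2) :=
  FreeGroup.lift (cjg n (FreeGroup.of 0) (FreeGroup.of 1)) p

theorem expo_zpow (n : ℕ) (u : FreeGroup (Fin (n + 1))) (k : ℤ) (i : Fin (n + 1)) :
    expo n (u ^ k) i = k * expo n u i := by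
  simp [expo]

theorem ends_zpow (n : ℕ) (u : FreeGroup (Fin (n + 1))) (k : ℤ) :
    ends n (u ^ k) = (ends n u) ^ k := by
  simp [ends]

theorem ends_mul (n : ℕ) (u v : FreeGroup (Fin (n + 1))) :
    ends n (u * v) = ends n u * ends n v := by
  simp [ends]

/-- a hom to a commutative group only sees the exponents -/
theorem map_comm (n : ℕ) (Q : Type) [CommGroup Q] (f : FreeGroup (Fin (n + 1)) →* Q)
    (p : FreeGroup (Fin (n + 1))) : f p = ∏ i, (f (FreeGroup.of i)) ^ (expo n p i) := by
  let R : FreeGroup (Fin (n + 1)) →* Q :=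
    { toFun := fun p => ∏ i, (f (FreeGroup.of i)) ^ (expo n p i)
      map_one' := by simp [expo_one]
      map_mul' := by
        intro p r
        rw [← Finset.prod_mul_distrib]
        refine Finset.prod_congr rfl (fun i _ => ?_)
        rw [expo_mul, zpow_add] }
  have h : f = R := by
    refine FreeGroup.ext_hom _ _ (fun k => ?_)
    show f (FreeGroup.of k) = ∏ i, (f (FreeGroup.of i)) ^ (expo n (FreeGroup.of k) i)
    rw [Finset.prod_eq_single k]
    · rw [expo_of, if_pos rfl, zpow_one]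
    · intro b _ hb
      rw [expo_of, if_neg (Ne.symm hb), zpow_zero]
    · simp
  exact congrArg (fun g : FreeGroup (Fin (n + 1)) →* Q => g p) h

theorem sp_one (r : FreeGroup (Fin 2)) : sp 1 (fun _ => 1) r = r := by
  have h : sp 1 (fun _ => 1) = MonoidHom.id _ := by
    refine FreeGroup.ext_hom _ _ (fun i => ?_)
    fin_cases i
    · simp [sp]
    · have : (⟨1, by decide⟩ : Fin 2) = Fin.succ 0 := rfl
      simp only [sp, FreeGroup.lift_apply_of, MonoidHom.id_apply]
      show (Fin.cons (FreeGroup.of 0 : FreeGroup (Fin 2))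
        (fun i : Fin 1 => (FreeGroup.of 1 : FreeGroup (Fin 2)) ^ (1 : ℤ)) : Fin 2 → FreeGroup (Fin 2)) (Fin.succ 0) = _
      rw [Fin.cons_succ, zpow_one]
      rfl
  rw [h]; rfl

theorem killa_rel (n : ℕ) (p : FreeGroup (Fin (n + 1))) : killa 1 (rel n p) = 1 := by
  have h : (killa 1).comp (FreeGroup.lift (cjg n (FreeGroup.of 0) (FreeGroup.of 1))) = 1 := by
    refine FreeGroup.ext_hom _ _ (fun i => ?_)
    rw [MonoidHom.comp_apply, FreeGroup.lift_apply_of]
    simp [cjg, killa]
  exact congrArg (fun g : FreeGroup (Fin (n + 1)) →* FreeGroup (Fin 1) => g p) h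

/-- trivial relator -/
theorem pres_one : Nonempty (PresentedGroup ({1} : Set (FreeGroup (Fin 2))) ≃* FreeGroup (Fin 2)) := by
  have h : ∀ w ∈ ({1} : Set (FreeGroup (Fin 2))), FreeGroup.lift (fun i => FreeGroup.of i) w = 1 := by
    intro w hw
    rw [Set.mem_singleton_iff.mp hw, map_one]
  refine ⟨MulEquiv.ofBijective (PresentedGroup.toGroup h) ⟨?_, ?_⟩⟩
  · rw [injective_iff_map_eq_one]
    intro x hx
    obtain ⟨w, rfl⟩ := PresentedGroup.mk_surjective _ x
    have h1 : (PresentedGroup.toGroup h).comp (PresentedGroup.mk {1}) = MonoidHom.id _ := by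
      refine FreeGroup.ext_hom _ _ (fun i => ?_)
      exact PresentedGroup.toGroup.of h
    have h2 : w = 1 := by
      have := congrArg (fun g : FreeGroup (Fin 2) →* FreeGroup (Fin 2) => g w) h1
      exact this.symm.trans hx
    rw [h2, map_one]
  · intro w
    refine ⟨PresentedGroup.mk _ w, ?_⟩
    have h1 : (PresentedGroup.toGroup h).comp (PresentedGroup.mk {1}) = MonoidHom.id _ := by
      refine FreeGroup.ext_hom _ _ (fun i => ?_)
      exact PresentedGroup.toGroup.of h
    exact congrArg (fun g : FreeGroup (Fin 2) →* FreeGroup (Fin 2) => g w) h1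

theorem pres_free_gen (n : ℕ) (p : FreeGroup (Fin (n + 1))) (j : Fin (n + 1))
    (h : FreeGroup.of j ∈ Subgroup.normalClosure ({p} : Set (FreeGroup (Fin (n + 1))))) :
    Nonempty (PresentedGroup ({rel n p} : Set (FreeGroup (Fin 2))) ≃* FreeGroup (Fin 1)) := by
  let r := rel n p
  let mk : FreeGroup (Fin 2) →* PresentedGroup ({r} : Set (FreeGroup (Fin 2))) :=
    PresentedGroup.mk {r}
  let ψ : FreeGroup (Fin (n + 1)) →* PresentedGroup ({r} : Set (FreeGroup (Fin 2))) :=
    mk.comp (FreeGroup.lift (cjg n (FreeGroup.of 0) (FreeGroup.of 1)))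
  have h1 : ψ p = 1 := PresentedGroup.one_of_mem (Set.mem_singleton r)
  have h2 : Subgroup.normalClosure ({p} : Set (FreeGroup (Fin (n + 1)))) ≤ ψ.ker := by
    apply Subgroup.normalClosure_le_normal
    intro x hx
    rw [Set.mem_singleton_iff] at hx
    rw [hx]
    exact h1
  have h3 : ψ (FreeGroup.of j) = 1 := h2 h
  have h4 : mk (FreeGroup.of 0) = 1 := by
    have h5 : ψ (FreeGroup.of j) = (mk (FreeGroup.of 1)) ^ (j : ℕ) * mk (FreeGroup.of 0) *
        ((mk (FreeGroup.of 1)) ^ (j : ℕ))⁻¹ := by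
      show mk (FreeGroup.lift (cjg n (FreeGroup.of 0) (FreeGroup.of 1)) (FreeGroup.of j)) = _
      rw [FreeGroup.lift_apply_of]
      unfold cjg
      rw [map_mul, map_mul, map_inv, map_pow]
    rw [h5, mul_inv_eq_one] at h3
    exact mul_eq_left.1 h3
  have hf : ∀ w ∈ ({r} : Set (FreeGroup (Fin 2))),
      FreeGroup.lift (Fin.cons (1 : FreeGroup (Fin 1)) (fun i : Fin 1 => FreeGroup.of i)) w = 1 := by
    intro w hw
    rw [Set.mem_singleton_iff.1 hw]
    exact killa_rel n p
  let g : PresentedGroup ({r} : Set (FreeGroup (Fin 2))) →* FreeGroup (Fin 1) :=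
    PresentedGroup.toGroup hf
  let b : FreeGroup (Fin 1) →* PresentedGroup ({r} : Set (FreeGroup (Fin 2))) :=
    FreeGroup.lift (fun _ => mk (FreeGroup.of 1))
  have hgb : g.comp b = MonoidHom.id _ := by
    refine FreeGroup.ext_hom _ _ (fun i => ?_)
    have h7 : g (mk (FreeGroup.of 1)) = FreeGroup.of 0 := by
      refine Eq.trans (PresentedGroup.toGroup.of hf (x := (1 : Fin 2))) ?_
      show (Fin.cons (1 : FreeGroup (Fin 1)) (fun i : Fin 1 => FreeGroup.of i) : Fin 2 → FreeGroup (Fin 1)) (Fin.succ 0) = _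
      rw [Fin.cons_succ]
    rw [MonoidHom.comp_apply, FreeGroup.lift_apply_of, h7, MonoidHom.id_apply]
    rw [Subsingleton.elim i 0]
  have hbg : b.comp (g.comp mk) = mk := by
    refine FreeGroup.ext_hom _ _ (fun i => ?_)
    fin_cases i
    · show b (g (mk (FreeGroup.of 0))) = mk (FreeGroup.of 0)
      rw [h4, map_one, map_one]
    · have h7 : g (mk (FreeGroup.of 1)) = FreeGroup.of 0 := by
        refine Eq.trans (PresentedGroup.toGroup.of hf (x := (1 : Fin 2))) ?_
        show (Fin.cons (1 : FreeGroup (Fin 1)) (fun i : Fin 1 => FreeGroup.of i) : Fin 2 → FreeGroup (Fin 1)) (Fin.succ 0) = _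
        rw [Fin.cons_succ]
      show b (g (mk (FreeGroup.of 1))) = mk (FreeGroup.of 1)
      rw [h7]
      show FreeGroup.lift (fun _ => mk (FreeGroup.of 1)) (FreeGroup.of 0) = _
      rw [FreeGroup.lift_apply_of]
  refine ⟨MulEquiv.ofBijective g ⟨?_, ?_⟩⟩
  · intro x y hxy
    obtain ⟨x, rfl⟩ := PresentedGroup.mk_surjective _ x
    obtain ⟨y, rfl⟩ := PresentedGroup.mk_surjective _ y
    have e1 : b (g (mk x)) = mk x := congrArg (fun u : FreeGroup (Fin 2) →* _ => u x) hbg
    have e2 : b (g (mk y)) = mk y := congrArg (fun u : FreeGroup (Fin 2) →* _ => u y) hbg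
    show mk x = mk y
    rw [← e1, ← e2]
    exact congrArg b hxy
  · intro w
    exact ⟨b w, congrArg (fun u : FreeGroup (Fin 1) →* FreeGroup (Fin 1) => u w) hgb⟩

theorem small (n : ℕ) (hn : n = 1 ∨ n = 2)
    (φ : FreeGroup (Fin (n + 1)) ≃* FreeGroup (Fin (n + 1))) (k : ℤ) (d : ℕ)
    (hs : SameFiniteImages
      (PresentedGroup ({rel n ((φ (FreeGroup.of 0)) ^ k)} : Set (FreeGroup (Fin 2))))
      (FreeGroup (Fin d))) :
    (∃ l : ℕ, Nonempty
      (PresentedGroup ({rel n ((φ (FreeGroup.of 0)) ^ k)} : Set (FreeGroup (Fin 2))) ≃*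
        FreeGroup (Fin l))) ∨
    (n = 2 ∧ ∃ ε : ℤ, (ε = 1 ∨ ε = -1) ∧
      ((∀ i, expo n ((φ (FreeGroup.of 0)) ^ k) i = if i = 0 then ε else 0) ∨
      (∀ i, expo n ((φ (FreeGroup.of 0)) ^ k) i = if i = Fin.last n then ε else 0))) := by
  by_cases hr1 : rel n ((φ (FreeGroup.of 0)) ^ k) = 1
  · left
    rw [hr1]
    exact ⟨2, pres_one⟩
  have hkill := killa_rel n ((φ (FreeGroup.of 0)) ^ k)
  have hc : IsConj (sp 1 (fun _ => 1) (rel n ((φ (FreeGroup.of 0)) ^ k)))
      (FreeGroup.lift (cjg n (FreeGroup.of 0) (FreeGroup.of 1)) ((φ (FreeGroup.of 0)) ^ k)) := by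
    rw [sp_one]
    exact IsConj.refl _
  obtain ⟨q, hq, H, _, _, x, y, -, -, -, hw⟩ := exists_pgroup _ hr1
  obtain ⟨-, j, hj, he⟩ := one_exp 1 n (fun _ => 1) ((φ (FreeGroup.of 0)) ^ k)
    (rel n ((φ (FreeGroup.of 0)) ^ k)) hkill hc ⟨H, inferInstance, inferInstance, lf x y, hw⟩ d hs
  set u := φ (FreeGroup.of 0) with hu
  have hk1 : k = 1 ∨ k = -1 := by
    rw [expo_zpow] at hj
    have : IsUnit (k * expo n u j) := by
      rcases hj with h | h <;> rw [h]
      · exact isUnit_one
      · exact isUnit_one.neg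
    exact Int.isUnit_iff.mp (isUnit_of_mul_isUnit_left this)
  have hcl : Subgroup.normalClosure ({u} : Set (FreeGroup (Fin (n + 1)))) ≤
      Subgroup.normalClosure ({u ^ k} : Set (FreeGroup (Fin (n + 1)))) := by
    apply Subgroup.normalClosure_le_normal
    intro x hx
    rw [Set.mem_singleton_iff.mp hx]
    have h1 : u ^ k ∈ Subgroup.normalClosure ({u ^ k} : Set (FreeGroup (Fin (n + 1)))) :=
      Subgroup.subset_normalClosure rfl
    have h2 := Subgroup.zpow_mem _ h1 k
    rw [← zpow_mul] at h2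
    have h3 : k * k = 1 := by rcases hk1 with h | h <;> rw [h] <;> norm_num
    rwa [h3, zpow_one] at h2
  rcases hn with hn | hn
  · -- n = 1
    left
    subst hn
    refine ⟨1, pres_free_gen 1 _ j (hcl ?_)⟩
    apply mem_ncl 1 φ
    -- the abelian quotient
    let e : FreeGroup (Fin 1) ≃* Multiplicative ℤ := FreeGroup.mulEquivIntOfUnique
    let π : FreeGroup (Fin 2) →* Multiplicative ℤ :=
      e.toMonoidHom.comp ((killa 1).comp φ.symm.toMonoidHom)
    have h1 : π (u ^ k) = 1 := by
      rw [map_zpow]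
      have : π u = 1 := by
        show e (killa 1 (φ.symm (φ (FreeGroup.of 0)))) = 1
        rw [φ.symm_apply_apply]
        have : killa 1 (FreeGroup.of 0) = 1 := by simp [killa]
        rw [this, map_one]
      rw [this, one_zpow]
    have h2 := map_comm 1 _ π (u ^ k)
    rw [h1, Finset.prod_eq_single j (fun i _ hi => by rw [he i, if_neg hi, zpow_zero])
      (by simp)] at h2
    have h3 : π (FreeGroup.of j) = 1 := by
      rcases hj with h | h
      · rw [h, zpow_one] at h2; exact h2.symm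
      · rw [h, zpow_neg, zpow_one] at h2
        exact inv_eq_one.mp h2.symm
    exact (MulEquiv.map_eq_one_iff e).mp h3
  · -- n = 2
    subst hn
    by_cases hends : ends 2 (u ^ k) = 1
    · have h1 : ends 2 u = 1 := by
        rw [ends_zpow] at hends
        rcases hk1 with h | h
        · rwa [h, zpow_one] at hends
        · rw [h, zpow_neg, zpow_one] at hends
          exact inv_eq_one.mp hends
      left
      exact ⟨1, pres_free_gen 2 _ 1 (hcl (hopf φ h1))⟩
    · right
      exact ⟨rfl, general 1 2 (by norm_num) (fun _ => 1) (u ^ k) (rel 2 (u ^ k)) hkill hc hends d hs⟩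

end Pool.Agent.HO
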