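import Mathlib
import Pool.Agent.HO.StarA
import Pool.Agent.HO.Small

set_option linter.all false
set_option autoImplicit false

/-! Relators which are words in a and its conjugates by the other generators and their inverses. -/

namespace Pool.Agent.HO

open Function

/-- trivial relator -/
theorem pres_one_gen (N : ℕ) :
    Nonempty (PresentedGroup ({1} : Set (FreeGroup (Fin N))) ≃* FreeGroup (Fin N)) := by
  have h : ∀ w ∈ ({1} : Set (FreeGroup (Fin N))), FreeGroup.lift (fun i => FreeGroup.of i) w = 1 := by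
    intro w hw
    rw [Set.mem_singleton_iff.mp hw, map_one]
  have h1 : (PresentedGroup.toGroup h).comp (PresentedGroup.mk {1}) = MonoidHom.id _ := by
    refine FreeGroup.ext_hom _ _ (fun i => ?_)
    exact PresentedGroup.toGroup.of h
  refine ⟨MulEquiv.ofBijective (PresentedGroup.toGroup h) ⟨?_, ?_⟩⟩
  · rw [injective_iff_map_eq_one]
    intro x hx
    obtain ⟨w, rfl⟩ := PresentedGroup.mk_surjective _ x
    have h2 : w = 1 := by
      have := congrArg (fun g : FreeGroup (Fin N) →* FreeGroup (Fin N) => g w) h1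
      exact this.symm.trans hx
    rw [h2, map_one]
  · intro w
    exact ⟨PresentedGroup.mk _ w,
      congrArg (fun g : FreeGroup (Fin N) →* FreeGroup (Fin N) => g w) h1⟩

/-- if the first generator is trivial then the group is free on the others -/
theorem pres_killed (m : ℕ) (r : FreeGroup (Fin (m + 1))) (hr : killa m r = 1)
    (ha : PresentedGroup.mk ({r} : Set (FreeGroup (Fin (m + 1)))) (FreeGroup.of 0) = 1) :
    Nonempty (PresentedGroup ({r} : Set (FreeGroup (Fin (m + 1)))) ≃* FreeGroup (Fin m)) := by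
  let mk : FreeGroup (Fin (m + 1)) →* PresentedGroup ({r} : Set (FreeGroup (Fin (m + 1)))) :=
    PresentedGroup.mk {r}
  have hf : ∀ w ∈ ({r} : Set (FreeGroup (Fin (m + 1)))),
      FreeGroup.lift (Fin.cons (1 : FreeGroup (Fin m)) (fun i : Fin m => FreeGroup.of i)) w = 1 := by
    intro w hw
    rw [Set.mem_singleton_iff.1 hw]
    exact hr
  let g : PresentedGroup ({r} : Set (FreeGroup (Fin (m + 1)))) →* FreeGroup (Fin m) :=
    PresentedGroup.toGroup hf
  let b : FreeGroup (Fin m) →* PresentedGroup ({r} : Set (FreeGroup (Fin (m + 1)))) :=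
    FreeGroup.lift (fun i => mk (FreeGroup.of i.succ))
  have h7 : ∀ i : Fin m, g (mk (FreeGroup.of i.succ)) = FreeGroup.of i := by
    intro i
    refine Eq.trans (PresentedGroup.toGroup.of hf (x := i.succ)) ?_
    rw [Fin.cons_succ]
  have hgb : g.comp b = MonoidHom.id _ := by
    refine FreeGroup.ext_hom _ _ (fun i => ?_)
    rw [MonoidHom.comp_apply, FreeGroup.lift_apply_of, h7, MonoidHom.id_apply]
  have hbg : b.comp (g.comp mk) = mk := by
    refine FreeGroup.ext_hom _ _ (fun i => ?_)
    refine Fin.cases ?_ (fun i => ?_) i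
    · show b (g (mk (FreeGroup.of 0))) = mk (FreeGroup.of 0)
      have : mk (FreeGroup.of 0) = 1 := ha
      rw [this, map_one, map_one]
    · show b (g (mk (FreeGroup.of i.succ))) = mk (FreeGroup.of i.succ)
      rw [h7]
      show FreeGroup.lift (fun i => mk (FreeGroup.of i.succ)) (FreeGroup.of i) = _
      rw [FreeGroup.lift_apply_of]
  refine ⟨MulEquiv.ofBijective g ⟨?_, ?_⟩⟩
  · intro x y hxy
    obtain ⟨x, rfl⟩ := PresentedGroup.mk_surjective _ x
    obtain ⟨y, rfl⟩ := PresentedGroup.mk_surjective _ y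
    have e1 : b (g (mk x)) = mk x := congrArg (fun u : FreeGroup (Fin (m + 1)) →* _ => u x) hbg
    have e2 : b (g (mk y)) = mk y := congrArg (fun u : FreeGroup (Fin (m + 1)) →* _ => u y) hbg
    show mk x = mk y
    rw [← e1, ← e2]
    exact congrArg b hxy
  · intro w
    exact ⟨b w, congrArg (fun u : FreeGroup (Fin m) →* FreeGroup (Fin m) => u w) hgb⟩

/-- the relator -/
def relS (m n : ℕ) (g : Fin n → Fin m) (b : Fin n → Bool) (p : FreeGroup (Fin (n + 1))) :
    FreeGroup (Fin (m + 1)) :=
  FreeGroup.lift (cst m n g b (FreeGroup.of 0) (fun l => FreeGroup.of l.succ)) p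

theorem killa_relS (m n : ℕ) (g : Fin n → Fin m) (b : Fin n → Bool) (p : FreeGroup (Fin (n + 1))) :
    killa m (relS m n g b p) = 1 := by
  have h : (killa m).comp (FreeGroup.lift (cst m n g b (FreeGroup.of 0)
      (fun l => FreeGroup.of l.succ))) = 1 := by
    refine FreeGroup.ext_hom _ _ (fun i => ?_)
    rw [MonoidHom.comp_apply, FreeGroup.lift_apply_of]
    refine Fin.cases ?_ (fun i => ?_) i
    · simp [cst, killa]
    · simp only [cst, Fin.cons_succ]
      split_ifs <;> simp [killa]
  exact congrArg (fun g : FreeGroup (Fin (n + 1)) →* FreeGroup (Fin m) => g p) h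

theorem free_of_mem (m n : ℕ) (g : Fin n → Fin m) (b : Fin n → Bool)
    (p : FreeGroup (Fin (n + 1))) (j : Fin (n + 1))
    (h : FreeGroup.of j ∈ Subgroup.normalClosure ({p} : Set (FreeGroup (Fin (n + 1))))) :
    Nonempty (PresentedGroup ({relS m n g b p} : Set (FreeGroup (Fin (m + 1)))) ≃*
      FreeGroup (Fin m)) := by
  refine pres_killed m _ (killa_relS m n g b p) ?_
  let mk : FreeGroup (Fin (m + 1)) →*
      PresentedGroup ({relS m n g b p} : Set (FreeGroup (Fin (m + 1)))) := PresentedGroup.mk _
  let ψ := mk.comp (FreeGroup.lift (cst m n g b (FreeGroup.of 0) (fun l => FreeGroup.of l.succ)))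
  have h1 : ψ p = 1 := PresentedGroup.one_of_mem (Set.mem_singleton _)
  have h2 : Subgroup.normalClosure ({p} : Set (FreeGroup (Fin (n + 1)))) ≤ ψ.ker := by
    apply Subgroup.normalClosure_le_normal
    intro x hx
    rw [Set.mem_singleton_iff] at hx
    rw [hx]
    exact h1
  have h3 : mk (FreeGroup.lift (cst m n g b (FreeGroup.of 0) (fun l => FreeGroup.of l.succ))
      (FreeGroup.of j)) = 1 := h2 h
  rw [FreeGroup.lift_apply_of] at h3
  show mk (FreeGroup.of 0) = 1
  revert h3
  refine Fin.cases ?_ (fun i => ?_) j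
  · intro h3; exact h3
  · simp only [cst, Fin.cons_succ]
    split_ifs with hb
    · intro h3
      rw [map_mul, map_mul, map_inv, mul_inv_eq_one] at h3
      exact mul_eq_left.1 h3
    · intro h3
      rw [map_mul, map_mul, map_inv, mul_eq_one_iff_eq_inv] at h3
      exact mul_eq_left.1 h3

theorem expo_map (n N : ℕ) (π : Fin (n + 1) → Fin (N + 1)) (p : FreeGroup (Fin (n + 1)))
    (i : Fin (N + 1)) :
    expo N (FreeGroup.map π p) i = ∑ k, if π k = i then expo n p k else 0 := by
  let R : FreeGroup (Fin (n + 1)) →* Multiplicative ℤ :=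
    { toFun := fun p => Multiplicative.ofAdd (∑ k, if π k = i then expo n p k else 0)
      map_one' := by simp [expo_one]
      map_mul' := by
        intro p r
        rw [← ofAdd_add, ← Finset.sum_add_distrib]
        congr 1
        refine Finset.sum_congr rfl (fun k _ => ?_)
        rw [expo_mul]
        split_ifs <;> simp }
  have h : (FreeGroup.lift (fun k : Fin (N + 1) =>
      Multiplicative.ofAdd (if k = i then (1 : ℤ) else 0))).comp (FreeGroup.map π) = R := by
    refine FreeGroup.ext_hom _ _ (fun l => ?_)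
    rw [MonoidHom.comp_apply, FreeGroup.map.of, FreeGroup.lift_apply_of]
    show Multiplicative.ofAdd (if π l = i then (1 : ℤ) else 0) =
      Multiplicative.ofAdd (∑ k, if π k = i then expo n (FreeGroup.of l) k else 0)
    congr 1
    rw [Finset.sum_eq_single l]
    · rw [expo_of, if_pos rfl]
    · intro k _ hk
      rw [expo_of, if_neg (Ne.symm hk)]
      simp
    · simp
  exact congrArg (fun f : FreeGroup (Fin (n + 1)) →* Multiplicative ℤ =>
    Multiplicative.toAdd (f p)) h

/-- place of a letter on the line -/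
def plc (m n : ℕ) (g : Fin n → Fin m) (b : Fin n → Bool) : Fin (n + 1) → Fin (2 * m + 1) :=
  Fin.cons ⟨m, by omega⟩ (fun i => if b i then ⟨m + ((g i : ℕ) + 1), by omega⟩
    else ⟨m - ((g i : ℕ) + 1), by omega⟩)

theorem plc_inj (m n : ℕ) (g : Fin n → Fin m) (b : Fin n → Bool)
    (hinj : Injective (fun i => (g i, b i))) : Injective (plc m n g b) := by
  intro x y
  refine Fin.cases ?_ (fun i => ?_) x
  · refine Fin.cases ?_ (fun k => ?_) y
    · intro _; rfl
    · intro h
      exfalso
      simp only [plc, Fin.cons_zero, Fin.cons_succ] at h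
      have := (g k).isLt
      split_ifs at h with hb
      · have := congrArg Fin.val h; simp at this
      · have := congrArg Fin.val h; simp at this; omega
  · refine Fin.cases ?_ (fun k => ?_) y
    · intro h
      exfalso
      simp only [plc, Fin.cons_zero, Fin.cons_succ] at h
      have := (g i).isLt
      split_ifs at h with hb
      · have := congrArg Fin.val h; simp at this
      · have := congrArg Fin.val h; simp at this; omega
    · intro h
      simp only [plc, Fin.cons_succ] at h
      have h1 := (g i).isLt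
      have h2 := (g k).isLt
      have h3 : (g i, b i) = (g k, b k) := by
        cases hbi : b i <;> cases hbk : b k <;> rw [hbi, hbk] at h <;> simp at h <;>
          first
          | (refine Prod.ext (Fin.ext ?_) rfl; show (g i : ℕ) = g k; omega)
          | (exfalso; omega)
      rw [hinj h3]

theorem conj_line (m n : ℕ) (g : Fin n → Fin m) (b : Fin n → Bool)
    (p : FreeGroup (Fin (n + 1))) :
    IsConj (sp m (fun l => (((l : ℕ) + 1 : ℕ) : ℤ)) (relS m n g b p))
      (FreeGroup.lift (cjg (2 * m) (FreeGroup.of 0) (FreeGroup.of 1))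
        (FreeGroup.map (plc m n g b) p)) := by
  rw [isConj_iff]
  refine ⟨(FreeGroup.of 1) ^ m, ?_⟩
  let T : FreeGroup (Fin 2) := FreeGroup.of 1
  have h : (MulAut.conj (T ^ m)).toMonoidHom.comp
      ((sp m (fun l => (((l : ℕ) + 1 : ℕ) : ℤ))).comp
        (FreeGroup.lift (cst m n g b (FreeGroup.of 0) (fun l => FreeGroup.of l.succ)))) =
      (FreeGroup.lift (cjg (2 * m) (FreeGroup.of 0) T)).comp (FreeGroup.map (plc m n g b)) := by
    refine FreeGroup.ext_hom _ _ (fun k => ?_)
    rw [MonoidHom.comp_apply, MonoidHom.comp_apply, MonoidHom.comp_apply, FreeGroup.map.of,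
      FreeGroup.lift_apply_of, FreeGroup.lift_apply_of]
    show T ^ m * sp m _ (cst m n g b (FreeGroup.of 0) (fun l => FreeGroup.of l.succ) k) *
      (T ^ m)⁻¹ = cjg (2 * m) (FreeGroup.of 0) T (plc m n g b k)
    refine Fin.cases ?_ (fun i => ?_) k
    · simp [cst, sp, cjg, plc]
    · simp only [cst, plc, Fin.cons_succ]
      have hT : sp m (fun l => (((l : ℕ) + 1 : ℕ) : ℤ)) (FreeGroup.of (g i).succ) =
          T ^ ((g i : ℕ) + 1) := by
        rw [sp, FreeGroup.lift_apply_of, Fin.cons_succ, zpow_natCast]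
      have h0 : sp m (fun l => (((l : ℕ) + 1 : ℕ) : ℤ)) (FreeGroup.of 0) = FreeGroup.of 0 := by
        rw [sp, FreeGroup.lift_apply_of, Fin.cons_zero]
      have hlt := (g i).isLt
      cases hb : b i with
      | true =>
        rw [if_pos rfl, if_pos rfl, map_mul, map_mul, map_inv, hT, h0, cjg]
        show _ = T ^ (m + ((g i : ℕ) + 1)) * FreeGroup.of 0 * (T ^ (m + ((g i : ℕ) + 1)))⁻¹
        rw [pow_add T m ((g i : ℕ) + 1), mul_inv_rev]
        simp only [mul_assoc]
      | false =>
        rw [if_neg (by decide), if_neg (by decide), map_mul, map_mul, map_inv, hT, h0, cjg]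
        show _ = T ^ (m - ((g i : ℕ) + 1)) * FreeGroup.of 0 * (T ^ (m - ((g i : ℕ) + 1)))⁻¹
        have e : T ^ m = T ^ (m - ((g i : ℕ) + 1)) * T ^ ((g i : ℕ) + 1) := by
          rw [← pow_add]; congr 1; omega
        rw [e, mul_inv_rev]
        simp only [mul_assoc, mul_inv_cancel_left]
  exact congrArg (fun f : FreeGroup (Fin (n + 1)) →* FreeGroup (Fin 2) => f p) h

/-- evaluation in a finite group -/
theorem lift_relS {Q : Type} [Group Q] (m n : ℕ) (g : Fin n → Fin m) (b : Fin n → Bool) (a : Q)
    (t : Fin m → Q) (p : FreeGroup (Fin (n + 1))) :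
    FreeGroup.lift (Fin.cons (α := fun _ => Q) a t) (relS m n g b p) =
      FreeGroup.lift (cst m n g b a t) p := by
  have h : (FreeGroup.lift (Fin.cons (α := fun _ => Q) a t)).comp
      (FreeGroup.lift (cst m n g b (FreeGroup.of 0) (fun l => FreeGroup.of l.succ))) =
      FreeGroup.lift (cst m n g b a t) := by
    refine FreeGroup.ext_hom _ _ (fun k => ?_)
    rw [MonoidHom.comp_apply, FreeGroup.lift_apply_of, FreeGroup.lift_apply_of]
    refine Fin.cases ?_ (fun i => ?_) k
    · simp [cst]
    · simp only [cst, Fin.cons_succ]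
      split_ifs <;> simp
  exact congrArg (fun f : FreeGroup (Fin (n + 1)) →* Q => f p) h

theorem star (m n : ℕ) (g : Fin n → Fin m) (b : Fin n → Bool)
    (hinj : Injective (fun i => (g i, b i)))
    (φ : FreeGroup (Fin (n + 1)) ≃* FreeGroup (Fin (n + 1))) (k : ℤ) (d : ℕ)
    (hs : SameFiniteImages
      (PresentedGroup ({relS m n g b ((φ (FreeGroup.of 0)) ^ k)} : Set (FreeGroup (Fin (m + 1)))))
      (FreeGroup (Fin d))) :
    (∃ l : ℕ, Nonempty
      (PresentedGroup ({relS m n g b ((φ (FreeGroup.of 0)) ^ k)} :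
        Set (FreeGroup (Fin (m + 1)))) ≃* FreeGroup (Fin l))) ∨
    (¬ Injective g ∧ ∃ j : Fin (n + 1), j ≠ 0 ∧ ∃ ε : ℤ, (ε = 1 ∨ ε = -1) ∧
      ∀ i, expo n ((φ (FreeGroup.of 0)) ^ k) i = if i = j then ε else 0) := by
  by_cases hr1 : relS m n g b ((φ (FreeGroup.of 0)) ^ k) = 1
  · left
    rw [hr1]
    exact ⟨m + 1, pres_one_gen (m + 1)⟩
  set u := φ (FreeGroup.of 0) with hu
  set p := u ^ k with hp
  have hkill := killa_relS m n g b p
  have hc := conj_line m n g b p
  obtain ⟨q, hq, H, _, _, h, -, -, hw⟩ := exists_pgroup_gen _ _ hr1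
  have hsurv : ∃ (Q : Type) (_ : Group Q) (_ : Finite Q) (f : FreeGroup (Fin (m + 1)) →* Q),
      f (relS m n g b p) ≠ 1 := ⟨H, inferInstance, inferInstance, FreeGroup.lift h, hw⟩
  obtain ⟨hd, -⟩ := rank_lem m (2 * m) _ (FreeGroup.map (plc m n g b) p) _ hkill hc hsurv d hs
  obtain ⟨-, j', hj', he'⟩ := one_exp m (2 * m) _ (FreeGroup.map (plc m n g b) p) _ hkill hc hsurv d hs
  subst hd
  have hπ := plc_inj d n g b hinj
  have hexp : ∀ i, expo (2 * d) (FreeGroup.map (plc d n g b) p) (plc d n g b i) = expo n p i := by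
    intro i
    rw [expo_map, Finset.sum_eq_single i]
    · rw [if_pos rfl]
    · intro k _ hk
      rw [if_neg (fun h => hk (hπ h))]
    · simp
  obtain ⟨j, hj⟩ : ∃ j, plc d n g b j = j' := by
    by_contra hcon
    have h0 : expo (2 * d) (FreeGroup.map (plc d n g b) p) j' = 0 := by
      rw [expo_map]
      refine Finset.sum_eq_zero (fun i _ => ?_)
      rw [if_neg (fun h => hcon ⟨i, h⟩)]
    rw [h0] at hj'
    omega
  have hjp : expo n p j = 1 ∨ expo n p j = -1 := by
    rw [← hexp j, hj]; exact hj'
  have he : ∀ i, expo n p i = if i = j then expo n p j else 0 := by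
    intro i
    rw [← hexp i, he' (plc d n g b i), ← hj]
    by_cases h : i = j
    · rw [h, if_pos rfl, if_pos rfl, hexp]
    · rw [if_neg (fun h' => h (hπ h')), if_neg h]
  have hk1 : k = 1 ∨ k = -1 := by
    rw [hp, expo_zpow] at hjp
    have : IsUnit (k * expo n u j) := by
      rcases hjp with h | h <;> rw [h]
      · exact isUnit_one
      · exact isUnit_one.neg
    exact Int.isUnit_iff.mp (isUnit_of_mul_isUnit_left this)
  have hcl : Subgroup.normalClosure ({u} : Set (FreeGroup (Fin (n + 1)))) ≤
      Subgroup.normalClosure ({p} : Set (FreeGroup (Fin (n + 1)))) := by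
    apply Subgroup.normalClosure_le_normal
    intro x hx
    rw [Set.mem_singleton_iff.mp hx]
    have h1 : p ∈ Subgroup.normalClosure ({p} : Set (FreeGroup (Fin (n + 1)))) :=
      Subgroup.subset_normalClosure rfl
    have h2 := Subgroup.zpow_mem _ h1 k
    rw [hp, ← zpow_mul] at h2
    have h3 : k * k = 1 := by rcases hk1 with h | h <;> rw [h] <;> norm_num
    rw [h3, zpow_one] at h2
    exact h2
  by_cases hdel : delS n j p = 1
  · left
    have h1 : delS n j u = 1 := by
      rw [hp, map_zpow] at hdel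
      rcases hk1 with h | h
      · rwa [h, zpow_one] at hdel
      · rw [h, zpow_neg, zpow_one] at hdel
        exact inv_eq_one.mp hdel
    exact ⟨d, free_of_mem d n g b p j (hcl (hopf_del n φ j h1))⟩
  · by_cases hcase : j = 0 ∨ Injective g
    · exfalso
      obtain ⟨Q, _, _, a, t, h1, h2⟩ := star_quot d n g b hinj p j hcase (expo n p j)
        (by rcases hjp with h | h <;> rw [h] <;> norm_num) he hdel
      apply h2
      have h3 := a_dies d _ hkill hs Q (FreeGroup.lift (Fin.cons (α := fun _ => Q) a t))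
        ((lift_relS d n g b a t p).trans h1)
      rw [FreeGroup.lift_apply_of, Fin.cons_zero] at h3
      exact h3
    · right
      have hc' := not_or.mp hcase
      exact ⟨hc'.2, j, hc'.1, expo n p j, hjp, he⟩

end Pool.Agent.HO
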