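import Mathlib
import Pool.Agent.HO.ExtB
import Pool.Agent.HO.StarB

set_option linter.all false
set_option autoImplicit false

/-! Extra letters: the theorem. -/

namespace Pool.Agent.HO

open Function

/-- the relator in the generators a, t, s_1, .., s_k -/
def relE (n k : ℕ) (p : FreeGroup (Fin (n + 1) ⊕ Fin k)) : FreeGroup (Fin (k + 2)) :=
  FreeGroup.lift (cjs n k (FreeGroup.of 0) (FreeGroup.of 1) (fun l => FreeGroup.of l.succ.succ)) p

/-- t goes to t, the extra letters are deleted -/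
def cE (k : ℕ) : Fin (k + 1) → ℤ := Fin.cons 1 (fun _ => 0)

theorem sp_relE (n k : ℕ) (p : FreeGroup (Fin (n + 1) ⊕ Fin k)) :
    sp (k + 1) (cE k) (relE n k p) =
      FreeGroup.lift (cjg n (FreeGroup.of 0) (FreeGroup.of 1)) (base n k p) := by
  have h0 : sp (k + 1) (cE k) (FreeGroup.of 0) = FreeGroup.of 0 := by
    rw [sp, FreeGroup.lift_apply_of, Fin.cons_zero]
  have h1 : sp (k + 1) (cE k) (FreeGroup.of 1) = FreeGroup.of 1 := by
    have e : (1 : Fin (k + 1 + 1)) = Fin.succ 0 := by simp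
    rw [sp, FreeGroup.lift_apply_of, e, Fin.cons_succ, cE, Fin.cons_zero, zpow_one]
  have h2 : ∀ l : Fin k, sp (k + 1) (cE k) (FreeGroup.of l.succ.succ) = 1 := by
    intro l
    rw [sp, FreeGroup.lift_apply_of, Fin.cons_succ, cE, Fin.cons_succ, zpow_zero]
  have h : (sp (k + 1) (cE k)).comp (FreeGroup.lift (cjs n k (FreeGroup.of 0) (FreeGroup.of 1)
      (fun l => FreeGroup.of l.succ.succ))) =
      (FreeGroup.lift (cjg n (FreeGroup.of 0) (FreeGroup.of 1))).comp (base n k) := by
    refine FreeGroup.ext_hom _ _ (fun w => ?_)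
    rw [MonoidHom.comp_apply, MonoidHom.comp_apply, FreeGroup.lift_apply_of, base,
      FreeGroup.lift_apply_of]
    rcases w with i | l
    · simp only [cjs, Sum.elim_inl, cjg, FreeGroup.lift_apply_of, map_mul, map_inv, map_pow, h0, h1]
    · simp only [cjs, Sum.elim_inr, h2, map_one]
  exact congrArg (fun f : FreeGroup (Fin (n + 1) ⊕ Fin k) →* FreeGroup (Fin 2) => f p) h

theorem killa_relE (n k : ℕ) (p : FreeGroup (Fin (n + 1) ⊕ Fin k)) :
    killa (k + 1) (relE n k p) = FreeGroup.map Fin.succ (kill n k p) := by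
  have h0 : killa (k + 1) (FreeGroup.of 0) = 1 := by
    rw [killa, FreeGroup.lift_apply_of, Fin.cons_zero]
  have h2 : ∀ l : Fin k, killa (k + 1) (FreeGroup.of l.succ.succ) = FreeGroup.of l.succ := by
    intro l
    rw [killa, FreeGroup.lift_apply_of, Fin.cons_succ]
  have h : (killa (k + 1)).comp (FreeGroup.lift (cjs n k (FreeGroup.of 0) (FreeGroup.of 1)
      (fun l => FreeGroup.of l.succ.succ))) = (FreeGroup.map Fin.succ).comp (kill n k) := by
    refine FreeGroup.ext_hom _ _ (fun w => ?_)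
    rw [MonoidHom.comp_apply, MonoidHom.comp_apply, FreeGroup.lift_apply_of, kill,
      FreeGroup.lift_apply_of]
    rcases w with i | l
    · simp only [cjs, Sum.elim_inl, cjg, map_mul, map_inv, map_pow, h0, mul_one, mul_inv_cancel,
        map_one]
    · simp only [cjs, Sum.elim_inr, h2, FreeGroup.map.of]
  exact congrArg (fun f : FreeGroup (Fin (n + 1) ⊕ Fin k) →* FreeGroup (Fin (k + 1)) => f p) h

/-- evaluation -/
theorem lift_relE {Q : Type} [Group Q] (n k : ℕ) (a t : Q) (s : Fin k → Q)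
    (p : FreeGroup (Fin (n + 1) ⊕ Fin k)) :
    FreeGroup.lift (Fin.cons (α := fun _ => Q) a (Fin.cons (α := fun _ => Q) t s)) (relE n k p) =
      FreeGroup.lift (cjs n k a t s) p := by
  have h1 : (1 : Fin (k + 2)) = Fin.succ 0 := by simp
  have h : (FreeGroup.lift (Fin.cons (α := fun _ => Q) a (Fin.cons (α := fun _ => Q) t s))).comp
      (FreeGroup.lift (cjs n k (FreeGroup.of 0) (FreeGroup.of 1)
      (fun l => FreeGroup.of l.succ.succ))) = FreeGroup.lift (cjs n k a t s) := by
    refine FreeGroup.ext_hom _ _ (fun w => ?_)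
    rw [MonoidHom.comp_apply, FreeGroup.lift_apply_of, FreeGroup.lift_apply_of]
    rcases w with i | l
    · simp only [cjs, Sum.elim_inl, cjg, map_mul, map_inv, map_pow, FreeGroup.lift_apply_of,
        Fin.cons_zero]
      rw [h1, Fin.cons_succ, Fin.cons_zero]
    · simp only [cjs, Sum.elim_inr, FreeGroup.lift_apply_of, Fin.cons_succ]
  exact congrArg (fun f : FreeGroup (Fin (n + 1) ⊕ Fin k) →* Q => f p) h

theorem freeE_of_mem (n k : ℕ) (p : FreeGroup (Fin (n + 1) ⊕ Fin k)) (hkill : kill n k p = 1)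
    (j : Fin (n + 1)) (h : FreeGroup.of (Sum.inl j) ∈
      Subgroup.normalClosure ({p} : Set (FreeGroup (Fin (n + 1) ⊕ Fin k)))) :
    Nonempty (PresentedGroup ({relE n k p} : Set (FreeGroup (Fin (k + 2)))) ≃*
      FreeGroup (Fin (k + 1))) := by
  refine pres_killed (k + 1) _ (by rw [killa_relE, hkill, map_one]) ?_
  let mk : FreeGroup (Fin (k + 2)) →*
      PresentedGroup ({relE n k p} : Set (FreeGroup (Fin (k + 2)))) := PresentedGroup.mk _
  let ψ := mk.comp (FreeGroup.lift (cjs n k (FreeGroup.of 0) (FreeGroup.of 1)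
    (fun l => FreeGroup.of l.succ.succ)))
  have h1 : ψ p = 1 := PresentedGroup.one_of_mem (Set.mem_singleton _)
  have h2 : Subgroup.normalClosure ({p} : Set (FreeGroup (Fin (n + 1) ⊕ Fin k))) ≤ ψ.ker := by
    apply Subgroup.normalClosure_le_normal
    intro x hx
    rw [Set.mem_singleton_iff] at hx
    rw [hx]
    exact h1
  have h3 : mk (FreeGroup.lift (cjs n k (FreeGroup.of 0) (FreeGroup.of 1)
    (fun l => FreeGroup.of l.succ.succ)) (FreeGroup.of (Sum.inl j))) = 1 := h2 h
  rw [FreeGroup.lift_apply_of] at h3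
  show mk (FreeGroup.of 0) = 1
  simp only [cjs, Sum.elim_inl, cjg] at h3
  rw [map_mul, map_mul, map_inv, mul_inv_eq_one] at h3
  exact mul_eq_left.1 h3

theorem ex_zpow (n k : ℕ) (u : FreeGroup (Fin (n + 1) ⊕ Fin k)) (e : ℤ) (i : Fin (n + 1)) :
    ex n k (u ^ e) i = e * ex n k u i := by
  rw [ex, map_zpow, expo_zpow]; rfl

theorem outer_surj (k : ℕ) : Surjective (outer 2 k) := by
  intro w
  let f : FreeGroup (Fin 2 ⊕ Fin k) →* FreeGroup (Fin 3 ⊕ Fin k) :=
    FreeGroup.map (Sum.map (fun i : Fin 2 => if i = 0 then 0 else Fin.last 2) id)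
  refine ⟨f w, ?_⟩
  have h : (outer 2 k).comp f = MonoidHom.id _ := by
    refine FreeGroup.ext_hom _ _ (fun x => ?_)
    rcases x with i | l
    · fin_cases i <;> simp [outer, f] <;> rfl
    · simp [outer, f]
  exact congrArg (fun g : FreeGroup (Fin 2 ⊕ Fin k) →* FreeGroup (Fin 2 ⊕ Fin k) => g w) h

theorem del1_surj (k : ℕ) (j : Fin 2) : Surjective (del1 k j) := by
  intro w
  let f : FreeGroup (Fin 1 ⊕ Fin k) →* FreeGroup (Fin 2 ⊕ Fin k) :=
    FreeGroup.map (Sum.map (fun _ : Fin 1 => j + 1) id)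
  refine ⟨f w, ?_⟩
  have hj : j + 1 ≠ j := by fin_cases j <;> simp
  have h : (del1 k j).comp f = MonoidHom.id _ := by
    refine FreeGroup.ext_hom _ _ (fun x => ?_)
    rcases x with i | l
    · simp only [MonoidHom.comp_apply, f, FreeGroup.map.of, Sum.map_inl, del1,
        FreeGroup.lift_apply_of, Sum.elim_inl, if_neg hj, MonoidHom.id_apply]
      rw [Subsingleton.elim i 0]
    · simp [del1, f]
  exact congrArg (fun g : FreeGroup (Fin 1 ⊕ Fin k) →* FreeGroup (Fin 1 ⊕ Fin k) => g w) h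

theorem ext_main (n k : ℕ) (hn : 0 < n)
    (φ : FreeGroup (Fin (n + 1) ⊕ Fin k) ≃* FreeGroup (Fin (n + 1) ⊕ Fin k)) (e : ℤ)
    (hkill : kill n k ((φ (FreeGroup.of (Sum.inl 0))) ^ e) = 1) (d : ℕ)
    (hs : SameFiniteImages
      (PresentedGroup ({relE n k ((φ (FreeGroup.of (Sum.inl 0))) ^ e)} :
        Set (FreeGroup (Fin (k + 2))))) (FreeGroup (Fin d))) :
    (∃ l : ℕ, Nonempty
      (PresentedGroup ({relE n k ((φ (FreeGroup.of (Sum.inl 0))) ^ e)} :
        Set (FreeGroup (Fin (k + 2)))) ≃* FreeGroup (Fin l))) ∨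
    (2 ≤ n ∧ ∃ ε : ℤ, (ε = 1 ∨ ε = -1) ∧
      ((∀ i, ex n k ((φ (FreeGroup.of (Sum.inl 0))) ^ e) i = if i = 0 then ε else 0) ∨
      (∀ i, ex n k ((φ (FreeGroup.of (Sum.inl 0))) ^ e) i = if i = Fin.last n then ε else 0))) ∨
    (3 ≤ n ∧ outer n k ((φ (FreeGroup.of (Sum.inl 0))) ^ e) = 1) := by
  set u := φ (FreeGroup.of (Sum.inl 0)) with hu
  set p := u ^ e with hp
  by_cases hr1 : relE n k p = 1
  · left
    rw [hr1]
    exact ⟨k + 2, pres_one_gen (k + 2)⟩
  have hk1 : killa (k + 1) (relE n k p) = 1 := by rw [killa_relE, hkill, map_one]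
  have hc : IsConj (sp (k + 1) (cE k) (relE n k p))
      (FreeGroup.lift (cjg n (FreeGroup.of 0) (FreeGroup.of 1)) (base n k p)) := by
    rw [sp_relE]
  obtain ⟨q, hq, H, _, _, h, -, -, hw⟩ := exists_pgroup_gen _ _ hr1
  have hsurv : ∃ (Q : Type) (_ : Group Q) (_ : Finite Q) (f : FreeGroup (Fin (k + 1 + 1)) →* Q),
      f (relE n k p) ≠ 1 := ⟨H, inferInstance, inferInstance, FreeGroup.lift h, hw⟩
  obtain ⟨hd, -⟩ := rank_lem (k + 1) n (cE k) (base n k p) _ hk1 hc hsurv d hs
  obtain ⟨-, j, hj', he'⟩ := one_exp (k + 1) n (cE k) (base n k p) _ hk1 hc hsurv d hs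
  subst hd
  have hj : ex n k p j = 1 ∨ ex n k p j = -1 := hj'
  have he : ∀ i, ex n k p i = if i = j then ex n k p j else 0 := he'
  have hee : ex n k p j * ex n k p j = 1 := by
    rcases hj with h | h <;> rw [h] <;> norm_num
  -- every finite image kills a
  have hdie : ∀ (Q : Type) [Group Q] [Finite Q] (a t : Q) (s : Fin k → Q),
      FreeGroup.lift (cjs n k a t s) p = 1 → a = 1 := by
    intro Q _ _ a t s h1
    have h3 := a_dies (k + 1) _ hk1 hs Q
      (FreeGroup.lift (Fin.cons (α := fun _ => Q) a (Fin.cons (α := fun _ => Q) t s)))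
      ((lift_relE n k a t s p).trans h1)
    rw [FreeGroup.lift_apply_of, Fin.cons_zero] at h3
    exact h3
  have he1 : e = 1 ∨ e = -1 := by
    rw [hp, ex_zpow] at hj
    have : IsUnit (e * ex n k u j) := by
      rcases hj with h | h <;> rw [h]
      · exact isUnit_one
      · exact isUnit_one.neg
    exact Int.isUnit_iff.mp (isUnit_of_mul_isUnit_left this)
  have hcl : Subgroup.normalClosure ({u} : Set (FreeGroup (Fin (n + 1) ⊕ Fin k))) ≤
      Subgroup.normalClosure ({p} : Set (FreeGroup (Fin (n + 1) ⊕ Fin k))) := by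
    apply Subgroup.normalClosure_le_normal
    intro x hx
    rw [Set.mem_singleton_iff.mp hx]
    have h1 : p ∈ Subgroup.normalClosure ({p} : Set (FreeGroup (Fin (n + 1) ⊕ Fin k))) :=
      Subgroup.subset_normalClosure rfl
    have h2 := Subgroup.zpow_mem _ h1 e
    rw [hp, ← zpow_mul] at h2
    have h3 : e * e = 1 := by rcases he1 with h | h <;> rw [h] <;> norm_num
    rw [h3, zpow_one] at h2
    exact h2
  -- a homomorphism killing p kills u
  have hup : ∀ (Y : Type) (f : FreeGroup (Fin (n + 1) ⊕ Fin k) →* FreeGroup Y), f p = 1 →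
      f u = 1 := by
    intro Y f h1
    rw [hp, map_zpow] at h1
    rcases he1 with h | h
    · rwa [h, zpow_one] at h1
    · rw [h, zpow_neg, zpow_one] at h1
      exact inv_eq_one.mp h1
  rcases Nat.lt_or_ge n 2 with hn2 | hn2
  · -- n = 1
    have hn1 : n = 1 := by omega
    subst hn1
    left
    by_cases hdel : del1 k j p = 1
    · refine ⟨k + 1, freeE_of_mem 1 k p hkill j (hcl ?_)⟩
      refine hopf_fin ?_ φ (Sum.inl 0) (del1 k j) (del1_surj k j) (hup _ _ hdel) _ ?_
      · simp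
        omega
      · simp [del1]
    · exfalso
      obtain ⟨Q, _, _, a, t, s, h1, h2⟩ := one_quot k p j (ex 1 k p j) hee he hdel
      exact h2 (hdie Q a t s h1)
  · by_cases hj0 : j = 0
    · right; left; subst hj0; exact ⟨hn2, _, hj, Or.inl he⟩
    by_cases hjn : j = Fin.last n
    · right; left; subst hjn; exact ⟨hn2, _, hj, Or.inr he⟩
    by_cases hout : outer n k p = 1
    · rcases Nat.lt_or_ge n 3 with hn3 | hn3
      · have hn' : n = 2 := by omega
        subst hn'
        left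
        have hj1 : j = 1 := by
          have h1 := j.isLt
          have h2 : (j : ℕ) ≠ 0 := fun h => hj0 (Fin.ext h)
          have h3 : (j : ℕ) ≠ 2 := fun h => hjn (Fin.ext h)
          apply Fin.ext
          show (j : ℕ) = 1
          omega
        refine ⟨k + 1, freeE_of_mem 2 k p hkill 1 (hcl ?_)⟩
        refine hopf_fin ?_ φ (Sum.inl 0) (outer 2 k) (outer_surj k) (hup _ _ hout) _ ?_
        · simp
          omega
        · simp [outer]
      · right; right; exact ⟨hn3, hout⟩
    · exfalso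
      obtain ⟨Q, _, _, a, t, s, h1, h2⟩ := inner_quot n k p j hj0 hjn (ex n k p j) hee he hout
      exact h2 (hdie Q a t s h1)

end Pool.Agent.HO
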