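import Mathlib
import Pool.Agent.HO.ExtC

set_option linter.all false
set_option autoImplicit false

/-! The general necessary condition. -/

namespace Pool.Agent.HO

open Function

/-- p with a_j and the inner letters a_1, .., a_(n-1) deleted -/
def outJ (n k : ℕ) (j : Fin (n + 1)) :
    FreeGroup (Fin (n + 1) ⊕ Fin k) →* FreeGroup (Fin 2 ⊕ Fin k) :=
  FreeGroup.lift (Sum.elim (fun i : Fin (n + 1) => if i = j then 1 else
    if i = 0 then FreeGroup.of (Sum.inl 0) else
    if i = Fin.last n then FreeGroup.of (Sum.inl 1) else 1) (fun l => FreeGroup.of (Sum.inr l)))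

theorem outJ_inner (n k : ℕ) (j : Fin (n + 1)) (hj0 : j ≠ 0) (hjn : j ≠ Fin.last n) :
    outJ n k j = outer n k := by
  refine FreeGroup.ext_hom _ _ (fun w => ?_)
  rw [outJ, outer, FreeGroup.lift_apply_of, FreeGroup.lift_apply_of]
  rcases w with i | l
  · simp only [Sum.elim_inl]
    by_cases hi : i = j
    · subst hi
      rw [if_pos rfl, if_neg hj0, if_neg hjn]
    · rw [if_neg hi]
  · rfl

theorem outJ_one (k : ℕ) (j : Fin 2) (p : FreeGroup (Fin 2 ⊕ Fin k)) (h : del1 k j p = 1) :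
    outJ 1 k j p = 1 := by
  have e : (FreeGroup.map (Sum.map (fun _ : Fin 1 => if j = 0 then (1 : Fin 2) else 0) id)).comp
      (del1 k j) = outJ 1 k j := by
    refine FreeGroup.ext_hom _ _ (fun w => ?_)
    rw [MonoidHom.comp_apply, outJ, del1, FreeGroup.lift_apply_of, FreeGroup.lift_apply_of]
    rcases w with i | l
    · fin_cases j <;> fin_cases i <;> simp <;> rfl
    · simp
  have h2 := congrArg (fun f : FreeGroup (Fin 2 ⊕ Fin k) →* FreeGroup (Fin 2 ⊕ Fin k) => f p) e
  simp only [MonoidHom.comp_apply, h, map_one] at h2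
  exact h2.symm

/-- the specialisation: a stays, the generator number i goes to the word ζ i in t, s_1, .., s_k -/
def zet (m k : ℕ) (ζ : Fin m → FreeGroup (Fin (k + 1))) :
    FreeGroup (Fin (m + 1)) →* FreeGroup (Fin (k + 2)) :=
  FreeGroup.lift (Fin.cons (α := fun _ => FreeGroup (Fin (k + 2))) (FreeGroup.of 0)
    (fun i => FreeGroup.map Fin.succ (ζ i)))

/-- exponent sum of t in a word in t, s_1, .., s_k -/
def texp (k : ℕ) : FreeGroup (Fin (k + 1)) →* Multiplicative ℤ :=
  FreeGroup.lift (Fin.cons (α := fun _ => Multiplicative ℤ) (Multiplicative.ofAdd 1) (fun _ => 1))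

theorem sp_succ (k : ℕ) (w : FreeGroup (Fin (k + 1))) :
    sp (k + 1) (cE k) (FreeGroup.map Fin.succ w) =
      (FreeGroup.of 1) ^ (Multiplicative.toAdd (texp k w)) := by
  have h : (sp (k + 1) (cE k)).comp (FreeGroup.map Fin.succ) =
      (zpowersHom (FreeGroup (Fin 2)) (FreeGroup.of 1)).comp (texp k) := by
    refine FreeGroup.ext_hom _ _ (fun i => ?_)
    rw [MonoidHom.comp_apply, MonoidHom.comp_apply, FreeGroup.map.of, sp,
      FreeGroup.lift_apply_of, Fin.cons_succ, texp, FreeGroup.lift_apply_of]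
    refine Fin.cases ?_ (fun l => ?_) i
    · simp [cE]
    · simp [cE]
  have h2 := congrArg (fun f : FreeGroup (Fin (k + 1)) →* FreeGroup (Fin 2) => f w) h
  simpa [MonoidHom.comp_apply, zpowersHom_apply] using h2

theorem sp_zet (m k : ℕ) (ζ : Fin m → FreeGroup (Fin (k + 1))) (r : FreeGroup (Fin (m + 1))) :
    sp (k + 1) (cE k) (zet m k ζ r) =
      sp m (fun i => Multiplicative.toAdd (texp k (ζ i))) r := by
  have h0 : sp (k + 1) (cE k) (FreeGroup.of 0) = FreeGroup.of 0 := by
    rw [sp, FreeGroup.lift_apply_of, Fin.cons_zero]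
  have h : (sp (k + 1) (cE k)).comp (zet m k ζ) =
      sp m (fun i => Multiplicative.toAdd (texp k (ζ i))) := by
    refine FreeGroup.ext_hom _ _ (fun i => ?_)
    rw [MonoidHom.comp_apply, zet, FreeGroup.lift_apply_of]
    refine Fin.cases ?_ (fun l => ?_) i
    · rw [Fin.cons_zero, h0, sp, FreeGroup.lift_apply_of, Fin.cons_zero]
    · rw [Fin.cons_succ, sp_succ, sp, FreeGroup.lift_apply_of, Fin.cons_succ]
  exact congrArg (fun f : FreeGroup (Fin (m + 1)) →* FreeGroup (Fin 2) => f r) h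

theorem inner_general (m n k : ℕ) (hn : 0 < n) (r : FreeGroup (Fin (m + 1))) (hr1 : r ≠ 1)
    (hr : killa m r = 1) (ζ : Fin m → FreeGroup (Fin (k + 1)))
    (p : FreeGroup (Fin (n + 1) ⊕ Fin k)) (hc : IsConj (zet m k ζ r) (relE n k p)) (d : ℕ)
    (hs : SameFiniteImages (PresentedGroup ({r} : Set (FreeGroup (Fin (m + 1)))))
      (FreeGroup (Fin d))) :
    ∃ (j : Fin (n + 1)) (ε : ℤ), (ε = 1 ∨ ε = -1) ∧ (∀ i, ex n k p i = if i = j then ε else 0) ∧
      ((n = 1 ∨ (j ≠ 0 ∧ j ≠ Fin.last n)) → outJ n k j p = 1) := by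
  have hc2 : IsConj (sp m (fun i => Multiplicative.toAdd (texp k (ζ i))) r)
      (FreeGroup.lift (cjg n (FreeGroup.of 0) (FreeGroup.of 1)) (base n k p)) := by
    rw [← sp_zet, ← sp_relE]
    exact MonoidHom.map_isConj _ hc
  obtain ⟨q, hq, H, _, _, h, -, -, hw⟩ := exists_pgroup_gen _ _ hr1
  have hsurv : ∃ (Q : Type) (_ : Group Q) (_ : Finite Q) (f : FreeGroup (Fin (m + 1)) →* Q),
      f r ≠ 1 := ⟨H, inferInstance, inferInstance, FreeGroup.lift h, hw⟩
  obtain ⟨hd, -⟩ := rank_lem m n _ (base n k p) _ hr hc2 hsurv d hs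
  obtain ⟨-, j, hj', he'⟩ := one_exp m n _ (base n k p) _ hr hc2 hsurv d hs
  subst hd
  have hj : ex n k p j = 1 ∨ ex n k p j = -1 := hj'
  have he : ∀ i, ex n k p i = if i = j then ex n k p j else 0 := he'
  have hee : ex n k p j * ex n k p j = 1 := by
    rcases hj with h | h <;> rw [h] <;> norm_num
  have hdie : ∀ (Q : Type) [Group Q] [Finite Q] (a t : Q) (s : Fin k → Q),
      FreeGroup.lift (cjs n k a t s) p = 1 → a = 1 := by
    intro Q _ _ a t s h1
    let F : FreeGroup (Fin (k + 2)) →* Q :=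
      FreeGroup.lift (Fin.cons (α := fun _ => Q) a (Fin.cons (α := fun _ => Q) t s))
    have h2 : (F.comp (zet d k ζ)) r = 1 := by
      have h3 := MonoidHom.map_isConj F hc
      have h4 : F (relE n k p) = 1 := (lift_relE n k a t s p).trans h1
      rw [h4] at h3
      exact isConj_one_left.mp h3
    have h5 := a_dies d _ hr hs Q (F.comp (zet d k ζ)) h2
    rw [MonoidHom.comp_apply, zet, FreeGroup.lift_apply_of, Fin.cons_zero] at h5
    simpa [F] using h5
  refine ⟨j, ex n k p j, hj, he, ?_⟩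
  rintro (h1 | ⟨h0, hl⟩)
  · subst h1
    by_contra hout
    have hdel : del1 k j p ≠ 1 := fun h => hout (outJ_one k j p h)
    obtain ⟨Q, _, _, a, t, s, h1, h2⟩ := one_quot k p j (ex 1 k p j) hee he hdel
    exact h2 (hdie Q a t s h1)
  · by_contra hout
    rw [outJ_inner n k j h0 hl] at hout
    obtain ⟨Q, _, _, a, t, s, h1, h2⟩ := inner_quot n k p j h0 hl (ex n k p j) hee he hout
    exact h2 (hdie Q a t s h1)

end Pool.Agent.HO
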