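import Mathlib
import Pool.Agent.HO.ExtD

set_option linter.all false
set_option autoImplicit false

/-! The place of the exponent may be an end: one visible letter less. -/

namespace Pool.Agent.HO

open Function

section emb1

variable {L : Type} [Group L] {q : ℕ} [NeZero q] {n : ℕ}

/-- an embedding of the elementary abelian group of rank n with one visible element -/
def emb1 (s : Fin n → Fin (n + 1)) (j : Fin (n + 1)) (i0 : Fin n) (b : L) (hb : b ^ q = 1) :
    Multiplicative (Fin n → ZMod q) →* L × Multiplicative (Fin (n + 1) → ZMod q) where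
  toFun v := (pw b hb (Multiplicative.ofAdd (Multiplicative.toAdd v i0)),
    Multiplicative.ofAdd (fun k => if k = j then 0 else ∑ i, if s i = k then Multiplicative.toAdd v i else 0))
  map_one' := by
    ext
    · simp [pw_zero]
    · simp
  map_mul' v w := by
    refine Prod.ext ?_ ?_
    · simp only [toAdd_mul, Pi.add_apply, ofAdd_add, map_mul, Prod.fst_mul]
    · simp only [toAdd_mul, Prod.snd_mul]
      rw [← ofAdd_add]
      congr 1
      funext k
      simp only [Pi.add_apply]
      split_ifs with h
      · simp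
      · rw [← Finset.sum_add_distrib]
        refine Finset.sum_congr rfl (fun i _ => ?_)
        split_ifs <;> simp

theorem emb1_snd (s : Fin n → Fin (n + 1)) (hs : Injective s) (j : Fin (n + 1)) (i0 : Fin n)
    (b : L) (hb : b ^ q = 1) (v : Fin n → ZMod q) (i : Fin n) (hi : s i ≠ j) :
    Multiplicative.toAdd (emb1 s j i0 b hb (Multiplicative.ofAdd v)).2 (s i) = v i := by
  simp only [emb1, MonoidHom.coe_mk, OneHom.coe_mk, toAdd_ofAdd, if_neg hi]
  rw [Finset.sum_eq_single i]
  · simp
  · intro k _ hk
    rw [if_neg (fun h => hk (hs h))]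
  · simp

theorem emb1_inj (s : Fin n → Fin (n + 1)) (hs : Injective s) (j : Fin (n + 1)) (i0 : Fin n)
    (b : L) (hb : b ^ q = 1) (h0 : ∀ i, s i = j → i = i0 ∧ b ≠ 1) [Fact q.Prime] :
    Injective (emb1 s j i0 b hb) := by
  rw [injective_iff_map_eq_one]
  intro v hv
  obtain ⟨v, rfl⟩ := Multiplicative.ofAdd.surjective v
  have h2 : ∀ i : Fin n, s i ≠ j → v i = 0 := by
    intro i hi
    rw [← emb1_snd s hs j i0 b hb v i hi, hv]
    rfl
  have h3 := congrArg Prod.fst hv
  simp only [emb1, MonoidHom.coe_mk, OneHom.coe_mk, toAdd_ofAdd, Prod.fst_one] at h3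
  have h5 : v = 0 := by
    funext i
    by_cases hi : s i = j
    · obtain ⟨e1, e2⟩ := h0 i hi
      rw [e1]
      exact pw_inj b hb e2 _ h3
    · exact h2 i hi
  rw [h5]; rfl

theorem emb1_single (s : Fin n → Fin (n + 1)) (hs : Injective s) (j : Fin (n + 1)) (i0 : Fin n)
    (b : L) (hb : b ^ q = 1) [Fact (1 < q)] (i : Fin n) :
    emb1 s j i0 b hb (Multiplicative.ofAdd (Pi.single i 1)) =
      (if i = i0 then b else 1,
        if s i = j then 1 else Multiplicative.ofAdd (Pi.single (s i) (1 : ZMod q))) := by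
  refine Prod.ext ?_ ?_
  · simp only [emb1, MonoidHom.coe_mk, OneHom.coe_mk, toAdd_ofAdd]
    by_cases hi : i = i0
    · subst hi
      rw [Pi.single_eq_same, pw_one, if_pos rfl]
    · rw [Pi.single_eq_of_ne (Ne.symm hi), pw_zero, if_neg hi]
  · simp only [emb1, MonoidHom.coe_mk, OneHom.coe_mk, toAdd_ofAdd]
    by_cases h : s i = j
    · rw [if_pos h, ← ofAdd_zero]
      congr 1
      funext k
      by_cases hk : k = j
      · simp [hk]
      · rw [if_neg hk]
        refine Finset.sum_eq_zero (fun a _ => ?_)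
        by_cases ha : s a = k
        · rw [if_pos ha]
          have : a ≠ i := fun h' => hk (by rw [← ha, h', h])
          exact Pi.single_eq_of_ne this _
        · rw [if_neg ha]
    · rw [if_neg h]
      congr 1
      funext k
      by_cases hk : k = j
      · rw [if_pos hk, Pi.single_eq_of_ne (fun h' => h (h'.symm.trans hk))]
      · rw [if_neg hk, Finset.sum_eq_single i]
        · by_cases hs' : s i = k
          · rw [if_pos hs', hs', Pi.single_eq_same, Pi.single_eq_same]
          · rw [if_neg hs', Pi.single_eq_of_ne (Ne.symm hs')]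
        · intro a _ ha
          rw [Pi.single_eq_of_ne ha]
          simp
        · simp

end emb1

/-- from embeddings to the permutation -/
theorem perm_of_emb (n : ℕ) (q : ℕ) (L : Type) [Group L] [Finite L] [NeZero q]
    (f g : Multiplicative (Fin n → ZMod q) →* L × Multiplicative (Fin (n + 1) → ZMod q))
    (hf : Injective f) (hg : Injective g) (A : Fin (n + 1) → L × Multiplicative (Fin (n + 1) → ZMod q))
    (hfA : ∀ i : Fin n, f (Multiplicative.ofAdd (Pi.single i 1)) = A i.castSucc)
    (hgA : ∀ i : Fin n, g (Multiplicative.ofAdd (Pi.single i 1)) = A i.succ) :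
    ∃ τ : Equiv.Perm (L × Multiplicative (Fin (n + 1) → ZMod q)), ∀ i : ℕ, ∀ hi : i < n + 1,
      τ ^ i * rho _ (A 0) * (τ ^ i)⁻¹ = rho _ (A ⟨i, hi⟩) := by
  let K := L × Multiplicative (Fin (n + 1) → ZMod q)
  haveI : Finite K := inferInstance
  obtain ⟨τ, hτ⟩ := conj_perm f g hf hg
  refine ⟨τ, ?_⟩
  intro i
  induction i with
  | zero => intro hi; simp
  | succ i ih =>
    intro hi
    have h1 := ih (by omega)
    have h2 := hτ (Multiplicative.ofAdd (Pi.single ⟨i, by omega⟩ 1))
    rw [hfA, hgA] at h2
    have e1 : (Fin.castSucc (⟨i, by omega⟩ : Fin n)) = (⟨i, by omega⟩ : Fin (n + 1)) := rfl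
    have e2 : (Fin.succ (⟨i, by omega⟩ : Fin n)) = (⟨i + 1, hi⟩ : Fin (n + 1)) := rfl
    rw [e1, e2] at h2
    rw [← h2, ← h1, pow_succ']
    simp only [mul_inv_rev, mul_assoc]

theorem shift_perm_all (n : ℕ) (hn : 0 < n) (j : Fin (n + 1)) (q : ℕ)
    (hq : q.Prime) (L : Type) [Group L] [Finite L] [NeZero q] (x y c : L) (hx : x ^ q = 1)
    (hy : y ^ q = 1) (hc : c ∈ Subgroup.center L) (hcq : c ^ q = 1) (hc1 : c ≠ 1) :
    ∃ τ : Equiv.Perm (L × Multiplicative (Fin (n + 1) → ZMod q)), ∀ i : ℕ, ∀ hi : i < n + 1,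
      τ ^ i * rho _ (lett (q := q) n j x y c 0) * (τ ^ i)⁻¹ =
        rho _ (lett (q := q) n j x y c ⟨i, hi⟩) := by
  haveI : Fact q.Prime := ⟨hq⟩
  haveI : Fact (1 < q) := ⟨hq.one_lt⟩
  by_cases hj0 : j = 0
  · subst hj0
    refine perm_of_emb n q L (emb1 Fin.castSucc 0 ⟨0, hn⟩ c hcq)
      (emb1 Fin.succ 0 ⟨n - 1, by omega⟩ y hy) ?_ ?_ (lett n 0 x y c) ?_ ?_
    · refine emb1_inj _ (Fin.castSucc_injective n) _ _ _ _ ?_
      intro i hi
      refine ⟨?_, hc1⟩
      ext
      have := congrArg Fin.val hi
      simpa using this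
    · refine emb1_inj _ (Fin.succ_injective n) _ _ _ _ ?_
      intro i hi
      exact absurd hi (Fin.succ_ne_zero i)
    · intro i
      rw [emb1_single _ (Fin.castSucc_injective n)]
      simp only [lett]
      have h2 : i.castSucc = 0 ↔ i = ⟨0, hn⟩ := by
        constructor
        · intro h'
          ext
          have := congrArg Fin.val h'
          simpa using this
        · intro h'
          ext
          rw [h']; simp
      by_cases h : i.castSucc = 0
      · rw [if_pos h, if_pos h, if_pos (h2.mp h)]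
      · rw [if_neg h, if_neg h, if_neg h, if_neg (fun h' => h (h2.mpr h')),
          if_neg (Fin.castSucc_lt_last i).ne]
    · intro i
      rw [emb1_single _ (Fin.succ_injective n)]
      simp only [lett]
      rw [if_neg (Fin.succ_ne_zero i), if_neg (Fin.succ_ne_zero i), if_neg (Fin.succ_ne_zero i)]
      have h2 : i.succ = Fin.last n ↔ i = ⟨n - 1, by omega⟩ := by
        constructor
        · intro h'
          ext
          have := congrArg Fin.val h'
          simp at this
          show (i : ℕ) = n - 1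
          omega
        · intro h'
          ext
          rw [h']
          show n - 1 + 1 = n
          omega
      by_cases h : i = ⟨n - 1, by omega⟩
      · rw [if_pos h, if_pos (h2.mpr h)]
      · rw [if_neg h, if_neg (fun h' => h (h2.mp h'))]
  · by_cases hjn : j = Fin.last n
    · subst hjn
      refine perm_of_emb n q L (emb1 Fin.castSucc (Fin.last n) ⟨0, hn⟩ x hx)
        (emb1 Fin.succ (Fin.last n) ⟨n - 1, by omega⟩ c hcq) ?_ ?_ (lett n (Fin.last n) x y c) ?_ ?_
      · refine emb1_inj _ (Fin.castSucc_injective n) _ _ _ _ ?_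
        intro i hi
        exact absurd hi (Fin.castSucc_lt_last i).ne
      · refine emb1_inj _ (Fin.succ_injective n) _ _ _ _ ?_
        intro i hi
        refine ⟨?_, hc1⟩
        ext
        have := congrArg Fin.val hi
        simp at this
        show (i : ℕ) = n - 1
        omega
      · intro i
        rw [emb1_single _ (Fin.castSucc_injective n)]
        simp only [lett]
        rw [if_neg (Fin.castSucc_lt_last i).ne, if_neg (Fin.castSucc_lt_last i).ne,
          if_neg (Fin.castSucc_lt_last i).ne]
        have h2 : i.castSucc = 0 ↔ i = ⟨0, hn⟩ := by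
          constructor
          · intro h'
            ext
            have := congrArg Fin.val h'
            simpa using this
          · intro h'
            ext
            rw [h']; simp
        by_cases h : i = ⟨0, hn⟩
        · rw [if_pos h, if_pos (h2.mpr h)]
        · rw [if_neg h, if_neg (fun h' => h (h2.mp h'))]
      · intro i
        rw [emb1_single _ (Fin.succ_injective n)]
        simp only [lett]
        have h2 : i.succ = Fin.last n ↔ i = ⟨n - 1, by omega⟩ := by
          constructor
          · intro h'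
            ext
            have := congrArg Fin.val h'
            simp at this
            show (i : ℕ) = n - 1
            omega
          · intro h'
            ext
            rw [h']
            show n - 1 + 1 = n
            omega
        by_cases h : i.succ = Fin.last n
        · rw [if_pos h, if_pos h, if_pos (h2.mp h)]
        · rw [if_neg h, if_neg h, if_neg h, if_neg (fun h' => h (h2.mpr h')),
            if_neg (Fin.succ_ne_zero i)]
    · exact shift_perm n j hj0 hjn q hq L x y c hx hy hc hcq hc1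

theorem all_quot (n k : ℕ) (hn : 0 < n) (p : FreeGroup (Fin (n + 1) ⊕ Fin k)) (j : Fin (n + 1))
    (ε : ℤ) (hε : ε * ε = 1)
    (he : ∀ i, ex n k p i = if i = j then ε else 0) (hp : outJ n k j p ≠ 1) :
    ∃ (Q : Type) (_ : Group Q) (_ : Finite Q) (a t : Q) (s : Fin k → Q),
      FreeGroup.lift (cjs n k a t s) p = 1 ∧ a ≠ 1 := by
  obtain ⟨q, hq, L, _, _, g, hg, hz, hzq, hz1⟩ := central_any (outJ n k j p) hp
  haveI : Fact q.Prime := ⟨hq⟩
  haveI : NeZero q := ⟨hq.ne_zero⟩
  haveI : Fact (1 < q) := ⟨hq.one_lt⟩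
  set z := FreeGroup.lift g (outJ n k j p) with hzdef
  let c : L := z ^ (-ε)
  have hc : c ∈ Subgroup.center L := Subgroup.zpow_mem _ hz _
  have hcq : c ^ q = 1 := by
    show (z ^ (-ε)) ^ q = 1
    rw [← zpow_natCast, ← zpow_mul, mul_comm, zpow_mul, zpow_natCast, hzq, one_zpow]
  have hcε : c ^ ε = z⁻¹ := by
    show (z ^ (-ε)) ^ ε = z⁻¹
    rw [← zpow_mul, neg_mul, hε, zpow_neg, zpow_one]
  have hc1 : c ≠ 1 := by
    intro h
    rw [h, one_zpow] at hcε
    exact hz1 (inv_eq_one.mp hcε.symm)
  let x := g (Sum.inl 0)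
  let y := g (Sum.inl 1)
  obtain ⟨τ, hτ⟩ := shift_perm_all n hn j q hq L x y c (hg _) (hg _) hc hcq hc1
  let K := L × Multiplicative (Fin (n + 1) → ZMod q)
  haveI : Finite K := inferInstance
  let h : Fin (n + 1) ⊕ Fin k → L := Sum.elim (fun i => if i = j then 1 else if i = 0 then x else
    if i = Fin.last n then y else 1) (fun l => g (Sum.inr l))
  have hhj : h (Sum.inl j) = 1 := by
    show (if j = j then 1 else if j = 0 then x else if j = Fin.last n then y else 1) = 1
    rw [if_pos rfl]
  have hhz : FreeGroup.lift h p = z := by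
    have e : (FreeGroup.lift g).comp (outJ n k j) = FreeGroup.lift h := by
      refine FreeGroup.ext_hom _ _ (fun w => ?_)
      rw [MonoidHom.comp_apply, outJ, FreeGroup.lift_apply_of, FreeGroup.lift_apply_of]
      rcases w with i | l
      · simp only [Sum.elim_inl, h]
        split_ifs <;> simp [x, y]
      · simp only [Sum.elim_inr, h, FreeGroup.lift_apply_of]
    exact (congrArg (fun f : FreeGroup (Fin (n + 1) ⊕ Fin k) →* L => f p) e).symm
  let B : Fin (n + 1) ⊕ Fin k → K := fun w => (if w = Sum.inl j then c else h w, abl q j w)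
  have hB : ∀ i, B (Sum.inl i) = lett (q := q) n j x y c i := by
    intro i
    by_cases hi : i = j
    · subst hi
      simp [B, lett, abl]
    · have : ¬ (Sum.inl i : Fin (n + 1) ⊕ Fin k) = Sum.inl j := fun h' => hi (Sum.inl_injective h')
      simp only [B, lett, abl, if_neg hi, if_neg this, h, Sum.elim_inl]
  have hBp : FreeGroup.lift B p = 1 := by
    have e : FreeGroup.lift B = (FreeGroup.lift (fun w => if w = Sum.inl j then c else h w)).prod
        (FreeGroup.lift (abl q j)) := by
      refine FreeGroup.ext_hom _ _ (fun w => ?_)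
      rw [MonoidHom.prod_apply, FreeGroup.lift_apply_of, FreeGroup.lift_apply_of,
        FreeGroup.lift_apply_of]
    rw [e, MonoidHom.prod_apply, lift_central j c hc h hhj, lift_abl j p ε he, he j, if_pos rfl,
      hcε, hhz, inv_mul_cancel]
    rfl
  refine ⟨Equiv.Perm K, inferInstance, inferInstance, rho K (B (Sum.inl 0)), τ,
    fun l => rho K (B (Sum.inr l)), ?_, ?_⟩
  · have h1 : FreeGroup.lift (cjs n k (rho K (B (Sum.inl 0))) τ (fun l => rho K (B (Sum.inr l)))) =
        (rho K).comp (FreeGroup.lift B) := by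
      refine FreeGroup.ext_hom _ _ (fun w => ?_)
      rw [FreeGroup.lift_apply_of, MonoidHom.comp_apply, FreeGroup.lift_apply_of]
      rcases w with i | l
      · show τ ^ (i : ℕ) * rho K (B (Sum.inl 0)) * (τ ^ (i : ℕ))⁻¹ = rho K (B (Sum.inl i))
        rw [hB, hB]
        exact hτ i i.isLt
      · rfl
    rw [h1, MonoidHom.comp_apply, hBp, map_one]
  · intro h2
    have h3 : B (Sum.inl 0) = 1 := rho_inj K (by rw [h2, map_one])
    by_cases hj0 : (0 : Fin (n + 1)) = j
    · have h4 := congrArg Prod.fst h3
      simp only [B, ← hj0, if_true, Prod.fst_one] at h4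
      exact hc1 h4
    · have h4 := congrArg (fun w : K => Multiplicative.toAdd w.2 0) h3
      simp only [B, abl, Sum.elim_inl] at h4
      rw [if_neg hj0, toAdd_ofAdd, Pi.single_eq_same] at h4
      exact one_ne_zero h4

theorem necessary (m n k : ℕ) (hn : 0 < n) (r : FreeGroup (Fin (m + 1))) (hr1 : r ≠ 1)
    (hr : killa m r = 1) (ζ : Fin m → FreeGroup (Fin (k + 1)))
    (p : FreeGroup (Fin (n + 1) ⊕ Fin k)) (hc : IsConj (zet m k ζ r) (relE n k p)) (d : ℕ)
    (hs : SameFiniteImages (PresentedGroup ({r} : Set (FreeGroup (Fin (m + 1)))))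
      (FreeGroup (Fin d))) :
    ∃ (j : Fin (n + 1)) (ε : ℤ), (ε = 1 ∨ ε = -1) ∧ (∀ i, ex n k p i = if i = j then ε else 0) ∧
      outJ n k j p = 1 := by
  have hc2 : IsConj (sp m (fun i => Multiplicative.toAdd (texp k (ζ i))) r)
      (FreeGroup.lift (cjg n (FreeGroup.of 0) (FreeGroup.of 1)) (base n k p)) := by
    rw [← sp_zet, ← sp_relE]
    exact MonoidHom.map_isConj _ hc
  obtain ⟨q, hq, H, _, _, h, -, -, hw⟩ := exists_pgroup_gen _ _ hr1
  have hsurv : ∃ (Q : Type) (_ : Group Q) (_ : Finite Q) (f : FreeGroup (Fin (m + 1)) →* Q),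
      f r ≠ 1 := ⟨H, inferInstance, inferInstance, FreeGroup.lift h, hw⟩
  obtain ⟨hd, -⟩ := rank_lem m n _ (base n k p) _ hr hc2 hsurv d hs
  obtain ⟨-, j, hj', he'⟩ := one_exp m n _ (base n k p) _ hr hc2 hsurv d hs
  subst hd
  have hj : ex n k p j = 1 ∨ ex n k p j = -1 := hj'
  have he : ∀ i, ex n k p i = if i = j then ex n k p j else 0 := he'
  have hee : ex n k p j * ex n k p j = 1 := by
    rcases hj with h | h <;> rw [h] <;> norm_num
  have hdie : ∀ (Q : Type) [Group Q] [Finite Q] (a t : Q) (s : Fin k → Q),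
      FreeGroup.lift (cjs n k a t s) p = 1 → a = 1 := by
    intro Q _ _ a t s h1
    let F : FreeGroup (Fin (k + 2)) →* Q :=
      FreeGroup.lift (Fin.cons (α := fun _ => Q) a (Fin.cons (α := fun _ => Q) t s))
    have h2 : (F.comp (zet d k ζ)) r = 1 := by
      have h3 := MonoidHom.map_isConj F hc
      have h4 : F (relE n k p) = 1 := (lift_relE n k a t s p).trans h1
      rw [h4] at h3
      exact isConj_one_left.mp h3
    have h5 := a_dies d _ hr hs Q (F.comp (zet d k ζ)) h2
    rw [MonoidHom.comp_apply, zet, FreeGroup.lift_apply_of, Fin.cons_zero] at h5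
    simpa [F] using h5
  refine ⟨j, ex n k p j, hj, he, ?_⟩
  by_contra hout
  obtain ⟨Q, _, _, a, t, s, h1, h2⟩ := all_quot n k hn p j (ex n k p j) hee he hout
  exact h2 (hdie Q a t s h1)

end Pool.Agent.HO
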