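import Mathlib
import Pool.Agent.HO.ExtE

set_option linter.all false
set_option autoImplicit false

/-! Height at most one and short span. -/

namespace Pool.Agent.HO

open Function

theorem zet_id (k : ℕ) (r : FreeGroup (Fin (k + 2))) :
    zet (k + 1) k (fun i => FreeGroup.of i) r = r := by
  have h : zet (k + 1) k (fun i => FreeGroup.of i) = MonoidHom.id _ := by
    refine FreeGroup.ext_hom _ _ (fun i => ?_)
    rw [zet, FreeGroup.lift_apply_of]
    refine Fin.cases ?_ (fun l => ?_) i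
    · simp
    · simp
  rw [h]; rfl

theorem del1_of_outJ (k : ℕ) (j : Fin 2) (p : FreeGroup (Fin 2 ⊕ Fin k)) (h : outJ 1 k j p = 1) :
    del1 k j p = 1 := by
  have e : (FreeGroup.map (Sum.map (fun _ : Fin 2 => (0 : Fin 1)) id)).comp
      (outJ 1 k j) = del1 k j := by
    refine FreeGroup.ext_hom _ _ (fun w => ?_)
    rw [MonoidHom.comp_apply, outJ, del1, FreeGroup.lift_apply_of, FreeGroup.lift_apply_of]
    rcases w with i | l
    · fin_cases j <;> fin_cases i <;> simp
    · simp
  have h2 := congrArg (fun f : FreeGroup (Fin 2 ⊕ Fin k) →* FreeGroup (Fin 1 ⊕ Fin k) => f p) e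
  simp only [MonoidHom.comp_apply, h, map_one] at h2
  exact h2.symm

theorem span_main (n k : ℕ) (hn : 0 < n)
    (φ : FreeGroup (Fin (n + 1) ⊕ Fin k) ≃* FreeGroup (Fin (n + 1) ⊕ Fin k)) (e : ℤ)
    (hkill : kill n k ((φ (FreeGroup.of (Sum.inl 0))) ^ e) = 1) (d : ℕ)
    (hs : SameFiniteImages
      (PresentedGroup ({relE n k ((φ (FreeGroup.of (Sum.inl 0))) ^ e)} :
        Set (FreeGroup (Fin (k + 2))))) (FreeGroup (Fin d))) :
    (∃ l : ℕ, Nonempty
      (PresentedGroup ({relE n k ((φ (FreeGroup.of (Sum.inl 0))) ^ e)} :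
        Set (FreeGroup (Fin (k + 2)))) ≃* FreeGroup (Fin l))) ∨
    (∃ (j : Fin (n + 1)) (ε : ℤ), (ε = 1 ∨ ε = -1) ∧
      (∀ i, ex n k ((φ (FreeGroup.of (Sum.inl 0))) ^ e) i = if i = j then ε else 0) ∧
      outJ n k j ((φ (FreeGroup.of (Sum.inl 0))) ^ e) = 1 ∧ 2 ≤ n ∧
      (j = 0 ∨ j = Fin.last n ∨ 3 ≤ n)) := by
  set u := φ (FreeGroup.of (Sum.inl 0)) with hu
  set p := u ^ e with hp
  by_cases hr1 : relE n k p = 1
  · left
    rw [hr1]
    exact ⟨k + 2, pres_one_gen (k + 2)⟩
  have hk1 : killa (k + 1) (relE n k p) = 1 := by rw [killa_relE, hkill, map_one]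
  have hc : IsConj (zet (k + 1) k (fun i => FreeGroup.of i) (relE n k p)) (relE n k p) := by
    rw [zet_id]
  obtain ⟨j, ε, hε, he, hout⟩ := necessary (k + 1) n k hn (relE n k p) hr1 hk1 _ p hc d hs
  have hj : ex n k p j = 1 ∨ ex n k p j = -1 := by
    have := he j
    rw [if_pos rfl] at this
    rw [this]; exact hε
  have he1 : e = 1 ∨ e = -1 := by
    rw [hp, ex_zpow] at hj
    have : IsUnit (e * ex n k u j) := by
      rcases hj with h | h <;> rw [h]
      · exact isUnit_one
      · exact isUnit_one.neg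
    exact Int.isUnit_iff.mp (isUnit_of_mul_isUnit_left this)
  have hcl : Subgroup.normalClosure ({u} : Set (FreeGroup (Fin (n + 1) ⊕ Fin k))) ≤
      Subgroup.normalClosure ({p} : Set (FreeGroup (Fin (n + 1) ⊕ Fin k))) := by
    apply Subgroup.normalClosure_le_normal
    intro x hx
    rw [Set.mem_singleton_iff.mp hx]
    have h1 : p ∈ Subgroup.normalClosure ({p} : Set (FreeGroup (Fin (n + 1) ⊕ Fin k))) :=
      Subgroup.subset_normalClosure rfl
    have h2 := Subgroup.zpow_mem _ h1 e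
    rw [hp, ← zpow_mul] at h2
    have h3 : e * e = 1 := by rcases he1 with h | h <;> rw [h] <;> norm_num
    rw [h3, zpow_one] at h2
    exact h2
  -- a homomorphism killing p kills u
  have hup : ∀ (Y : Type) (f : FreeGroup (Fin (n + 1) ⊕ Fin k) →* FreeGroup Y), f p = 1 →
      f u = 1 := by
    intro Y f h1
    rw [hp, map_zpow] at h1
    rcases he1 with h | h
    · rwa [h, zpow_one] at h1
    · rw [h, zpow_neg, zpow_one] at h1
      exact inv_eq_one.mp h1
  rcases Nat.lt_or_ge n 2 with hn2 | hn2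
  · -- n = 1
    have hn1 : n = 1 := by omega
    subst hn1
    left
    have hdel := del1_of_outJ k j p hout
    refine ⟨k + 1, freeE_of_mem 1 k p hkill j (hcl ?_)⟩
    refine hopf_fin ?_ φ (Sum.inl 0) (del1 k j) (del1_surj k j) (hup _ _ hdel) _ ?_
    · simp
      omega
    · simp [del1]
  · by_cases hcase : j = 0 ∨ j = Fin.last n ∨ 3 ≤ n
    · right
      exact ⟨j, ε, hε, he, hout, hn2, hcase⟩
    · left
      have hj0 : j ≠ 0 := fun h => hcase (Or.inl h)
      have hjn : j ≠ Fin.last n := fun h => hcase (Or.inr (Or.inl h))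
      have hn' : n = 2 := by
        have : ¬ 3 ≤ n := fun h => hcase (Or.inr (Or.inr h))
        omega
      subst hn'
      rw [outJ_inner 2 k j hj0 hjn] at hout
      refine ⟨k + 1, freeE_of_mem 2 k p hkill 1 (hcl ?_)⟩
      refine hopf_fin ?_ φ (Sum.inl 0) (outer 2 k) (outer_surj k) (hup _ _ hout) _ ?_
      · simp
        omega
      · simp [outer]

end Pool.Agent.HO
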