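import Mathlib

/-!
# HO METAB: metabelian quotients

`Delta = sum_i E_i X^i` has two nonzero coefficients and `Delta(1) = 1` or `-1`. Take a prime `q`
larger than the absolute values of the two coefficients. Modulo `q` the polynomial is not a
monomial, so it has a root `x <> 0` in a finite field `F`, and `x <> 1`. In the permutations of `F`
let `a` be the translation by `1` and `t` the multiplication by `x`; `t^i a t^(-i)` is the
translation by `x^i`.
-/

set_option autoImplicit false

open Polynomial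

namespace Pool.Agent.HO

private theorem exists_fieldC (q : ℕ) [Fact q.Prime] (f : (ZMod q)[X]) (i k : ℕ) (hik : i ≠ k)
    (hi : f.coeff i ≠ 0) (hk : f.coeff k ≠ 0) : ∃ (F : Type) (_ : Field F) (_ : Finite F)
    (_ : Algebra (ZMod q) F) (x : F), x ≠ 0 ∧ aeval x f = 0 := by
  have hf : f ≠ 0 := by
    rintro rfl
    simp at hi
  obtain ⟨g, hg, hgd⟩ := Polynomial.exists_eq_pow_rootMultiplicity_mul_and_not_dvd f hf 0
  rw [C_0, sub_zero] at hg hgd
  set d := rootMultiplicity 0 f with hd
  have hdeg : g.degree ≠ 0 := by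
    intro h0
    rw [eq_C_of_degree_eq_zero h0] at hg
    have h1 : ∀ j, f.coeff j ≠ 0 → j = d := by
      intro j hj
      by_contra hne
      apply hj
      rw [hg, mul_comm, coeff_C_mul, coeff_X_pow, if_neg hne, mul_zero]
    exact hik ((h1 i hi).trans (h1 k hk).symm)
  have hFD : Finite (SplittingField g) := Module.finite_of_finite (ZMod q)
  obtain ⟨x, hx⟩ : ∃ x : SplittingField g, aeval x g = 0 := by
    have h2 := (SplittingField.splits g).exists_eval_eq_zero (by rwa [degree_map])
    obtain ⟨x, hx⟩ := h2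
    exact ⟨x, by rw [aeval_def, ← eval_map]; exact hx⟩
  refine ⟨SplittingField g, inferInstance, hFD, inferInstance, x, ?_, ?_⟩
  · rintro rfl
    apply hgd
    rw [X_dvd_iff]
    have h3 : aeval (0 : SplittingField g) g = algebraMap (ZMod q) (SplittingField g)
        (g.coeff 0) := by
      rw [aeval_def, eval₂_at_zero]
    rw [h3] at hx
    exact (algebraMap (ZMod q) (SplittingField g)).injective (by rw [hx, map_zero])
  · rw [hg, map_mul, hx, mul_zero]

private theorem lift_sum {n : ℕ} {F : Type} [Field F] (x : F) (w : FreeGroup (Fin (n + 1))) :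
    Multiplicative.toAdd (FreeGroup.lift (fun i : Fin (n + 1) =>
      Multiplicative.ofAdd (x ^ (i : ℕ))) w) =
    ∑ i : Fin (n + 1), Multiplicative.toAdd (FreeGroup.lift (fun k : Fin (n + 1) =>
      Multiplicative.ofAdd (if k = i then (1 : ℤ) else 0)) w) • x ^ (i : ℕ) := by
  induction w using FreeGroup.induction_on with
  | C1 => simp
  | of j =>
    simp only [FreeGroup.lift_apply_of, toAdd_ofAdd]
    rw [Finset.sum_eq_single j]
    · simp
    · intro b _ hb
      rw [if_neg (Ne.symm hb), zero_smul]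
    · intro h
      exact absurd (Finset.mem_univ j) h
  | inv_of j ih =>
    simp only [map_inv, toAdd_inv, neg_smul, Finset.sum_neg_distrib] at ih ⊢
    rw [ih]
  | mul u v hu hv =>
    simp only [map_mul, toAdd_mul, add_smul, Finset.sum_add_distrib]
    rw [hu, hv]

/-- the translation by `c` -/
private def tr {F : Type} [Field F] : Multiplicative F →* Equiv.Perm F where
  toFun c := Equiv.addLeft (Multiplicative.toAdd c)
  map_one' := by
    ext x
    simp
  map_mul' c d := by
    ext x
    simp

theorem metabC (n : ℕ) (p : FreeGroup (Fin (n + 1))) (E : Fin (n + 1) → ℤ)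
    (hE : ∀ i, Multiplicative.toAdd (FreeGroup.lift (fun k : Fin (n + 1) =>
      Multiplicative.ofAdd (if k = i then (1 : ℤ) else 0)) p) = E i)
    (hs : |∑ i, E i| = 1) (i k : Fin (n + 1)) (hik : i ≠ k) (hi : E i ≠ 0) (hk : E k ≠ 0) :
    ∃ (Q : Type) (_ : Group Q) (_ : Finite Q) (a t : Q),
      FreeGroup.lift (fun i : Fin (n + 1) => t ^ (i : ℕ) * a * (t ^ (i : ℕ))⁻¹) p = 1 ∧
        a * t ≠ t * a ∧ ∀ m : ℕ, Commute (t ^ m * a * (t ^ m)⁻¹) a := by
  obtain ⟨q, hqB, hq⟩ := Nat.exists_infinite_primes ((E i).natAbs + (E k).natAbs + 1)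
  have hF : Fact q.Prime := ⟨hq⟩
  have hne : ∀ e : ℤ, e ≠ 0 → e.natAbs < q → (e : ZMod q) ≠ 0 := by
    intro e he heq h0
    rw [ZMod.intCast_zmod_eq_zero_iff_dvd] at h0
    have h1 := Int.natAbs_dvd_natAbs.2 h0
    rw [Int.natAbs_natCast] at h1
    have h2 := Nat.le_of_dvd (Int.natAbs_pos.2 he) h1
    omega
  set f : (ZMod q)[X] := ∑ j : Fin (n + 1), C ((E j : ℤ) : ZMod q) * X ^ (j : ℕ) with hf
  have hcoeff : ∀ j : Fin (n + 1), f.coeff j = ((E j : ℤ) : ZMod q) := by
    intro j
    rw [hf, finsetSum_coeff, Finset.sum_eq_single j]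
    · rw [coeff_C_mul, coeff_X_pow, if_pos rfl, mul_one]
    · intro b _ hb
      rw [coeff_C_mul, coeff_X_pow, if_neg, mul_zero]
      intro h
      exact hb (Fin.ext h.symm)
    · intro h
      exact absurd (Finset.mem_univ j) h
  obtain ⟨F, _, _, _, x, hx0, hxf⟩ := exists_fieldC q f i k (fun h => hik (Fin.ext h))
    (by rw [hcoeff]; exact hne _ hi (by omega)) (by rw [hcoeff]; exact hne _ hk (by omega))
  have hsum : ∑ j : Fin (n + 1), (E j) • x ^ (j : ℕ) = 0 := by
    rw [← hxf, hf, map_sum]
    refine Finset.sum_congr rfl fun j _ => ?_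
    rw [map_mul, aeval_C, map_pow, aeval_X, map_intCast, zsmul_eq_mul]
  have hx1 : x ≠ 1 := by
    rintro rfl
    simp only [one_pow] at hsum
    rw [← Finset.sum_smul] at hsum
    rcases (abs_eq (by norm_num : (0 : ℤ) ≤ 1)).1 hs with h | h
    · rw [h] at hsum
      simp at hsum
    · rw [h] at hsum
      simp at hsum
  set a : Equiv.Perm F := tr (Multiplicative.ofAdd 1) with ha
  set t : Equiv.Perm F := Equiv.mulLeft₀ x hx0 with ht
  have htp : ∀ (m : ℕ) (y : F), (t ^ m) y = x ^ m * y := by
    intro m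
    induction m with
    | zero => intro y; simp
    | succ m ih =>
      intro y
      rw [pow_succ, Equiv.Perm.mul_apply, ih, ht, Equiv.mulLeft₀_apply, pow_succ]
      ring
  have hconj : ∀ m : ℕ, t ^ m * a * (t ^ m)⁻¹ = tr (Multiplicative.ofAdd (x ^ m)) := by
    intro m
    rw [mul_inv_eq_iff_eq_mul]
    ext y
    rw [Equiv.Perm.mul_apply, Equiv.Perm.mul_apply, htp, htp]
    show x ^ m * (1 + y) = x ^ m + x ^ m * y
    ring
  refine ⟨Equiv.Perm F, inferInstance, inferInstance, a, t, ?_, ?_, ?_⟩
  · have h1 : (fun i : Fin (n + 1) => t ^ (i : ℕ) * a * (t ^ (i : ℕ))⁻¹) =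
        fun i : Fin (n + 1) => tr (Multiplicative.ofAdd (x ^ (i : ℕ))) := by
      funext i
      exact hconj i
    rw [h1]
    have h2 : FreeGroup.lift (fun i : Fin (n + 1) => (tr (Multiplicative.ofAdd (x ^ (i : ℕ))) :
        Equiv.Perm F)) p =
        tr (FreeGroup.lift (fun i : Fin (n + 1) => Multiplicative.ofAdd (x ^ (i : ℕ))) p) := by
      rw [← MonoidHom.comp_apply]
      congr 1
      apply FreeGroup.ext_hom
      intro j
      rw [MonoidHom.comp_apply, FreeGroup.lift_apply_of, FreeGroup.lift_apply_of]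
    rw [h2]
    have h3 := lift_sum x p
    simp only [hE] at h3
    rw [hsum] at h3
    have h4 : FreeGroup.lift (fun i : Fin (n + 1) => Multiplicative.ofAdd (x ^ (i : ℕ))) p = 1 := by
      apply Multiplicative.toAdd.injective
      rw [h3, toAdd_one]
    rw [h4, map_one]
  · intro h
    have h1 := congrArg (fun g : Equiv.Perm F => g 0) h
    simp only [Equiv.Perm.mul_apply] at h1
    have h2 : a (t 0) = 1 := by
      have h4 : t 0 = 0 := mul_zero x
      rw [h4]
      show (1 : F) + 0 = 1
      rw [add_zero]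
    have h3 : t (a 0) = x := by
      show x * (1 + 0) = x
      rw [add_zero, mul_one]
    rw [h2, h3] at h1
    exact hx1 h1.symm
  · intro m
    rw [hconj m, ha]
    exact (Commute.all (Multiplicative.ofAdd (x ^ m)) (Multiplicative.ofAdd (1 : F))).map
      (tr (F := F))

end Pool.Agent.HO
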