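import Mathlib
import Pool.Agent.HO.ExtE
import Pool.Agent.HO.MetabC

set_option linter.all false
set_option autoImplicit false

/-! The necessary condition modulo the commutators of near conjugates. -/

namespace Pool.Agent.HO

open Function
open scoped commutatorElement

/-- the commutators of a with t^i a t^-i and of t^i a t^-i with the extra letters, 0 < i < n -/
def near (n k : ℕ) : Set (FreeGroup (Fin (k + 2))) :=
  {w | ∃ i : ℕ, 0 < i ∧ i < n ∧
    (w = ⁅(FreeGroup.of 1 : FreeGroup (Fin (k + 2))) ^ i * FreeGroup.of 0 *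
        ((FreeGroup.of 1 : FreeGroup (Fin (k + 2))) ^ i)⁻¹,
        (FreeGroup.of 0 : FreeGroup (Fin (k + 2)))⁆ ∨
      ∃ l : Fin k, w = ⁅(FreeGroup.of 1 : FreeGroup (Fin (k + 2))) ^ i * FreeGroup.of 0 *
        ((FreeGroup.of 1 : FreeGroup (Fin (k + 2))) ^ i)⁻¹,
        (FreeGroup.of l.succ.succ : FreeGroup (Fin (k + 2)))⁆)}

/-- the rank is m and the exponent sum is plus or minus one, unless the relator dies -/
theorem rank_key (m : ℕ) (s : ℤ) (r : FreeGroup (Fin (m + 1))) (hr : killa m r = 1)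
    (key : ∀ (Q : Type) [CommGroup Q] (f : FreeGroup (Fin (m + 1)) →* Q),
      f r = (f (FreeGroup.of 0)) ^ s)
    (hsurv : ∃ (Q : Type) (_ : Group Q) (_ : Finite Q) (f : FreeGroup (Fin (m + 1)) →* Q), f r ≠ 1)
    (d : ℕ) (hs : SameFiniteImages (PresentedGroup ({r} : Set (FreeGroup (Fin (m + 1)))))
      (FreeGroup (Fin d))) :
    d = m ∧ (s = 1 ∨ s = -1) := by
  -- images of the group
  have G1 : ∀ N k, (∃ f : FreeGroup (Fin (m + 1)) →* El N k, Surjective f ∧ f r = 1) → 2 ≤ N →
      k ≤ d := by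
    intro N k h hN
    haveI : NeZero N := ⟨by omega⟩
    obtain ⟨g, hg⟩ := (hs (El N k)).mp ((pres_onto r (El N k)).mpr h)
    exact free_le N k d hN g hg
  have G2 : ∀ N k, 2 ≤ N → k ≤ d →
      ∃ f : FreeGroup (Fin (m + 1)) →* El N k, Surjective f ∧ f r = 1 := by
    intro N k hN hk
    haveI : NeZero N := ⟨by omega⟩
    exact (pres_onto r (El N k)).mp ((hs (El N k)).mpr (onto_El N k d (by omega) hk))
  -- m ≤ d
  have hmd : m ≤ d := by
    obtain ⟨f, hf⟩ := onto_El 2 m m (by norm_num) le_rfl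
    refine G1 2 m ⟨f.comp (killa m), hf.comp (killa_surj m), ?_⟩ le_rfl
    rw [MonoidHom.comp_apply, hr, map_one]
  have hdvd : ∀ N : ℕ, 2 ≤ N → (N : ℤ) ∣ s → m + 1 ≤ d := by
    intro N hN hNs
    obtain ⟨f, hf⟩ := onto_El N (m + 1) (m + 1) (by omega) le_rfl
    refine G1 N (m + 1) ⟨f, hf, ?_⟩ hN
    obtain ⟨k, hk⟩ := hNs
    rw [key, hk, zpow_mul, zpow_natCast, El_pow, one_zpow]
  have hcop : ∀ N : ℕ, 2 ≤ N → IsCoprime (N : ℤ) s → d ≤ m := by
    intro N hN hNs
    obtain ⟨f, hf, hfr⟩ := G2 N d hN le_rfl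
    refine free_le_of_kill N d m hN f hf ?_
    obtain ⟨u, v, huv⟩ := hNs
    rw [key] at hfr
    have h1 : f (FreeGroup.of 0) ^ (u * (N : ℤ) + v * s) = 1 := by
      rw [zpow_add, mul_comm u, mul_comm v, zpow_mul, zpow_mul, zpow_natCast, El_pow, hfr, one_zpow,
        one_zpow, one_mul]
    rwa [huv, zpow_one] at h1
  rcases Nat.lt_trichotomy s.natAbs 1 with h | h | h
  · -- s = 0
    exfalso
    have h0 : s = 0 := by omega
    have hd1 : m + 1 ≤ d := hdvd 2 le_rfl (by rw [h0]; exact dvd_zero _)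
    have hd2 : d ≤ m + 1 := by
      obtain ⟨f, hf, -⟩ := G2 2 d le_rfl le_rfl
      exact free_le 2 d (m + 1) le_rfl f hf
    have hd : d = m + 1 := le_antisymm hd2 hd1
    subst hd
    obtain ⟨Q, _, _, f, hf⟩ := hsurv
    exact hf (r_dies m r hs Q f)
  · have h1 : s = 1 ∨ s = -1 := by omega
    refine ⟨?_, h1⟩
    refine le_antisymm (hcop 2 le_rfl ?_) hmd
    rcases h1 with h1 | h1
    · rw [h1]; exact isCoprime_one_right
    · rw [h1]; exact isCoprime_one_right.neg_right
  · exfalso
    have hd1 : m + 1 ≤ d := hdvd s.natAbs (by omega) (Int.natAbs_dvd.mpr dvd_rfl)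
    have hd2 : d ≤ m := by
      refine hcop (s.natAbs + 1) (by omega) ?_
      have h3 : ((s.natAbs + 1 : ℕ) : ℤ) = (s.natAbs : ℤ) + 1 := Nat.cast_succ _
      rcases Int.natAbs_eq s with h2 | h2
      · exact ⟨1, -1, by rw [h3]; omega⟩
      · exact ⟨1, 1, by rw [h3]; omega⟩
    omega

/-- the quotient, with the commuting conjugates -/
theorem all_quotC (n k : ℕ) (hn : 0 < n) (p : FreeGroup (Fin (n + 1) ⊕ Fin k)) (j : Fin (n + 1))
    (ε : ℤ) (hε : ε * ε = 1)
    (he : ∀ i, ex n k p i = if i = j then ε else 0) (hp : outJ n k j p ≠ 1) :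
    ∃ (Q : Type) (_ : Group Q) (_ : Finite Q) (a t : Q) (s : Fin k → Q),
      FreeGroup.lift (cjs n k a t s) p = 1 ∧ a ≠ 1 ∧
      ∀ i : ℕ, 0 < i → i < n → Commute (t ^ i * a * (t ^ i)⁻¹) a ∧
        ∀ l, Commute (t ^ i * a * (t ^ i)⁻¹) (s l) := by
  obtain ⟨q, hq, L, _, _, g, hg, hz, hzq, hz1⟩ := central_any (outJ n k j p) hp
  haveI : Fact q.Prime := ⟨hq⟩
  haveI : NeZero q := ⟨hq.ne_zero⟩
  haveI : Fact (1 < q) := ⟨hq.one_lt⟩
  set z := FreeGroup.lift g (outJ n k j p) with hzdef
  let c : L := z ^ (-ε)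
  have hc : c ∈ Subgroup.center L := Subgroup.zpow_mem _ hz _
  have hcq : c ^ q = 1 := by
    show (z ^ (-ε)) ^ q = 1
    rw [← zpow_natCast, ← zpow_mul, mul_comm, zpow_mul, zpow_natCast, hzq, one_zpow]
  have hcε : c ^ ε = z⁻¹ := by
    show (z ^ (-ε)) ^ ε = z⁻¹
    rw [← zpow_mul, neg_mul, hε, zpow_neg, zpow_one]
  have hc1 : c ≠ 1 := by
    intro h
    rw [h, one_zpow] at hcε
    exact hz1 (inv_eq_one.mp hcε.symm)
  let x := g (Sum.inl 0)
  let y := g (Sum.inl 1)
  obtain ⟨τ, hτ⟩ := shift_perm_all n hn j q hq L x y c (hg _) (hg _) hc hcq hc1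
  let K := L × Multiplicative (Fin (n + 1) → ZMod q)
  haveI : Finite K := inferInstance
  let h : Fin (n + 1) ⊕ Fin k → L := Sum.elim (fun i => if i = j then 1 else if i = 0 then x else
    if i = Fin.last n then y else 1) (fun l => g (Sum.inr l))
  have hhj : h (Sum.inl j) = 1 := by
    show (if j = j then 1 else if j = 0 then x else if j = Fin.last n then y else 1) = 1
    rw [if_pos rfl]
  have hhz : FreeGroup.lift h p = z := by
    have e : (FreeGroup.lift g).comp (outJ n k j) = FreeGroup.lift h := by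
      refine FreeGroup.ext_hom _ _ (fun w => ?_)
      rw [MonoidHom.comp_apply, outJ, FreeGroup.lift_apply_of, FreeGroup.lift_apply_of]
      rcases w with i | l
      · simp only [Sum.elim_inl, h]
        split_ifs <;> simp [x, y]
      · simp only [Sum.elim_inr, h, FreeGroup.lift_apply_of]
    exact (congrArg (fun f : FreeGroup (Fin (n + 1) ⊕ Fin k) →* L => f p) e).symm
  let B : Fin (n + 1) ⊕ Fin k → K := fun w => (if w = Sum.inl j then c else h w, abl q j w)
  have hB : ∀ i, B (Sum.inl i) = lett (q := q) n j x y c i := by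
    intro i
    by_cases hi : i = j
    · subst hi
      simp [B, lett, abl]
    · have : ¬ (Sum.inl i : Fin (n + 1) ⊕ Fin k) = Sum.inl j := fun h' => hi (Sum.inl_injective h')
      simp only [B, lett, abl, if_neg hi, if_neg this, h, Sum.elim_inl]
  have hBp : FreeGroup.lift B p = 1 := by
    have e : FreeGroup.lift B = (FreeGroup.lift (fun w => if w = Sum.inl j then c else h w)).prod
        (FreeGroup.lift (abl q j)) := by
      refine FreeGroup.ext_hom _ _ (fun w => ?_)
      rw [MonoidHom.prod_apply, FreeGroup.lift_apply_of, FreeGroup.lift_apply_of,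
        FreeGroup.lift_apply_of]
    rw [e, MonoidHom.prod_apply, lift_central j c hc h hhj, lift_abl j p ε he, he j, if_pos rfl,
      hcε, hhz, inv_mul_cancel]
    rfl
  have hcen : ∀ (i : ℕ) (hi0 : 0 < i) (hin : i < n), ∀ u : K,
      Commute (B (Sum.inl ⟨i, by omega⟩)) u := by
    intro i hi0 hin u
    have h0 : (⟨i, by omega⟩ : Fin (n + 1)) ≠ 0 := by
      intro h'; have := congrArg Fin.val h'; simp at this; omega
    have hl : (⟨i, by omega⟩ : Fin (n + 1)) ≠ Fin.last n := by
      intro h'; have := congrArg Fin.val h'; simp at this; omega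
    have e0 : (B (Sum.inl ⟨i, by omega⟩)).1 ∈ Subgroup.center L := by
      show (if (Sum.inl (⟨i, _⟩ : Fin (n + 1)) : Fin (n + 1) ⊕ Fin k) = Sum.inl j then c
        else h (Sum.inl ⟨i, _⟩)) ∈ Subgroup.center L
      split_ifs with hij
      · exact hc
      · have e1 : h (Sum.inl (⟨i, by omega⟩ : Fin (n + 1))) = 1 := by
          show (if (⟨i, _⟩ : Fin (n + 1)) = j then 1 else if (⟨i, _⟩ : Fin (n + 1)) = 0 then x else
            if (⟨i, _⟩ : Fin (n + 1)) = Fin.last n then y else 1) = 1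
          rw [if_neg h0, if_neg hl]
          split_ifs <;> rfl
        rw [e1]
        exact Subgroup.one_mem _
    refine Prod.ext ?_ ?_
    · exact ((Subgroup.mem_center_iff.mp e0) u.1).symm
    · exact mul_comm _ _
  refine ⟨Equiv.Perm K, inferInstance, inferInstance, rho K (B (Sum.inl 0)), τ,
    fun l => rho K (B (Sum.inr l)), ?_, ?_, ?_⟩
  · have h1 : FreeGroup.lift (cjs n k (rho K (B (Sum.inl 0))) τ (fun l => rho K (B (Sum.inr l)))) =
        (rho K).comp (FreeGroup.lift B) := by
      refine FreeGroup.ext_hom _ _ (fun w => ?_)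
      rw [FreeGroup.lift_apply_of, MonoidHom.comp_apply, FreeGroup.lift_apply_of]
      rcases w with i | l
      · show τ ^ (i : ℕ) * rho K (B (Sum.inl 0)) * (τ ^ (i : ℕ))⁻¹ = rho K (B (Sum.inl i))
        rw [hB, hB]
        exact hτ i i.isLt
      · rfl
    rw [h1, MonoidHom.comp_apply, hBp, map_one]
  · intro h2
    have h3 : B (Sum.inl 0) = 1 := rho_inj K (by rw [h2, map_one])
    by_cases hj0 : (0 : Fin (n + 1)) = j
    · have h4 := congrArg Prod.fst h3
      simp only [B, ← hj0, if_true, Prod.fst_one] at h4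
      exact hc1 h4
    · have h4 := congrArg (fun w : K => Multiplicative.toAdd w.2 0) h3
      simp only [B, abl, Sum.elim_inl] at h4
      rw [if_neg hj0, toAdd_ofAdd, Pi.single_eq_same] at h4
      exact one_ne_zero h4
  · intro i hi0 hin
    have e1 : τ ^ i * rho K (B (Sum.inl 0)) * (τ ^ i)⁻¹ =
        rho K (B (Sum.inl ⟨i, by omega⟩)) := by
      rw [hB, hB]
      exact hτ i (by omega)
    rw [e1]
    exact ⟨(hcen i hi0 hin _).map (rho K), fun l => (hcen i hi0 hin _).map (rho K)⟩

theorem nearC {Q : Type} [Group Q] (n k : ℕ) (a t : Q) (s : Fin k → Q)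
    (F : FreeGroup (Fin (k + 2)) →* Q) (h0 : F (FreeGroup.of 0) = a) (h1 : F (FreeGroup.of 1) = t)
    (h2 : ∀ l : Fin k, F (FreeGroup.of l.succ.succ) = s l)
    (hcom : ∀ i : ℕ, 0 < i → i < n → Commute (t ^ i * a * (t ^ i)⁻¹) a ∧
        ∀ l, Commute (t ^ i * a * (t ^ i)⁻¹) (s l))
    (w : FreeGroup (Fin (k + 2))) (hw : w ∈ Subgroup.normalClosure (near n k)) : F w = 1 := by
  have h : Subgroup.normalClosure (near n k) ≤ F.ker := by
    apply Subgroup.normalClosure_le_normal
    rintro w ⟨i, hi0, hin, hw | ⟨l, hw⟩⟩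
    · show F w = 1
      rw [hw, map_commutatorElement, map_mul, map_mul, map_inv, map_pow, h0, h1]
      exact commutatorElement_eq_one_iff_commute.mpr (hcom i hi0 hin).1
    · show F w = 1
      rw [hw, map_commutatorElement, map_mul, map_mul, map_inv, map_pow, h0, h1, h2]
      exact commutatorElement_eq_one_iff_commute.mpr ((hcom i hi0 hin).2 l)
  exact h hw

theorem necessaryC (m n k : ℕ) (hn : 0 < n) (r : FreeGroup (Fin (m + 1))) (hr1 : r ≠ 1)
    (hr : killa m r = 1) (ζ : Fin m → FreeGroup (Fin (k + 1)))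
    (p : FreeGroup (Fin (n + 1) ⊕ Fin k)) (w : FreeGroup (Fin (k + 2)))
    (hw : w ∈ Subgroup.normalClosure (near n k))
    (hc : IsConj (zet m k ζ r) (relE n k p * w)) (d : ℕ)
    (hs : SameFiniteImages (PresentedGroup ({r} : Set (FreeGroup (Fin (m + 1)))))
      (FreeGroup (Fin d))) :
    ∃ (j : Fin (n + 1)) (ε : ℤ), (ε = 1 ∨ ε = -1) ∧ (∀ i, ex n k p i = if i = j then ε else 0) ∧
      outJ n k j p = 1 := by
  have hone : (1 : Fin (k + 2)) = Fin.succ 0 := by simp
  -- abelian images
  have key : ∀ (Q : Type) [CommGroup Q] (f : FreeGroup (Fin (m + 1)) →* Q),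
      f r = (f (FreeGroup.of 0)) ^ (∑ i, ex n k p i) := by
    intro Q _ f
    let α := f (FreeGroup.of 0)
    let g : FreeGroup (Fin (k + 2)) →* Q :=
      FreeGroup.lift (Fin.cons (α := fun _ => Q) α (fun _ => 1))
    let f2 : FreeGroup (Fin m) →* Q := FreeGroup.lift (fun i => f (FreeGroup.of i.succ))
    have hg0 : g (FreeGroup.of 0) = α := by simp [g]
    have hgs : ∀ v : FreeGroup (Fin (k + 1)), g (FreeGroup.map Fin.succ v) = 1 := by
      intro v
      have e : g.comp (FreeGroup.map Fin.succ) = 1 := by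
        refine FreeGroup.ext_hom _ _ (fun i => ?_)
        simp [g]
      exact congrArg (fun u : FreeGroup (Fin (k + 1)) →* Q => u v) e
    have h1 : f = (g.comp (zet m k ζ)) * (f2.comp (killa m)) := by
      refine FreeGroup.ext_hom _ _ (fun i => ?_)
      rw [MonoidHom.mul_apply, MonoidHom.comp_apply, MonoidHom.comp_apply, zet,
        FreeGroup.lift_apply_of]
      refine Fin.cases ?_ (fun i => ?_) i
      · simp [killa, hg0, α]
      · rw [Fin.cons_succ, hgs]
        simp [killa, f2]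
    have h2 : g (zet m k ζ r) = g (relE n k p) * g w := by
      have := MonoidHom.map_isConj g hc
      rw [isConj_iff_eq.mp this, map_mul]
    have h3 : g w = 1 := by
      refine nearC n k α 1 (fun _ => 1) g hg0 ?_ ?_ ?_ w hw
      · rw [hone]; simp [g]
      · intro l; simp [g]
      · intro i _ _
        exact ⟨Commute.all _ _, fun l => Commute.all _ _⟩
    have h4 : g (relE n k p) = α ^ (∑ i, ex n k p i) := by
      have e : g = (FreeGroup.lift (Fin.cons (α := fun _ => Q) α
          (Fin.cons (α := fun _ => Q) 1 (fun _ : Fin k => 1)))) := by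
        refine FreeGroup.ext_hom _ _ (fun i => ?_)
        refine Fin.cases ?_ (fun i => ?_) i
        · simp [g]
        · refine Fin.cases ?_ (fun i => ?_) i
          · simp [g]
          · simp [g]
      rw [e, lift_relE]
      have e2 : FreeGroup.lift (cjs n k α 1 (fun _ : Fin k => (1 : Q))) =
          (FreeGroup.lift (fun _ : Fin (n + 1) => α)).comp (base n k) := by
        refine FreeGroup.ext_hom _ _ (fun x => ?_)
        rw [MonoidHom.comp_apply, FreeGroup.lift_apply_of, base, FreeGroup.lift_apply_of]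
        rcases x with i | l
        · simp [cjs, cjg]
        · simp [cjs]
      rw [e2, MonoidHom.comp_apply, lift_const]
      rfl
    have h5 : f r = g (zet m k ζ r) * f2 (killa m r) :=
      congrArg (fun u : FreeGroup (Fin (m + 1)) →* Q => u r) h1
    rw [h5, hr, map_one, mul_one, h2, h3, mul_one, h4]
  obtain ⟨q, hq, H, _, _, h, -, -, hw'⟩ := exists_pgroup_gen _ _ hr1
  have hsurv : ∃ (Q : Type) (_ : Group Q) (_ : Finite Q) (f : FreeGroup (Fin (m + 1)) →* Q),
      f r ≠ 1 := ⟨H, inferInstance, inferInstance, FreeGroup.lift h, hw'⟩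
  obtain ⟨hd, hsum⟩ := rank_key m (∑ i, ex n k p i) r hr key hsurv d hs
  subst hd
  have hdie : ∀ (Q : Type) [Group Q] [Finite Q] (a t : Q) (s : Fin k → Q),
      FreeGroup.lift (cjs n k a t s) p = 1 →
      (∀ i : ℕ, 0 < i → i < n → Commute (t ^ i * a * (t ^ i)⁻¹) a ∧
        ∀ l, Commute (t ^ i * a * (t ^ i)⁻¹) (s l)) → a = 1 := by
    intro Q _ _ a t s h1 hcom
    let F : FreeGroup (Fin (k + 2)) →* Q :=
      FreeGroup.lift (Fin.cons (α := fun _ => Q) a (Fin.cons (α := fun _ => Q) t s))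
    have hFw : F w = 1 := by
      refine nearC n k a t s F ?_ ?_ ?_ hcom w hw
      · simp [F]
      · rw [hone]; simp [F]
      · intro l; simp [F]
    have h2 : (F.comp (zet d k ζ)) r = 1 := by
      have h3 := MonoidHom.map_isConj F hc
      have h4 : F (relE n k p) = 1 := (lift_relE n k a t s p).trans h1
      rw [map_mul, h4, hFw, one_mul] at h3
      exact isConj_one_left.mp h3
    have h5 := a_dies d _ hr hs Q (F.comp (zet d k ζ)) h2
    rw [MonoidHom.comp_apply, zet, FreeGroup.lift_apply_of, Fin.cons_zero] at h5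
    simpa [F] using h5
  -- two nonzero exponents
  have htwo : ∀ i l, i ≠ l → ex n k p i ≠ 0 → ex n k p l ≠ 0 → False := by
    intro i l hil hi hl
    obtain ⟨Q, _, _, a, t, h1, h2, h3⟩ := metabC n (base n k p) (ex n k p) (fun i => rfl)
      (by rcases hsum with h | h <;> rw [h] <;> norm_num) i l hil hi hl
    apply h2
    have h4 : FreeGroup.lift (cjs n k a t (fun _ : Fin k => (1 : Q))) p = 1 := by
      have e2 : FreeGroup.lift (cjs n k a t (fun _ : Fin k => (1 : Q))) =
          (FreeGroup.lift (fun i : Fin (n + 1) => t ^ (i : ℕ) * a * (t ^ (i : ℕ))⁻¹)).comp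
            (base n k) := by
        refine FreeGroup.ext_hom _ _ (fun x => ?_)
        rw [MonoidHom.comp_apply, FreeGroup.lift_apply_of, base, FreeGroup.lift_apply_of]
        rcases x with i | l
        · simp [cjs, cjg]
        · simp [cjs]
      rw [e2, MonoidHom.comp_apply, h1]
    have h5 := hdie Q a t (fun _ => 1) h4 (fun i _ _ => ⟨h3 i, fun l => Commute.one_right _⟩)
    rw [h5, one_mul, mul_one]
  obtain ⟨j, hj⟩ : ∃ j, ex n k p j ≠ 0 := by
    by_contra hcon
    have hcon' : ∀ i, ex n k p i = 0 := fun i => by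
      by_contra h; exact hcon ⟨i, h⟩
    rw [Finset.sum_eq_zero (fun i _ => hcon' i)] at hsum
    omega
  have hz : ∀ i, i ≠ j → ex n k p i = 0 := by
    intro i hi
    by_contra h
    exact htwo i j hi h hj
  have hsj : ∑ i, ex n k p i = ex n k p j := Finset.sum_eq_single j (fun i _ hi => hz i hi) (by simp)
  rw [hsj] at hsum
  have he : ∀ i, ex n k p i = if i = j then ex n k p j else 0 := by
    intro i
    by_cases h : i = j
    · rw [if_pos h]
      rw [h]
    · rw [if_neg h, hz i h]
  have hee : ex n k p j * ex n k p j = 1 := by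
    rcases hsum with h | h <;> rw [h] <;> norm_num
  refine ⟨j, ex n k p j, hsum, he, ?_⟩
  by_contra hout
  obtain ⟨Q, _, _, a, t, s, h1, h2, h3⟩ := all_quotC n k hn p j (ex n k p j) hee he hout
  exact h2 (hdie Q a t s h1 h3)

end Pool.Agent.HO
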