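import Mathlib
import Pool.Agent.HO.ExtG

set_option linter.all false
set_option autoImplicit false

/-! All letters but one sent to powers of one letter. -/

namespace Pool.Agent.HO

open Function
open scoped commutatorElement

section emb

variable {n q : ℕ} {K : Type} [Group K] [NeZero q] [Fact q.Prime]

/-- the homomorphism given by commuting elements of order dividing q -/
noncomputable def cem (B : Fin n → K) (hq : ∀ i, B i ^ q = 1) (hc : ∀ i l, Commute (B i) (B l)) :
    (Fin n → Multiplicative (ZMod q)) →* K :=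
  MonoidHom.noncommPiCoprod (fun i => pw (B i) (hq i)) (fun i l _ x y => by
    show Commute (B i ^ _) (B l ^ _)
    exact (hc i l).pow_pow _ _)

theorem cem_single (B : Fin n → K) (hq : ∀ i, B i ^ q = 1) (hc : ∀ i l, Commute (B i) (B l))
    (i : Fin n) (x : Multiplicative (ZMod q)) :
    cem B hq hc (Pi.mulSingle i x) = pw (B i) (hq i) x := by
  rw [cem, MonoidHom.noncommPiCoprod_mulSingle]

/-- a separating family of homomorphisms gives injectivity -/
theorem cem_inj (B : Fin n → K) (hq : ∀ i, B i ^ q = 1) (hc : ∀ i l, Commute (B i) (B l))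
    (P : Fin n → Prop) (χ : ∀ i, K →* Multiplicative (ZMod q))
    (hχ : ∀ i, P i → ∀ l, χ i (B l) = if l = i then Multiplicative.ofAdd 1 else 1)
    (hone : ∀ i l, ¬ P i → ¬ P l → i = l) (hne : ∀ i, ¬ P i → B i ≠ 1) :
    Injective (cem B hq hc) := by
  haveI : Fact (1 < q) := ⟨(Fact.out : q.Prime).one_lt⟩
  rw [injective_iff_map_eq_one]
  intro e he
  have hgen : ∀ x : Multiplicative (ZMod q),
      x = (Multiplicative.ofAdd (1 : ZMod q)) ^ (ZMod.val (Multiplicative.toAdd x)) := by
    intro x
    rw [← ofAdd_nsmul, nsmul_one, ZMod.natCast_zmod_val, ofAdd_toAdd]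
  have h1 : ∀ i, P i → e i = 1 := by
    intro i hi
    have h2 : (χ i).comp (cem B hq hc) =
        Pi.evalMonoidHom (fun _ : Fin n => Multiplicative (ZMod q)) i := by
      apply MonoidHom.functions_ext'
      intro l
      refine MonoidHom.ext (fun x => ?_)
      rw [MonoidHom.comp_apply, MonoidHom.comp_apply, MonoidHom.comp_apply,
        MonoidHom.mulSingle_apply, cem_single, Pi.evalMonoidHom_apply]
      show (χ i) (B l ^ _) = _
      rw [map_pow, hχ i hi l]
      by_cases hl : l = i
      · subst hl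
        rw [if_pos rfl, Pi.mulSingle_eq_same]
        exact (hgen x).symm
      · rw [if_neg hl, one_pow, Pi.mulSingle_eq_of_ne (Ne.symm hl)]
    have h3 := congrArg (fun f : (Fin n → Multiplicative (ZMod q)) →* Multiplicative (ZMod q) =>
      f e) h2
    simp only [MonoidHom.comp_apply, he, map_one, Pi.evalMonoidHom_apply] at h3
    exact h3.symm
  by_cases hall : ∀ i, P i
  · funext i
    exact h1 i (hall i)
  · push Not at hall
    obtain ⟨i, hi⟩ := hall
    have h2 : e = Pi.mulSingle i (e i) := by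
      funext l
      by_cases hl : l = i
      · subst hl; rw [Pi.mulSingle_eq_same]
      · rw [Pi.mulSingle_eq_of_ne hl]
        apply h1
        by_contra hP
        exact hl (hone l i hP hi)
    have h3 : pw (B i) (hq i) (e i) = 1 := by
      rw [← cem_single B hq hc, ← h2, he]
    have h4 : Multiplicative.toAdd (e i) = 0 := by
      apply pw_inj (B i) (hq i) (hne i hi)
      rw [ofAdd_toAdd]
      exact h3
    funext l
    by_cases hl : l = i
    · subst hl
      have h5 := congrArg Multiplicative.ofAdd h4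
      rw [ofAdd_toAdd] at h5
      exact h5
    · apply h1
      by_contra hP
      exact hl (hone l i hP hi)

end emb

/-- a permutation shifting a family -/
theorem shift_fam (n q : ℕ) (hq : q.Prime) (K : Type) [Group K] [Finite K] [NeZero q]
    (B : Fin (n + 1) → K) (hB : ∀ i, B i ^ q = 1) (hc : ∀ i l, Commute (B i) (B l))
    (j : Fin (n + 1)) (χ : Fin (n + 1) → (K →* Multiplicative (ZMod q)))
    (hχ : ∀ i, i ≠ j → ∀ l, χ i (B l) = if l = i then Multiplicative.ofAdd 1 else 1)
    (hj : B j ≠ 1) :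
    ∃ τ : Equiv.Perm K, ∀ i : ℕ, ∀ hi : i < n + 1,
      τ ^ i * rho _ (B 0) * (τ ^ i)⁻¹ = rho _ (B ⟨i, hi⟩) := by
  haveI : Fact q.Prime := ⟨hq⟩
  haveI : Fact (1 < q) := ⟨hq.one_lt⟩
  have key : ∀ s : Fin n → Fin (n + 1), Injective s →
      Injective (cem (fun i => B (s i)) (fun i => hB (s i)) (fun i l => hc (s i) (s l))) := by
    intro s hs
    refine cem_inj _ _ _ (fun i => s i ≠ j) (fun i => χ (s i)) ?_ ?_ ?_
    · intro i hi l
      rw [hχ (s i) hi (s l)]
      by_cases h : l = i
      · rw [if_pos h, if_pos (congrArg s h)]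
      · rw [if_neg h, if_neg (fun h' => h (hs h'))]
    · intro i l hi hl
      have hi' : s i = j := not_not.mp hi
      have hl' : s l = j := not_not.mp hl
      exact hs (hi'.trans hl'.symm)
    · intro i hi
      have hi' : s i = j := not_not.mp hi
      show B (s i) ≠ 1
      rw [hi']
      exact hj
  obtain ⟨τ, hτ⟩ := conj_perm _ _ (key Fin.castSucc (Fin.castSucc_injective n))
    (key Fin.succ (Fin.succ_injective n))
  refine ⟨τ, ?_⟩
  intro i
  induction i with
  | zero => intro hi; simp
  | succ i ih =>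
    intro hi
    have h1 := ih (by omega)
    have h2 := hτ (Pi.mulSingle ⟨i, by omega⟩ (Multiplicative.ofAdd 1))
    rw [cem_single, cem_single, pw_one, pw_one] at h2
    have e1 : (Fin.castSucc (⟨i, by omega⟩ : Fin n)) = (⟨i, by omega⟩ : Fin (n + 1)) := rfl
    have e2 : (Fin.succ (⟨i, by omega⟩ : Fin n)) = (⟨i + 1, hi⟩ : Fin (n + 1)) := rfl
    rw [e1, e2] at h2
    rw [← h2, ← h1, pow_succ']
    simp only [mul_inv_rev, mul_assoc]

/-- p with a_j deleted and every other a_i replaced by the power μ i of one letter -/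
def powJ (n k : ℕ) (j : Fin (n + 1)) (μ : Fin (n + 1) → ℤ) :
    FreeGroup (Fin (n + 1) ⊕ Fin k) →* FreeGroup (Fin (k + 1)) :=
  FreeGroup.lift (Sum.elim (fun i : Fin (n + 1) => if i = j then 1 else
    (FreeGroup.of (0 : Fin (k + 1))) ^ μ i) (fun l => FreeGroup.of l.succ))

/-- the quotient -/
theorem pow_quot (n k : ℕ) (hn : 0 < n) (p : FreeGroup (Fin (n + 1) ⊕ Fin k)) (j : Fin (n + 1))
    (ε : ℤ) (hε : ε * ε = 1)
    (he : ∀ i, ex n k p i = if i = j then ε else 0) (μ : Fin (n + 1) → ℤ)
    (hp : powJ n k j μ p ≠ 1) :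
    ∃ (Q : Type) (_ : Group Q) (_ : Finite Q) (a t : Q) (s : Fin k → Q),
      FreeGroup.lift (cjs n k a t s) p = 1 ∧ a ≠ 1 ∧
      ∀ i : ℕ, i ≤ n → Commute (t ^ i * a * (t ^ i)⁻¹) a := by
  obtain ⟨q, hq, L, _, _, g, hg, hz, hzq, hz1⟩ := central_any (powJ n k j μ p) hp
  haveI : Fact q.Prime := ⟨hq⟩
  haveI : NeZero q := ⟨hq.ne_zero⟩
  haveI : Fact (1 < q) := ⟨hq.one_lt⟩
  set z := FreeGroup.lift g (powJ n k j μ p) with hzdef
  let c : L := z ^ (-ε)
  have hc : c ∈ Subgroup.center L := Subgroup.zpow_mem _ hz _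
  have hcq : c ^ q = 1 := by
    show (z ^ (-ε)) ^ q = 1
    rw [← zpow_natCast, ← zpow_mul, mul_comm, zpow_mul, zpow_natCast, hzq, one_zpow]
  have hcε : c ^ ε = z⁻¹ := by
    show (z ^ (-ε)) ^ ε = z⁻¹
    rw [← zpow_mul, neg_mul, hε, zpow_neg, zpow_one]
  have hc1 : c ≠ 1 := by
    intro h
    rw [h, one_zpow] at hcε
    exact hz1 (inv_eq_one.mp hcε.symm)
  let K := L × Multiplicative (Fin (n + 1) → ZMod q)
  haveI : Finite K := inferInstance
  let h : Fin (n + 1) ⊕ Fin k → L := Sum.elim (fun i => if i = j then 1 else (g 0) ^ μ i)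
    (fun l => g l.succ)
  have hhj : h (Sum.inl j) = 1 := by
    show (if j = j then (1 : L) else (g 0) ^ μ j) = 1
    rw [if_pos rfl]
  have hhz : FreeGroup.lift h p = z := by
    have e : (FreeGroup.lift g).comp (powJ n k j μ) = FreeGroup.lift h := by
      refine FreeGroup.ext_hom _ _ (fun w => ?_)
      rw [MonoidHom.comp_apply, powJ, FreeGroup.lift_apply_of, FreeGroup.lift_apply_of]
      rcases w with i | l
      · simp only [Sum.elim_inl, h]
        split_ifs
        · simp
        · rw [map_zpow, FreeGroup.lift_apply_of]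
      · simp only [Sum.elim_inr, h, FreeGroup.lift_apply_of]
    exact (congrArg (fun f : FreeGroup (Fin (n + 1) ⊕ Fin k) →* L => f p) e).symm
  let B : Fin (n + 1) ⊕ Fin k → K := fun w => (if w = Sum.inl j then c else h w, abl q j w)
  have hBp : FreeGroup.lift B p = 1 := by
    have e : FreeGroup.lift B = (FreeGroup.lift (fun w => if w = Sum.inl j then c else h w)).prod
        (FreeGroup.lift (abl q j)) := by
      refine FreeGroup.ext_hom _ _ (fun w => ?_)
      rw [MonoidHom.prod_apply, FreeGroup.lift_apply_of, FreeGroup.lift_apply_of,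
        FreeGroup.lift_apply_of]
    rw [e, MonoidHom.prod_apply, lift_central j c hc h hhj, lift_abl j p ε he, he j, if_pos rfl,
      hcε, hhz, inv_mul_cancel]
    rfl
  -- the first components of the letters a_i
  have hfst : ∀ i : Fin (n + 1), (B (Sum.inl i)).1 = if i = j then c else (g 0) ^ μ i := by
    intro i
    by_cases hi : i = j
    · subst hi
      simp [B]
    · have : ¬ (Sum.inl i : Fin (n + 1) ⊕ Fin k) = Sum.inl j := fun h' => hi (Sum.inl_injective h')
      simp only [B, if_neg this, h, Sum.elim_inl, if_neg hi]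
  have hBq : ∀ i : Fin (n + 1), B (Sum.inl i) ^ q = 1 := by
    intro i
    refine Prod.ext ?_ ?_
    · rw [Prod.pow_fst, hfst]
      split_ifs
      · exact hcq
      · rw [← zpow_natCast, ← zpow_mul, mul_comm, zpow_mul, zpow_natCast, hg 0, one_zpow]; rfl
    · rw [Prod.pow_snd]
      show (abl q j (Sum.inl i : Fin (n + 1) ⊕ Fin k)) ^ q = 1
      apply Multiplicative.toAdd.injective
      funext m
      rw [toAdd_pow, toAdd_one]
      simp
  have hBc : ∀ i l : Fin (n + 1), Commute (B (Sum.inl i)) (B (Sum.inl l)) := by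
    intro i l
    refine Prod.ext ?_ ?_
    · show (B (Sum.inl i)).1 * (B (Sum.inl l)).1 = (B (Sum.inl l)).1 * (B (Sum.inl i)).1
      rw [hfst, hfst]
      split_ifs
      · rfl
      · exact ((Subgroup.mem_center_iff.mp hc) _).symm
      · exact ((Subgroup.mem_center_iff.mp hc) _)
      · exact (Commute.refl (g 0)).zpow_zpow _ _
    · exact mul_comm _ _
  let χ : Fin (n + 1) → (K →* Multiplicative (ZMod q)) := fun i =>
    { toFun := fun u => Multiplicative.ofAdd ((Multiplicative.toAdd u.2) i)
      map_one' := rfl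
      map_mul' := fun u v => rfl }
  have hχ : ∀ i, i ≠ j → ∀ l, χ i (B (Sum.inl l)) =
      if l = i then Multiplicative.ofAdd 1 else 1 := by
    intro i hi l
    show Multiplicative.ofAdd ((Multiplicative.toAdd (abl q j (Sum.inl l : Fin (n + 1) ⊕ Fin k))) i)
      = _
    by_cases hl : l = i
    · subst hl
      rw [if_pos rfl]
      simp [abl, if_neg hi]
    · rw [if_neg hl]
      by_cases hlj : l = j
      · subst hlj
        simp [abl]
      · simp [abl, if_neg hlj, Ne.symm hl, Pi.single_apply]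
  have hBj : B (Sum.inl j) ≠ 1 := by
    intro h'
    have h2 := congrArg Prod.fst h'
    rw [hfst, if_pos rfl] at h2
    exact hc1 h2
  obtain ⟨τ, hτ⟩ := shift_fam n q hq K (fun i => B (Sum.inl i)) hBq hBc j χ hχ hBj
  refine ⟨Equiv.Perm K, inferInstance, inferInstance, rho K (B (Sum.inl 0)), τ,
    fun l => rho K (B (Sum.inr l)), ?_, ?_, ?_⟩
  · have h1 : FreeGroup.lift (cjs n k (rho K (B (Sum.inl 0))) τ (fun l => rho K (B (Sum.inr l)))) =
        (rho K).comp (FreeGroup.lift B) := by
      refine FreeGroup.ext_hom _ _ (fun w => ?_)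
      rw [FreeGroup.lift_apply_of, MonoidHom.comp_apply, FreeGroup.lift_apply_of]
      rcases w with i | l
      · show τ ^ (i : ℕ) * rho K (B (Sum.inl 0)) * (τ ^ (i : ℕ))⁻¹ = rho K (B (Sum.inl i))
        exact hτ i i.isLt
      · rfl
    rw [h1, MonoidHom.comp_apply, hBp, map_one]
  · intro h2
    have h3 : B (Sum.inl 0) = 1 := rho_inj K (by rw [h2, map_one])
    by_cases hj0 : (0 : Fin (n + 1)) = j
    · rw [hj0] at h3
      exact hBj h3
    · have h4 : χ 0 (B (Sum.inl 0)) = 1 := by rw [h3]; rfl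
      rw [hχ 0 hj0 0, if_pos rfl] at h4
      have h5 : (1 : ZMod q) = 0 := Multiplicative.ofAdd.injective h4
      exact one_ne_zero h5
  · intro i hin
    have e1 : τ ^ i * rho K (B (Sum.inl 0)) * (τ ^ i)⁻¹ =
        rho K (B (Sum.inl ⟨i, by omega⟩)) := hτ i (by omega)
    rw [e1]
    exact (hBc _ _).map (rho K)

end Pool.Agent.HO
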