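import Mathlib
import Pool.Agent.HO.PowA
import Pool.Agent.HO.ExtF

set_option linter.all false
set_option autoImplicit false

/-! The necessary condition with powers of one letter. -/

namespace Pool.Agent.HO

open Function
open scoped commutatorElement

/-- the commutators of a with t^i a t^-i, 0 < i < n -/
def nearA (n k : ℕ) : Set (FreeGroup (Fin (k + 2))) :=
  {w | ∃ i : ℕ, 0 < i ∧ i < n ∧
    w = ⁅(FreeGroup.of 1 : FreeGroup (Fin (k + 2))) ^ i * FreeGroup.of 0 *
        ((FreeGroup.of 1 : FreeGroup (Fin (k + 2))) ^ i)⁻¹,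
        (FreeGroup.of 0 : FreeGroup (Fin (k + 2)))⁆}

theorem nearA_dies {Q : Type} [Group Q] (n k : ℕ) (a t : Q)
    (F : FreeGroup (Fin (k + 2)) →* Q) (h0 : F (FreeGroup.of 0) = a) (h1 : F (FreeGroup.of 1) = t)
    (hcom : ∀ i : ℕ, i ≤ n → Commute (t ^ i * a * (t ^ i)⁻¹) a)
    (w : FreeGroup (Fin (k + 2))) (hw : w ∈ Subgroup.normalClosure (nearA n k)) : F w = 1 := by
  have h : Subgroup.normalClosure (nearA n k) ≤ F.ker := by
    apply Subgroup.normalClosure_le_normal
    rintro w ⟨i, hi0, hin, hw⟩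
    show F w = 1
    rw [hw, map_commutatorElement, map_mul, map_mul, map_inv, map_pow, h0, h1]
    exact commutatorElement_eq_one_iff_commute.mpr (hcom i (by omega))
  exact h hw

/-- the letter a dies in the finite quotients -/
theorem dies_C (m n k : ℕ) (r : FreeGroup (Fin (m + 1))) (hr1 : r ≠ 1)
    (hr : killa m r = 1) (ζ : Fin m → FreeGroup (Fin (k + 1)))
    (p : FreeGroup (Fin (n + 1) ⊕ Fin k)) (w : FreeGroup (Fin (k + 2)))
    (hw : w ∈ Subgroup.normalClosure (near n k))
    (hc : IsConj (zet m k ζ r) (relE n k p * w)) (d : ℕ)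
    (hs : SameFiniteImages (PresentedGroup ({r} : Set (FreeGroup (Fin (m + 1)))))
      (FreeGroup (Fin d)))
    (Q : Type) [Group Q] [Finite Q] (a t : Q) (s : Fin k → Q)
    (h1 : FreeGroup.lift (cjs n k a t s) p = 1)
    (hFw : FreeGroup.lift (Fin.cons (α := fun _ => Q) a (Fin.cons (α := fun _ => Q) t s)) w = 1) :
    a = 1 := by
  have hone : (1 : Fin (k + 2)) = Fin.succ 0 := by simp
  have key : ∀ (Q : Type) [CommGroup Q] (f : FreeGroup (Fin (m + 1)) →* Q),
      f r = (f (FreeGroup.of 0)) ^ (∑ i, ex n k p i) := by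
    intro Q _ f
    let α := f (FreeGroup.of 0)
    let g : FreeGroup (Fin (k + 2)) →* Q :=
      FreeGroup.lift (Fin.cons (α := fun _ => Q) α (fun _ => 1))
    let f2 : FreeGroup (Fin m) →* Q := FreeGroup.lift (fun i => f (FreeGroup.of i.succ))
    have hg0 : g (FreeGroup.of 0) = α := by simp [g]
    have hgs : ∀ v : FreeGroup (Fin (k + 1)), g (FreeGroup.map Fin.succ v) = 1 := by
      intro v
      have e : g.comp (FreeGroup.map Fin.succ) = 1 := by
        refine FreeGroup.ext_hom _ _ (fun i => ?_)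
        simp [g]
      exact congrArg (fun u : FreeGroup (Fin (k + 1)) →* Q => u v) e
    have h1 : f = (g.comp (zet m k ζ)) * (f2.comp (killa m)) := by
      refine FreeGroup.ext_hom _ _ (fun i => ?_)
      rw [MonoidHom.mul_apply, MonoidHom.comp_apply, MonoidHom.comp_apply, zet,
        FreeGroup.lift_apply_of]
      refine Fin.cases ?_ (fun i => ?_) i
      · simp [killa, hg0, α]
      · rw [Fin.cons_succ, hgs]
        simp [killa, f2]
    have h2 : g (zet m k ζ r) = g (relE n k p) * g w := by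
      have := MonoidHom.map_isConj g hc
      rw [isConj_iff_eq.mp this, map_mul]
    have h3 : g w = 1 := by
      refine nearC n k α 1 (fun _ => 1) g hg0 ?_ ?_ ?_ w hw
      · rw [hone]; simp [g]
      · intro l; simp [g]
      · intro i _ _
        exact ⟨Commute.all _ _, fun l => Commute.all _ _⟩
    have h4 : g (relE n k p) = α ^ (∑ i, ex n k p i) := by
      have e : g = (FreeGroup.lift (Fin.cons (α := fun _ => Q) α
          (Fin.cons (α := fun _ => Q) 1 (fun _ : Fin k => 1)))) := by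
        refine FreeGroup.ext_hom _ _ (fun i => ?_)
        refine Fin.cases ?_ (fun i => ?_) i
        · simp [g]
        · refine Fin.cases ?_ (fun i => ?_) i
          · simp [g]
          · simp [g]
      rw [e, lift_relE]
      have e2 : FreeGroup.lift (cjs n k α 1 (fun _ : Fin k => (1 : Q))) =
          (FreeGroup.lift (fun _ : Fin (n + 1) => α)).comp (base n k) := by
        refine FreeGroup.ext_hom _ _ (fun x => ?_)
        rw [MonoidHom.comp_apply, FreeGroup.lift_apply_of, base, FreeGroup.lift_apply_of]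
        rcases x with i | l
        · simp [cjs, cjg]
        · simp [cjs]
      rw [e2, MonoidHom.comp_apply, lift_const]
      rfl
    have h5 : f r = g (zet m k ζ r) * f2 (killa m r) :=
      congrArg (fun u : FreeGroup (Fin (m + 1)) →* Q => u r) h1
    rw [h5, hr, map_one, mul_one, h2, h3, mul_one, h4]
  obtain ⟨q, hq, H, _, _, h, -, -, hw'⟩ := exists_pgroup_gen _ _ hr1
  have hsurv : ∃ (Q : Type) (_ : Group Q) (_ : Finite Q) (f : FreeGroup (Fin (m + 1)) →* Q),
      f r ≠ 1 := ⟨H, inferInstance, inferInstance, FreeGroup.lift h, hw'⟩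
  obtain ⟨hd, hsum⟩ := rank_key m (∑ i, ex n k p i) r hr key hsurv d hs
  subst hd
  let F : FreeGroup (Fin (k + 2)) →* Q :=
    FreeGroup.lift (Fin.cons (α := fun _ => Q) a (Fin.cons (α := fun _ => Q) t s))
  have hFw' : F w = 1 := hFw
  have h2 : (F.comp (zet d k ζ)) r = 1 := by
    have h3 := MonoidHom.map_isConj F hc
    have h4 : F (relE n k p) = 1 := (lift_relE n k a t s p).trans h1
    rw [map_mul, h4, hFw', one_mul] at h3
    exact isConj_one_left.mp h3
  have h5 := a_dies d _ hr hs Q (F.comp (zet d k ζ)) h2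
  rw [MonoidHom.comp_apply, zet, FreeGroup.lift_apply_of, Fin.cons_zero] at h5
  simpa [F] using h5

/-- the necessary condition, in the final form -/
theorem necessaryD (m n k : ℕ) (hn : 0 < n) (r : FreeGroup (Fin (m + 1))) (hr1 : r ≠ 1)
    (hr : killa m r = 1) (ζ : Fin m → FreeGroup (Fin (k + 1)))
    (p : FreeGroup (Fin (n + 1) ⊕ Fin k)) (w : FreeGroup (Fin (k + 2)))
    (hw : w ∈ Subgroup.normalClosure (near n k))
    (hc : IsConj (zet m k ζ r) (relE n k p * w)) (d : ℕ)
    (hs : SameFiniteImages (PresentedGroup ({r} : Set (FreeGroup (Fin (m + 1)))))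
      (FreeGroup (Fin d))) :
    ∃ (j : Fin (n + 1)) (ε : ℤ), (ε = 1 ∨ ε = -1) ∧ (∀ i, ex n k p i = if i = j then ε else 0) ∧
      outJ n k j p = 1 ∧
      (w ∈ Subgroup.normalClosure (nearA n k) → ∀ μ : Fin (n + 1) → ℤ, powJ n k j μ p = 1) := by
  obtain ⟨j, ε, hε, he, hout⟩ := necessaryC m n k hn r hr1 hr ζ p w hw hc d hs
  refine ⟨j, ε, hε, he, hout, ?_⟩
  intro hwA μ
  by_contra hcon
  have hee : ε * ε = 1 := by rcases hε with h | h <;> rw [h] <;> norm_num
  obtain ⟨Q, _, _, a, t, s, h1, h2, h3⟩ := pow_quot n k hn p j ε hee he μ hcon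
  apply h2
  refine dies_C m n k r hr1 hr ζ p w hw hc d hs Q a t s h1 ?_
  have hone : (1 : Fin (k + 2)) = Fin.succ 0 := by simp
  refine nearA_dies n k a t _ ?_ ?_ h3 w hwA
  · simp
  · rw [hone]; simp

/-- short span, in the final form -/
theorem span_final (n k : ℕ) (hn : n = 1 ∨ n = 2)
    (φ : FreeGroup (Fin (n + 1) ⊕ Fin k) ≃* FreeGroup (Fin (n + 1) ⊕ Fin k)) (e : ℤ)
    (hkill : kill n k ((φ (FreeGroup.of (Sum.inl 0))) ^ e) = 1) (d : ℕ)
    (hs : SameFiniteImages
      (PresentedGroup ({relE n k ((φ (FreeGroup.of (Sum.inl 0))) ^ e)} :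
        Set (FreeGroup (Fin (k + 2))))) (FreeGroup (Fin d))) :
    (∃ l : ℕ, Nonempty
      (PresentedGroup ({relE n k ((φ (FreeGroup.of (Sum.inl 0))) ^ e)} :
        Set (FreeGroup (Fin (k + 2)))) ≃* FreeGroup (Fin l))) ∨
    (n = 2 ∧ ∃ (j : Fin (n + 1)) (ε : ℤ), (j = 0 ∨ j = Fin.last n) ∧ (ε = 1 ∨ ε = -1) ∧
      (∀ i, ex n k ((φ (FreeGroup.of (Sum.inl 0))) ^ e) i = if i = j then ε else 0) ∧
      ∀ μ : Fin (n + 1) → ℤ, powJ n k j μ ((φ (FreeGroup.of (Sum.inl 0))) ^ e) = 1) := by
  set p := (φ (FreeGroup.of (Sum.inl 0))) ^ e with hp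
  rcases span_main n k (by omega) φ e hkill d hs with h | ⟨j, ε, h1, h2, h3, h4, h5⟩
  · exact Or.inl h
  · by_cases hr1 : relE n k p = 1
    · left
      rw [hr1]
      exact ⟨k + 2, pres_one_gen (k + 2)⟩
    refine Or.inr ⟨by omega, j, ε, ?_, h1, h2, ?_⟩
    · rcases h5 with h | h | h
      · exact Or.inl h
      · exact Or.inr h
      · exfalso; omega
    · have hk1 : killa (k + 1) (relE n k p) = 1 := by rw [killa_relE, hkill, map_one]
      have hc : IsConj (zet (k + 1) k (fun i => FreeGroup.of i) (relE n k p)) (relE n k p * 1) := by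
        rw [zet_id, mul_one]
      obtain ⟨j', ε', hε', he', -, hpow⟩ := necessaryD (k + 1) n k (by omega) (relE n k p) hr1 hk1
        _ p 1 (Subgroup.one_mem _) hc d hs
      have hjj : j' = j := by
        by_contra hne
        have e1 := he' j'
        rw [if_pos rfl] at e1
        have e2 := h2 j'
        rw [if_neg hne] at e2
        rw [e1] at e2
        rcases hε' with h | h <;> omega
      subst hjj
      exact hpow (Subgroup.one_mem _)

end Pool.Agent.HO
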